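import Pool.Agent.R963.KH.Stm

/-!
Project KH (MP_dd7031_mp), piece KH-7, by helper609: finite `β` means collision.
-/

open scoped ContDiff Topology
open Set Filter

set_option maxHeartbeats 400000

namespace Pool.Agent.R963.KH

namespace CollAux

lemma lip_of_deriv {T g k g' : ℝ → ℝ} {a C : ℝ} (hT : ∀ τ, HasDerivAt T (k τ) τ)
    (hg : ∀ τ, HasDerivAt g (g' τ) τ) (hb : ∀ τ, a ≤ τ → |g' τ| ≤ C * k τ) {s t : ℝ}
    (hs : a ≤ s) (hst : s ≤ t) : |g t - g s| ≤ C * (T t - T s) := by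
  have h1 : MonotoneOn (fun τ => C * T τ - g τ) (Ici a) := by
    refine monotoneOn_of_deriv_nonneg (convex_Ici a) ?_ ?_ ?_
    · exact fun τ _ => (((hT τ).const_mul C).sub (hg τ)).continuousAt.continuousWithinAt
    · exact fun τ _ => (((hT τ).const_mul C).sub (hg τ)).differentiableAt.differentiableWithinAt
    · intro τ hτ
      rw [interior_Ici] at hτ
      have e : deriv (fun τ => C * T τ - g τ) τ = C * k τ - g' τ :=
        (((hT τ).const_mul C).sub (hg τ)).deriv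
      rw [e]
      have := hb τ (le_of_lt hτ)
      linarith [le_abs_self (g' τ)]
  have h2 : MonotoneOn (fun τ => C * T τ + g τ) (Ici a) := by
    refine monotoneOn_of_deriv_nonneg (convex_Ici a) ?_ ?_ ?_
    · exact fun τ _ => (((hT τ).const_mul C).add (hg τ)).continuousAt.continuousWithinAt
    · exact fun τ _ => (((hT τ).const_mul C).add (hg τ)).differentiableAt.differentiableWithinAt
    · intro τ hτ
      rw [interior_Ici] at hτ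
      have e : deriv (fun τ => C * T τ + g τ) τ = C * k τ + g' τ :=
        (((hT τ).const_mul C).add (hg τ)).deriv
      rw [e]
      have := hb τ (le_of_lt hτ)
      linarith [neg_abs_le (g' τ)]
  have e1 := h1 (mem_Ici.2 hs) (mem_Ici.2 (hs.trans hst)) hst
  have e2 := h2 (mem_Ici.2 hs) (mem_Ici.2 (hs.trans hst)) hst
  beta_reduce at e1 e2
  rw [abs_le]
  constructor <;> linarith

lemma conv_of_lip {T g : ℝ → ℝ} {a C L : ℝ} (hT : Tendsto T atTop (𝓝 L))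
    (h : ∀ s t, a ≤ s → s ≤ t → |g t - g s| ≤ C * (T t - T s)) :
    ∃ m, Tendsto g atTop (𝓝 m) := by
  have hc : CauchySeq T := hT.cauchySeq
  refine cauchySeq_tendsto_of_complete ?_
  rw [Metric.cauchySeq_iff] at hc ⊢
  intro ε hε
  obtain ⟨N, hN⟩ := hc (ε / (|C| + 1)) (by positivity)
  refine ⟨max N a, ?_⟩
  have key : ∀ s t, max N a ≤ s → s ≤ t → |g t - g s| < ε := by
    intro s t hs hst
    have h1 := h s t ((le_max_right _ _).trans hs) hst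
    have h2 := hN t (((le_max_left _ _).trans hs).trans hst) s ((le_max_left _ _).trans hs)
    rw [Real.dist_eq] at h2
    have h3 : C * (T t - T s) ≤ |C| * |T t - T s| := by
      rw [← abs_mul]
      exact le_abs_self _
    rw [lt_div_iff₀ (by positivity)] at h2
    nlinarith [abs_nonneg C, abs_nonneg (T t - T s)]
  intro m hm n hn
  rw [Real.dist_eq]
  rcases le_total m n with h' | h'
  · rw [abs_sub_comm]
    exact key m n hm h'
  · exact key n m hn h'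

lemma rho_pos {v : V} (hv : v ∈ Wq) : 0 < rho2 v := by
  unfold rho2
  apply Real.sqrt_pos.2
  have h0 : 0 ≤ (v 0 ^ 2 + v 1 ^ 2) ^ 2 + 16 * v 2 ^ 2 := by positivity
  refine lt_of_le_of_ne h0 fun h => hv ?_
  have h1 : v 2 ^ 2 = 0 := by nlinarith [sq_nonneg (v 0 ^ 2 + v 1 ^ 2), sq_nonneg (v 2)]
  have h2 : (v 0 ^ 2 + v 1 ^ 2) ^ 2 = 0 := by nlinarith
  have h3 : v 0 ^ 2 + v 1 ^ 2 = 0 := by simpa using h2
  have h4 : v 0 ^ 2 = 0 := by nlinarith [sq_nonneg (v 0), sq_nonneg (v 1)]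
  have h5 : v 1 ^ 2 = 0 := by nlinarith [sq_nonneg (v 0), sq_nonneg (v 1)]
  exact ⟨by simpa using h4, by simpa using h5, by simpa using h1⟩

lemma mem_Wq_of_rho {v : V} (hv : 0 < rho2 v) : v ∈ Wq := by
  intro h
  unfold rho2 at hv
  rw [h.1, h.2.1, h.2.2] at hv
  simp at hv

lemma rho_cont : Continuous rho2 := by
  unfold rho2
  fun_prop

lemma r2_le (v : V) : r2 v ≤ rho2 v := by
  unfold r2 rho2
  exact (le_abs_self _).trans (Real.abs_le_sqrt (by nlinarith [sq_nonneg (v 2)]))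

lemma z_le (v : V) : |4 * v 2| ≤ rho2 v := by
  unfold rho2
  exact Real.abs_le_sqrt (by nlinarith [sq_nonneg (v 0 ^ 2 + v 1 ^ 2)])

lemma r2_nonneg (v : V) : 0 ≤ r2 v := by
  unfold r2
  positivity

lemma bd_dr (v : V) (hv : 0 < rho2 v) :
    |2 * (Jf v * r2 v + 4 * v 2 * pth v) / rho2 v| ≤ 2 * (|Jf v| + |pth v|) := by
  rw [abs_div, abs_of_pos hv, div_le_iff₀ hv, abs_mul, abs_two]
  have h1 : |Jf v * r2 v + 4 * v 2 * pth v| ≤ |Jf v| * r2 v + |4 * v 2| * |pth v| := by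
    refine (abs_add_le _ _).trans ?_
    rw [abs_mul, abs_mul (4 * v 2), abs_of_nonneg (r2_nonneg v)]
  have h2 : |Jf v| * r2 v ≤ |Jf v| * rho2 v := mul_le_mul_of_nonneg_left (r2_le v) (abs_nonneg _)
  have h3 : |4 * v 2| * |pth v| ≤ rho2 v * |pth v| :=
    mul_le_mul_of_nonneg_right (z_le v) (abs_nonneg _)
  nlinarith

lemma deriv_rho {x y z : ℝ → ℝ} {x' y' z' τ : ℝ} (hx : HasDerivAt x x' τ)
    (hy : HasDerivAt y y' τ) (hz : HasDerivAt z z' τ)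
    (hG : 0 < √((x τ ^ 2 + y τ ^ 2) ^ 2 + 16 * z τ ^ 2)) :
    HasDerivAt (fun τ => √((x τ ^ 2 + y τ ^ 2) ^ 2 + 16 * z τ ^ 2))
      ((2 * (x τ ^ 2 + y τ ^ 2) * (x τ * x' + y τ * y') + 16 * z τ * z') /
        √((x τ ^ 2 + y τ ^ 2) ^ 2 + 16 * z τ ^ 2)) τ := by
  have hG' : (x τ ^ 2 + y τ ^ 2) ^ 2 + 16 * z τ ^ 2 ≠ 0 := (Real.sqrt_pos.1 hG).ne'
  have h := ((((hx.pow 2).add (hy.pow 2)).pow 2).add ((hz.pow 2).const_mul 16)).sqrt hG'
  refine h.congr_deriv ?_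
  rw [div_eq_div_iff (by positivity) (by positivity)]
  simp only [Pi.add_apply, Pi.pow_apply]
  push_cast
  ring

lemma hd_rho (D : FD) (hp : S_prop) (w : V) (hw : w ∈ W) (τ : ℝ) :
    HasDerivAt (fun τ => rho2 (D.Ψ τ w)) (D.f (D.Ψ τ w) *
      (2 * (Jf (D.Ψ τ w) * r2 (D.Ψ τ w) + 4 * (D.Ψ τ w) 2 * pth (D.Ψ τ w)) /
        rho2 (D.Ψ τ w))) τ := by
  have h := hasDerivAt_pi.1 (D.Ψ_deriv w τ)
  have h0 : HasDerivAt (fun τ => D.Ψ τ w 0)
    (D.f (D.Ψ τ w) * (D.Ψ τ w 3 - (1 / 2) * D.Ψ τ w 1 * D.Ψ τ w 5)) τ := h 0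
  have h1 : HasDerivAt (fun τ => D.Ψ τ w 1)
    (D.f (D.Ψ τ w) * (D.Ψ τ w 4 + (1 / 2) * D.Ψ τ w 0 * D.Ψ τ w 5)) τ := h 1
  have h2 : HasDerivAt (fun τ => D.Ψ τ w 2)
    (D.f (D.Ψ τ w) * ((1 / 2) * (D.Ψ τ w 0 * (D.Ψ τ w 4 + (1 / 2) * D.Ψ τ w 0 * D.Ψ τ w 5) -
      D.Ψ τ w 1 * (D.Ψ τ w 3 - (1 / 2) * D.Ψ τ w 1 * D.Ψ τ w 5)))) τ := h 2
  have hpos := rho_pos (hp D w hw τ).1.1
  have h3 := deriv_rho h0 h1 h2 hpos
  refine h3.congr_deriv ?_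
  rw [← mul_div_assoc]
  unfold Jf r2 pth rho2
  congr 1
  ring

end CollAux

open CollAux in
theorem t_coll (hf : S_field) (hp : S_prop) : S_coll := by
  intro D w hw hb
  obtain ⟨B, hB, -⟩ := EReal.lt_iff_exists_real_btwn.1 hb
  have hTB : ∀ τ, Tm (D.Ψ τ w) ≤ B := by
    intro τ
    have h1 : ((Tm (D.Ψ τ w) : ℝ) : EReal) ≤ bet D w :=
      le_iSup (fun τ => ((Tm (D.Ψ τ w) : ℝ) : EReal)) τ
    exact EReal.coe_le_coe_iff.1 (h1.trans hB.le)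
  have hHw : Ham w ≠ 0 := hw.2
  obtain ⟨T, hTdef⟩ : ∃ T : ℝ → ℝ, T = fun τ => Tm (D.Ψ τ w) := ⟨_, rfl⟩
  have hTe : ∀ τ, T τ = Tm (D.Ψ τ w) := fun τ => by rw [hTdef]
  have hTB' : ∀ τ, T τ ≤ B := fun τ => (hTe τ).le.trans (hTB τ)
  have hTd : ∀ τ, HasDerivAt T (D.f (D.Ψ τ w)) τ := by
    intro τ
    rw [hTdef]
    exact (hp D w hw τ).2.2.2.1
  have hk : ∀ τ, 0 < D.f (D.Ψ τ w) := fun τ => (hp D w hw τ).2.2.2.2.2
  have hmono : Monotone T := by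
    refine monotone_of_deriv_nonneg (fun τ => (hTd τ).differentiableAt) (fun τ => ?_)
    rw [(hTd τ).deriv]
    exact (hk τ).le
  obtain ⟨L, hL⟩ : ∃ L, Tendsto T atTop (𝓝 L) := by
    refine ⟨_, tendsto_atTop_ciSup hmono ⟨B, ?_⟩⟩
    rintro _ ⟨τ, rfl⟩
    exact hTB' τ
  have hJ : ∀ τ, Jf (D.Ψ τ w) = 2 * Ham w * T τ := by
    intro τ
    have h1 := (hp D w hw τ).2.1
    rw [hTe]
    unfold Tm
    rw [h1]
    field_simp
  have hpos : ∀ τ, 0 < rho2 (D.Ψ τ w) := fun τ => rho_pos (hp D w hw τ).1.1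
  obtain ⟨M, hM⟩ : ∃ M, M = max |T 0| |B| := ⟨_, rfl⟩
  have hC : ∀ τ, 0 ≤ τ → |D.f (D.Ψ τ w) *
      (2 * (Jf (D.Ψ τ w) * r2 (D.Ψ τ w) + 4 * (D.Ψ τ w) 2 * pth (D.Ψ τ w)) /
        rho2 (D.Ψ τ w))| ≤ (2 * (2 * |Ham w| * M + |pth w|)) * D.f (D.Ψ τ w) := by
    intro τ hτ
    rw [abs_mul, abs_of_pos (hk τ), mul_comm]
    refine mul_le_mul_of_nonneg_right ?_ (hk τ).le
    refine (bd_dr _ (hpos τ)).trans ?_
    rw [(hp D w hw τ).2.2.1, hJ τ]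
    have h1 : |T τ| ≤ M := by
      rw [hM]
      exact abs_le_max_abs_abs (hmono hτ) (hTB' τ)
    rw [abs_mul, abs_mul, abs_two]
    have h2 : 2 * |Ham w| * |T τ| ≤ 2 * |Ham w| * M := by gcongr
    linarith
  obtain ⟨m, hm⟩ := conv_of_lip hL (fun s t hs hst =>
    lip_of_deriv hTd (hd_rho D hp w hw) hC hs hst)
  have hm0 : 0 ≤ m := ge_of_tendsto' hm fun τ => (hpos τ).le
  rcases hm0.eq_or_lt with h0 | hmp
  · rw [h0]
    exact hm
  exfalso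
  -- far along the orbit `m/2 ≤ rho2 ≤ m + 1`
  have hev : ∀ᶠ τ in atTop, m / 2 < rho2 (D.Ψ τ w) ∧ rho2 (D.Ψ τ w) < m + 1 :=
    (hm.eventually_const_lt (by linarith)).and (hm.eventually_lt_const (by linarith))
  obtain ⟨τ0, hτ0⟩ := eventually_atTop.1 hev
  have hkap : 0 < kap := by
    unfold kap
    positivity
  -- `p_z` is bounded
  have h5 : ∀ τ, HasDerivAt (fun τ => D.Ψ τ w 5)
      (D.f (D.Ψ τ w) * (-(8 * kap * D.Ψ τ w 2 / rho2 (D.Ψ τ w) ^ 3))) τ :=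
    fun τ => hasDerivAt_pi.1 (D.Ψ_deriv w τ) 5
  have h5b : ∀ τ, τ0 ≤ τ → |D.f (D.Ψ τ w) * (-(8 * kap * D.Ψ τ w 2 / rho2 (D.Ψ τ w) ^ 3))| ≤
      (2 * kap / (m / 2) ^ 2) * D.f (D.Ψ τ w) := by
    intro τ hτ
    rw [abs_mul, abs_of_pos (hk τ), mul_comm]
    refine mul_le_mul_of_nonneg_right ?_ (hk τ).le
    have hρ := hpos τ
    have hz := z_le (D.Ψ τ w)
    have hlow := (hτ0 τ hτ).1
    generalize rho2 (D.Ψ τ w) = ρ at *
    generalize D.Ψ τ w 2 = z at *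
    rw [abs_neg, abs_div, abs_of_pos (by positivity : 0 < ρ ^ 3)]
    have e : |8 * kap * z| = 2 * kap * |4 * z| := by
      rw [show 8 * kap * z = 2 * kap * (4 * z) by ring, abs_mul, abs_of_pos (by positivity)]
    rw [e]
    calc 2 * kap * |4 * z| / ρ ^ 3 ≤ 2 * kap * ρ / ρ ^ 3 := by gcongr
      _ = 2 * kap / ρ ^ 2 := by
        field_simp
      _ ≤ 2 * kap / (m / 2) ^ 2 := by gcongr
  obtain ⟨C5, hC5⟩ : ∃ C5, C5 = 2 * kap / (m / 2) ^ 2 := ⟨_, rfl⟩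
  have hC5p : 0 ≤ C5 := by
    rw [hC5]
    positivity
  rw [← hC5] at h5b
  obtain ⟨P, hP⟩ : ∃ P, P = |D.Ψ τ0 w 5| + C5 * (B - T τ0) := ⟨_, rfl⟩
  have hPb : ∀ τ, τ0 ≤ τ → |D.Ψ τ w 5| ≤ P := by
    intro τ hτ
    have h1 := lip_of_deriv hTd h5 h5b le_rfl hτ
    have h2 : |D.Ψ τ w 5| ≤ |D.Ψ τ0 w 5| + |D.Ψ τ w 5 - D.Ψ τ0 w 5| := by
      have := abs_add_le (D.Ψ τ0 w 5) (D.Ψ τ w 5 - D.Ψ τ0 w 5)
      rwa [add_sub_cancel] at this
    have h3 : C5 * (T τ - T τ0) ≤ C5 * (B - T τ0) := by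
      refine mul_le_mul_of_nonneg_left ?_ hC5p
      linarith [hTB' τ]
    rw [hP]
    linarith
  have hP0 : 0 ≤ P := (abs_nonneg _).trans (hPb τ0 le_rfl)
  -- the momenta
  obtain ⟨Q, hQ⟩ : ∃ Q, Q = 2 * |Ham w| + kap / (m / 2) := ⟨_, rfl⟩
  have hQ0 : 0 ≤ Q := by
    rw [hQ]
    positivity
  have hQb : ∀ τ, τ0 ≤ τ → (D.Ψ τ w 3 - (1 / 2) * D.Ψ τ w 1 * D.Ψ τ w 5) ^ 2 +
      (D.Ψ τ w 4 + (1 / 2) * D.Ψ τ w 0 * D.Ψ τ w 5) ^ 2 ≤ Q := by
    intro τ hτ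
    have h1 := (hp D w hw τ).2.1
    have hlow := (hτ0 τ hτ).1
    have hρ := hpos τ
    have h2 : Ham (D.Ψ τ w) = (1 / 2) * ((D.Ψ τ w 3 - (1 / 2) * D.Ψ τ w 1 * D.Ψ τ w 5) ^ 2 +
      (D.Ψ τ w 4 + (1 / 2) * D.Ψ τ w 0 * D.Ψ τ w 5) ^ 2) -
      1 / (8 * Real.pi * rho2 (D.Ψ τ w)) := rfl
    have h3 : 1 / (8 * Real.pi * rho2 (D.Ψ τ w)) = (1 / 2) * (kap / rho2 (D.Ψ τ w)) := by
      unfold kap
      have := Real.pi_pos
      field_simp
      norm_num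
    have h4 : kap / rho2 (D.Ψ τ w) ≤ kap / (m / 2) := by gcongr
    rw [h1, h3] at h2
    rw [hQ]
    have h6 := le_abs_self (Ham w)
    linarith
  -- the orbit stays in a compact set
  obtain ⟨R, hR⟩ : ∃ R, R = (m + 1) + P + Q + 1 + (m + 1) * P := ⟨_, rfl⟩
  have hR0 : 0 ≤ R := by
    rw [hR]
    positivity
  have hRb : ∀ τ, τ0 ≤ τ → ‖D.Ψ τ w‖ ≤ R := by
    intro τ hτ
    have q1 := hQb τ hτ
    have q2 := hPb τ hτ
    have q3 := (hτ0 τ hτ).2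
    have q4 := r2_le (D.Ψ τ w)
    have q5 := z_le (D.Ψ τ w)
    unfold r2 at q4
    generalize D.Ψ τ w = v at *
    have x0 : |v 0| ≤ m + 1 := abs_le_of_sq_le_sq
      (by nlinarith [sq_nonneg (v 0), sq_nonneg (v 1)]) (by linarith)
    have x1 : |v 1| ≤ m + 1 := abs_le_of_sq_le_sq
      (by nlinarith [sq_nonneg (v 0), sq_nonneg (v 1)]) (by linarith)
    have x2 : |v 2| ≤ m + 1 := by
      rw [abs_mul, abs_of_pos (by norm_num : (0 : ℝ) < 4)] at q5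
      linarith [abs_nonneg (v 2)]
    have x3' : |v 3 - (1 / 2) * v 1 * v 5| ≤ Q + 1 := abs_le_of_sq_le_sq
      (by nlinarith [sq_nonneg (v 4 + (1 / 2) * v 0 * v 5)]) (by linarith)
    have x4' : |v 4 + (1 / 2) * v 0 * v 5| ≤ Q + 1 := abs_le_of_sq_le_sq
      (by nlinarith [sq_nonneg (v 3 - (1 / 2) * v 1 * v 5)]) (by linarith)
    have y1 : |v 1 * v 5| ≤ (m + 1) * P := by
      rw [abs_mul]
      gcongr
    have y0 : |v 0 * v 5| ≤ (m + 1) * P := by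
      rw [abs_mul]
      gcongr
    have y2 : 0 ≤ (m + 1) * P := by positivity
    rw [abs_le] at x3' x4' y1 y0
    have x3 : |v 3| ≤ R := by
      rw [hR, abs_le]
      constructor <;> linarith [x3'.1, x3'.2, y1.1, y1.2]
    have x4 : |v 4| ≤ R := by
      rw [hR, abs_le]
      constructor <;> linarith [x4'.1, x4'.2, y0.1, y0.2]
    refine (pi_norm_le_iff_of_nonneg hR0).2 fun i => ?_
    rw [Real.norm_eq_abs]
    fin_cases i
    · show |v 0| ≤ R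
      rw [hR]
      linarith
    · show |v 1| ≤ R
      rw [hR]
      linarith
    · show |v 2| ≤ R
      rw [hR]
      linarith
    · exact x3
    · exact x4
    · show |v 5| ≤ R
      rw [hR]
      linarith
  have hKc : IsCompact (Metric.closedBall (0 : V) R ∩ {v | m / 2 ≤ rho2 v}) :=
    (isCompact_closedBall 0 R).inter_right (isClosed_le continuous_const rho_cont)
  have hK : ∀ τ, τ0 ≤ τ → D.Ψ τ w ∈ Metric.closedBall (0 : V) R ∩ {v | m / 2 ≤ rho2 v} := by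
    intro τ hτ
    refine ⟨?_, (hτ0 τ hτ).1.le⟩
    rw [mem_closedBall_zero_iff]
    exact hRb τ hτ
  obtain ⟨v, hv, hmin⟩ := hKc.exists_isMinOn ⟨_, hK τ0 le_rfl⟩ D.f_smooth.continuous.continuousOn
  have hv2 : m / 2 ≤ rho2 v := hv.2
  have hfv : 0 < D.f v := (D.f_pos v).2 (mem_Wq_of_rho (by linarith))
  have hlow : ∀ τ, τ0 ≤ τ → D.f v ≤ D.f (D.Ψ τ w) := fun τ hτ => hmin (hK τ hτ)
  have hfin : ∀ t, τ0 ≤ t → |t - τ0| ≤ (1 / D.f v) * (T t - T τ0) := by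
    intro t ht
    refine lip_of_deriv (g := fun τ => τ) (g' := fun _ => 1) (a := τ0) hTd
      (fun τ => hasDerivAt_id τ) ?_ le_rfl ht
    intro τ hτ
    rw [abs_one, one_div, ← div_eq_inv_mul, le_div_iff₀ hfv, one_mul]
    exact hlow τ hτ
  have hTT : 0 ≤ B - T τ0 := by linarith [hTB' τ0]
  have h7 : 0 ≤ (1 / D.f v) * (B - T τ0) := by positivity
  have h8 := hfin (τ0 + (1 / D.f v) * (B - T τ0) + 1) (by linarith)
  have h9 : (1 / D.f v) * (T (τ0 + (1 / D.f v) * (B - T τ0) + 1) - T τ0) ≤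
      (1 / D.f v) * (B - T τ0) := by
    refine mul_le_mul_of_nonneg_left ?_ (by positivity)
    linarith [hTB' (τ0 + (1 / D.f v) * (B - T τ0) + 1)]
  have h10 := le_abs_self (τ0 + (1 / D.f v) * (B - T τ0) + 1 - τ0)
  linarith

end Pool.Agent.R963.KH
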