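import Pool.Agent.R963.KH.Stm

set_option maxHeartbeats 400000

open scoped ContDiff Topology
open Set Filter

namespace Pool.Agent.R963.KH

/-- `τ ↦ Tm (Ψ τ w)` is strictly increasing. -/
theorem ext_mono (hp : S_prop) (D : FD) {w : V} (hw : w ∈ W) :
    StrictMono (fun τ => Tm (D.Ψ τ w)) := by
  apply strictMono_of_deriv_pos
  intro τ
  rw [(hp D w hw τ).2.2.2.1.deriv]
  exact (hp D w hw τ).2.2.2.2.2

theorem ext_val (hp : S_prop) (D : FD) {s : ℝ} (h : V → ℝ) {w : V} (hw : w ∈ W) {τ : ℝ}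
    (hτ : Tm (D.Ψ τ w) = s) : Fh D s h w = h (D.Ψ τ w) := by
  have hc : ∃ τ, Tm (D.Ψ τ w) = s := ⟨τ, hτ⟩
  unfold Fh
  rw [dif_pos hc]
  have h1 : hc.choose = τ := by
    apply (ext_mono hp D hw).injective
    show Tm (D.Ψ hc.choose w) = Tm (D.Ψ τ w)
    rw [hc.choose_spec, hτ]
  rw [h1]

theorem ext_zero (D : FD) {s : ℝ} (h : V → ℝ) {w : V}
    (hn : ¬ ∃ τ, Tm (D.Ψ τ w) = s) : Fh D s h w = 0 := by
  unfold Fh
  rw [dif_neg hn]

theorem ext_back (D : FD) (τ : ℝ) (w : V) : D.Ψ (-τ) (D.Ψ τ w) = w := by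
  rw [← D.Ψ_add, neg_add_cancel, D.Ψ_zero]

/-- near a crossing point -/
theorem ext_near (hf : S_field) (hp : S_prop) (hi : S_ift) (D : FD) {s : ℝ} (h : V → ℝ) {w : V}
    (hw : w ∈ W) {τ₀ : ℝ} (hτ : Tm (D.Ψ τ₀ w) = s) :
    ∃ θ : V → ℝ, ContDiffAt ℝ ∞ θ w ∧ θ w = τ₀ ∧
      (∀ᶠ w' in 𝓝 w, Tm (D.Ψ (θ w') w') = s) ∧
      (Fh D s h =ᶠ[𝓝 w] fun w' => h (D.Ψ (θ w') w')) := by
  obtain ⟨θ, hθ, hθ0, hev⟩ := hi D w τ₀ hw
  rw [hτ] at hev
  refine ⟨θ, hθ, hθ0, hev, ?_⟩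
  filter_upwards [hev, hf.2.1.mem_nhds hw] with w' h1 h2
  exact ext_val hp D h h2 h1

/-- far from the crossing points -/
theorem ext_far (hf : S_field) (hp : S_prop) (D : FD) {s : ℝ} (h : V → ℝ)
    (hcs : HasCompactSupport h) (hT : ∀ u ∈ tsupport h, u ∈ W ∧ HG D u) {w : V}
    (hw : w ∈ W) (hn : ¬ ∃ τ, Tm (D.Ψ τ w) = s) : Fh D s h =ᶠ[𝓝 w] fun _ => 0 := by
  by_contra hne
  have h1 : ∃ᶠ w' in 𝓝 w, ¬ (Fh D s h w' = 0) := fun hh => hne (by
    filter_upwards [hh] with w' hw'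
    exact not_not.mp hw')
  have h2 : ∃ᶠ w' in 𝓝 w, (¬ (Fh D s h w' = 0)) ∧ w' ∈ W :=
    h1.and_eventually (hf.2.1.mem_nhds hw)
  obtain ⟨x, hx, hxp⟩ := Filter.exists_seq_forall_of_frequently h2
  have h3 : ∀ n, ∃ τ, Tm (D.Ψ τ (x n)) = s := by
    intro n
    by_contra hc
    exact (hxp n).1 (ext_zero D h hc)
  choose τ hτ using h3
  have h4 : ∀ n, D.Ψ (τ n) (x n) ∈ tsupport h := by
    intro n
    apply subset_tsupport
    rw [Function.mem_support]
    rw [← ext_val hp D h (hxp n).2 (hτ n)]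
    exact (hxp n).1
  obtain ⟨u, hu, φ, hφ, hlim⟩ := hcs.isCompact.tendsto_subseq h4
  obtain ⟨huW, hHG⟩ := hT u hu
  obtain ⟨σ, hσ⟩ := hHG (fun n => D.Ψ (τ (φ n)) (x (φ n))) (fun n => - τ (φ n)) w
    (fun n => (hT _ (h4 (φ n))).1) hlim hw (by
      have h5 : (fun n => D.Ψ (-τ (φ n)) (D.Ψ (τ (φ n)) (x (φ n)))) = x ∘ φ := by
        funext n
        exact ext_back D _ _
      rw [h5]
      exact hx.comp hφ.tendsto_atTop)
  have h6 : ContinuousAt Tm u := (hf.2.2.2.2.1.contDiffAt (hf.2.1.mem_nhds huW)).continuousAt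
  have h7 : Tendsto (fun n => Tm (D.Ψ (τ (φ n)) (x (φ n)))) atTop (𝓝 (Tm u)) :=
    h6.tendsto.comp hlim
  have h8 : (fun n => Tm (D.Ψ (τ (φ n)) (x (φ n)))) = fun _ => s := by
    funext n
    exact hτ (φ n)
  rw [h8] at h7
  have h9 : Tm u = s := tendsto_nhds_unique h7 tendsto_const_nhds |>.symm ▸ rfl
  apply hn
  refine ⟨-σ, ?_⟩
  rw [← hσ, ext_back]
  exact h9

theorem ext_smooth (hf : S_field) (hp : S_prop) (hi : S_ift) (D : FD) {s : ℝ} (h : V → ℝ)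
    (hh : ContDiff ℝ ∞ h)
    (hcs : HasCompactSupport h) (hT : ∀ u ∈ tsupport h, u ∈ W ∧ HG D u) {w : V}
    (hw : w ∈ W) : ContDiffAt ℝ ∞ (Fh D s h) w := by
  by_cases hn : ∃ τ, Tm (D.Ψ τ w) = s
  · obtain ⟨τ₀, hτ⟩ := hn
    obtain ⟨θ, hθ, _, _, he⟩ := ext_near hf hp hi D h hw hτ
    refine ContDiffAt.congr_of_eventuallyEq ?_ he
    have h1 : ContDiffAt ℝ ∞ (fun w' => ((θ w', w') : ℝ × V)) w := hθ.prodMk contDiffAt_id
    have h2 : ContDiffAt ℝ ∞ (fun w' => D.Ψ (θ w') w') w :=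
      ContDiffAt.comp w (g := fun q : ℝ × V => D.Ψ q.1 q.2) (f := fun w' => ((θ w', w') : ℝ × V))
        D.Ψ_smooth.contDiffAt h1
    exact hh.contDiffAt.comp w h2
  · exact contDiffAt_const.congr_of_eventuallyEq (ext_far hf hp D h hcs hT hw hn)

theorem ext_orbit (hp : S_prop) (D : FD) {s : ℝ} (h : V → ℝ) {w : V}
    (hw : w ∈ W) (σ : ℝ) : Fh D s h (D.Ψ σ w) = Fh D s h w := by
  have key : ∀ τ, D.Ψ (τ - σ) (D.Ψ σ w) = D.Ψ τ w := by
    intro τ
    rw [← D.Ψ_add, sub_add_cancel]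
  by_cases hn : ∃ τ, Tm (D.Ψ τ w) = s
  · obtain ⟨τ, hτ⟩ := hn
    rw [ext_val hp D h hw hτ, ext_val hp D (τ := τ - σ) h (hp D w hw σ).1 (by rw [key]; exact hτ),
      key]
  · rw [ext_zero D h hn, ext_zero D h]
    rintro ⟨τ, hτ⟩
    apply hn
    exact ⟨τ + σ, by rw [D.Ψ_add]; exact hτ⟩

theorem ext_rot (hp : S_prop) (hs : S_sym) (D : FD) {s : ℝ} (h : V → ℝ)
    (hr : ∀ θ w, h (Rot θ w) = h w) {w : V}
    (hw : w ∈ W) (θ : ℝ) : Fh D s h (Rot θ w) = Fh D s h w := by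
  obtain ⟨hRW, _, K, hK, hKe⟩ := (hs D).1 θ w hw
  have key : ∀ τ, Tm (D.Ψ (K τ) (Rot θ w)) = Tm (D.Ψ τ w) := by
    intro τ
    rw [← hKe]
    exact ((hs D).1 θ (D.Ψ τ w) (hp D w hw τ).1).2.1
  by_cases hn : ∃ τ, Tm (D.Ψ τ w) = s
  · obtain ⟨τ, hτ⟩ := hn
    rw [ext_val hp D h hw hτ, ext_val hp D (τ := K τ) h hRW (by rw [key]; exact hτ), ← hKe, hr]
  · rw [ext_zero D h hn, ext_zero D h]
    rintro ⟨τ', hτ⟩
    obtain ⟨τ, rfl⟩ := hK τ'
    exact hn ⟨τ, by rw [← key]; exact hτ⟩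

theorem ext_rot_deriv (w : V) : HasDerivAt (fun θ : ℝ => Rot θ w) (Xth w) 0 := by
  have hc : HasDerivAt Real.cos 0 (0 : ℝ) := by
    simpa using Real.hasDerivAt_cos 0
  have hs : HasDerivAt Real.sin 1 (0 : ℝ) := by
    simpa using Real.hasDerivAt_sin 0
  rw [hasDerivAt_pi]
  intro i
  fin_cases i
  · have := (hc.mul_const (w 0)).fun_sub (hs.mul_const (w 1))
    simpa [Rot, Xth] using this
  · have := (hs.mul_const (w 0)).fun_add (hc.mul_const (w 1))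
    simpa [Rot, Xth] using this
  · simpa [Rot, Xth] using hasDerivAt_const (0 : ℝ) (w 2)
  · have := (hc.mul_const (w 3)).fun_sub (hs.mul_const (w 4))
    simpa [Rot, Xth] using this
  · have := (hs.mul_const (w 3)).fun_add (hc.mul_const (w 4))
    simpa [Rot, Xth] using this
  · simpa [Rot, Xth] using hasDerivAt_const (0 : ℝ) (w 5)

theorem ext_rot_zero (w : V) : Rot 0 w = w := by
  funext i
  fin_cases i <;> simp [Rot]

theorem t_ext (hf : S_field) (hp : S_prop) (hs : S_sym) (hi : S_ift) : S_ext := by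
  intro D h s hh hcs hT hr
  have hsm : ∀ w ∈ W, ContDiffAt ℝ ∞ (Fh D s h) w := fun w hw =>
    ext_smooth hf hp hi D h hh hcs hT hw
  have hdf : ∀ w ∈ W, HasFDerivAt (Fh D s h) (fderiv ℝ (Fh D s h) w) w := fun w hw =>
    ((hsm w hw).differentiableAt (by simp)).hasFDerivAt
  have hfpos : ∀ w ∈ W, 0 < D.f w := fun w hw => (D.f_pos w).2 hw.1
  refine ⟨fun w hw => (hsm w hw).contDiffWithinAt, ?_, ?_, ?_⟩
  · intro w hw
    have h1 := D.Ψ_deriv w 0
    simp only [D.Ψ_zero] at h1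
    have h2 : HasFDerivAt (Fh D s h) (fderiv ℝ (Fh D s h) w) ((fun σ => D.Ψ σ w) (0 : ℝ)) := by
      show HasFDerivAt (Fh D s h) (fderiv ℝ (Fh D s h) w) (D.Ψ 0 w)
      rw [D.Ψ_zero]; exact hdf w hw
    have h3 : HasDerivAt (Fh D s h ∘ fun σ => D.Ψ σ w)
        (fderiv ℝ (Fh D s h) w (D.f w • XH w)) 0 :=
      HasFDerivAt.comp_hasDerivAt (0 : ℝ) h2 h1
    have h4 : (Fh D s h ∘ fun σ => D.Ψ σ w) = fun _ => Fh D s h w := by
      funext σ
      exact ext_orbit hp D h hw σ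
    rw [h4] at h3
    have h5 := h3.unique (hasDerivAt_const (0 : ℝ) (Fh D s h w))
    rw [map_smul, smul_eq_mul] at h5
    rcases mul_eq_zero.mp h5 with h6 | h6
    · exact absurd h6 (hfpos w hw).ne'
    · exact h6
  · intro w hw
    have h1 := ext_rot_deriv w
    have h2 : HasFDerivAt (Fh D s h) (fderiv ℝ (Fh D s h) w) ((fun θ => Rot θ w) (0 : ℝ)) := by
      show HasFDerivAt (Fh D s h) (fderiv ℝ (Fh D s h) w) (Rot 0 w)
      rw [ext_rot_zero]; exact hdf w hw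
    have h3 : HasDerivAt (Fh D s h ∘ fun θ => Rot θ w) (fderiv ℝ (Fh D s h) w (Xth w)) 0 :=
      HasFDerivAt.comp_hasDerivAt (0 : ℝ) h2 h1
    have h4 : (Fh D s h ∘ fun θ => Rot θ w) = fun _ => Fh D s h w := by
      funext θ
      exact ext_rot hp hs D h hr hw θ
    rw [h4] at h3
    exact h3.unique (hasDerivAt_const (0 : ℝ) (Fh D s h w))
  · intro w hw hTw v hv
    obtain ⟨θ, hθ, hθ0, hev, he⟩ := ext_near hf hp hi D (s := s) h hw (τ₀ := 0)
      (by rw [D.Ψ_zero]; exact hTw)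
    set θ' := fderiv ℝ θ w with hθ'
    have hθd : HasFDerivAt θ θ' w := (hθ.differentiableAt (by simp)).hasFDerivAt
    set P : ℝ × V → V := fun q => D.Ψ q.1 q.2 with hP
    have hPd : HasFDerivAt P (fderiv ℝ P (0, w)) (0, w) :=
      ((D.Ψ_smooth.differentiable (by simp)) (0, w)).hasFDerivAt
    set P' := fderiv ℝ P (0, w) with hP'
    -- partial derivatives
    have hPv : ∀ v : V, P' (0, v) = v := by
      intro v
      have h1 : HasFDerivAt (fun w' : V => ((0 : ℝ), w')) (ContinuousLinearMap.inr ℝ ℝ V) w :=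
        hasFDerivAt_prodMk_right (0 : ℝ) w
      have h2 : HasFDerivAt (fun w' : V => P ((0 : ℝ), w'))
          (P'.comp (ContinuousLinearMap.inr ℝ ℝ V)) w :=
        HasFDerivAt.comp w (g := P) (f := fun w' : V => ((0 : ℝ), w')) hPd h1
      have h3 : (fun w' : V => P ((0 : ℝ), w')) = id := by
        funext w'
        exact D.Ψ_zero w'
      rw [h3] at h2
      have h4 := h2.unique (hasFDerivAt_id w)
      have h5 := congrArg (fun L : V →L[ℝ] V => L v) h4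
      simpa using h5
    have hPt : P' (1, 0) = D.f w • XH w := by
      have h1 : HasFDerivAt (fun t : ℝ => (t, w)) (ContinuousLinearMap.inl ℝ ℝ V) 0 :=
        hasFDerivAt_prodMk_left (0 : ℝ) w
      have h2 : HasFDerivAt (fun t : ℝ => P (t, w))
          (P'.comp (ContinuousLinearMap.inl ℝ ℝ V)) 0 :=
        HasFDerivAt.comp (0 : ℝ) (g := P) (f := fun t : ℝ => (t, w)) hPd h1
      have h3 := D.Ψ_deriv w 0
      rw [D.Ψ_zero] at h3
      have h4 := h2.unique h3.hasFDerivAt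
      have h5 := congrArg (fun L : ℝ →L[ℝ] V => L 1) h4
      simpa using h5
    have hPg : ∀ (a : ℝ) (v : V), P' (a, v) = a • (D.f w • XH w) + v := by
      intro a v
      have h1 : ((a, v) : ℝ × V) = a • ((1 : ℝ), (0 : V)) + ((0 : ℝ), v) := by
        ext <;> simp
      rw [h1, map_add, map_smul, hPt, hPv]
    -- derivative of G
    have hGd : HasFDerivAt (fun w' => D.Ψ (θ w') w')
        (P'.comp (θ'.prod (ContinuousLinearMap.id ℝ V))) w := by
      have h1 : HasFDerivAt (fun w' => ((θ w', w') : ℝ × V))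
          (θ'.prod (ContinuousLinearMap.id ℝ V)) w := hθd.prodMk (hasFDerivAt_id w)
      have h2 : HasFDerivAt P P' ((fun w' => ((θ w', w') : ℝ × V)) w) := by
        show HasFDerivAt P P' (θ w, w)
        rw [hθ0]
        exact hPd
      exact HasFDerivAt.comp w (g := P) (f := fun w' => ((θ w', w') : ℝ × V)) h2 h1
    have hG0 : D.Ψ (θ w) w = w := by rw [hθ0, D.Ψ_zero]
    have hGv : (P'.comp (θ'.prod (ContinuousLinearMap.id ℝ V))) v
        = (θ' v) • (D.f w • XH w) + v := by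
      show P' (θ' v, v) = _
      exact hPg _ _
    have hTmd : HasFDerivAt Tm (fderiv ℝ Tm w) (D.Ψ (θ w) w) := by
      rw [hG0]
      exact ((hf.2.2.2.2.1.contDiffAt (hf.2.1.mem_nhds hw)).differentiableAt
        (by simp)).hasFDerivAt
    have h1 : HasFDerivAt (fun w' => Tm (D.Ψ (θ w') w'))
        ((fderiv ℝ Tm w).comp (P'.comp (θ'.prod (ContinuousLinearMap.id ℝ V)))) w :=
      HasFDerivAt.comp w (g := Tm) (f := fun w' => D.Ψ (θ w') w') hTmd hGd
    have h2 : HasFDerivAt (fun w' => Tm (D.Ψ (θ w') w')) (0 : V →L[ℝ] ℝ) w :=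
      (hasFDerivAt_const s w).congr_of_eventuallyEq hev
    have h3 := congrArg (fun L : V →L[ℝ] ℝ => L v) (h1.unique h2)
    have h4 : (θ' v) * D.f w = 0 := by
      have h5 : fderiv ℝ Tm w ((P'.comp (θ'.prod (ContinuousLinearMap.id ℝ V))) v) = 0 := h3
      rw [hGv, map_add, map_smul, map_smul, hv, hf.2.2.2.2.2.2.1 w hw] at h5
      simpa using h5
    have h5 : θ' v = 0 := by
      rcases mul_eq_zero.mp h4 with h6 | h6
      · exact h6
      · exact absurd h6 (hfpos w hw).ne'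
    have hhd : HasFDerivAt h (fderiv ℝ h w) (D.Ψ (θ w) w) := by
      rw [hG0]
      exact ((hh.differentiable (by simp)) w).hasFDerivAt
    have h6 : HasFDerivAt (fun w' => h (D.Ψ (θ w') w'))
        ((fderiv ℝ h w).comp (P'.comp (θ'.prod (ContinuousLinearMap.id ℝ V)))) w :=
      HasFDerivAt.comp w (g := h) (f := fun w' => D.Ψ (θ w') w') hhd hGd
    have h7 : HasFDerivAt (Fh D s h)
        ((fderiv ℝ h w).comp (P'.comp (θ'.prod (ContinuousLinearMap.id ℝ V)))) w :=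
      h6.congr_of_eventuallyEq he
    rw [h7.fderiv]
    show fderiv ℝ h w ((P'.comp (θ'.prod (ContinuousLinearMap.id ℝ V))) v) = _
    rw [hGv, h5, zero_smul, zero_add]

end Pool.Agent.R963.KH
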