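import Pool.Agent.R963.KH.Stm

/-!
KH-3: the Hamiltonian field and the basic derivative identities (helper209).
-/

set_option maxHeartbeats 400000

open scoped ContDiff Topology
open Set Filter

namespace Pool.Agent.R963.KH

/-- the coordinate projections -/
noncomputable abbrev prj (i : Fin 6) : V →L[ℝ] ℝ := ContinuousLinearMap.proj i

lemma hcoord (i : Fin 6) (w : V) : HasFDerivAt (fun w : V => w i) (prj i) w :=
  hasFDerivAt_apply i w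

lemma hcd (i : Fin 6) : ContDiff ℝ ∞ (fun w : V => w i) := contDiff_apply ℝ ℝ i

lemma rad_pos {w : V} (hw : w ∈ Wq) : 0 < (w 0 ^ 2 + w 1 ^ 2) ^ 2 + 16 * w 2 ^ 2 := by
  by_contra hcon
  push Not at hcon
  have h1 : 0 ≤ (w 0 ^ 2 + w 1 ^ 2) ^ 2 := sq_nonneg _
  have h2 : 0 ≤ w 2 ^ 2 := sq_nonneg _
  have h3 : w 2 ^ 2 = 0 := by linarith
  have h4 : (w 0 ^ 2 + w 1 ^ 2) ^ 2 = 0 := by linarith
  have h5 : w 0 ^ 2 + w 1 ^ 2 = 0 := pow_eq_zero_iff two_ne_zero |>.1 h4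
  have h6 : w 0 ^ 2 = 0 := by nlinarith [sq_nonneg (w 0), sq_nonneg (w 1)]
  have h7 : w 1 ^ 2 = 0 := by nlinarith [sq_nonneg (w 0), sq_nonneg (w 1)]
  exact hw ⟨pow_eq_zero_iff two_ne_zero |>.1 h6, pow_eq_zero_iff two_ne_zero |>.1 h7,
    pow_eq_zero_iff two_ne_zero |>.1 h3⟩

lemma rho2_pos {w : V} (hw : w ∈ Wq) : 0 < rho2 w := Real.sqrt_pos.2 (rad_pos hw)

lemma rho2_sq (w : V) : rho2 w ^ 2 = r2 w ^ 2 + 16 * w 2 ^ 2 :=
  Real.sq_sqrt (by positivity)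

lemma isOpen_Wq : IsOpen Wq := by
  have h : Wq = {w : V | w 0 = 0 ∧ w 1 = 0 ∧ w 2 = 0}ᶜ := rfl
  rw [h, isOpen_compl_iff]
  exact ((isClosed_eq (continuous_apply 0) continuous_const).inter
    ((isClosed_eq (continuous_apply 1) continuous_const).inter
    (isClosed_eq (continuous_apply 2) continuous_const)))

lemma rho2_cd : ContDiffOn ℝ ∞ rho2 Wq := by
  unfold rho2
  refine ContDiffOn.sqrt ?_ fun w hw => (rad_pos hw).ne'
  exact (((((hcd 0).pow 2).add ((hcd 1).pow 2)).pow 2).add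
    (contDiff_const.mul ((hcd 2).pow 2))).contDiffOn

lemma r2_cd : ContDiff ℝ ∞ r2 := ((hcd 0).pow 2).add ((hcd 1).pow 2)

lemma Jf_cd : ContDiff ℝ ∞ Jf :=
  (((hcd 0).mul (hcd 3)).add ((hcd 1).mul (hcd 4))).add ((contDiff_const.mul (hcd 2)).mul (hcd 5))

lemma pth_cd : ContDiff ℝ ∞ pth := ((hcd 0).mul (hcd 4)).sub ((hcd 1).mul (hcd 3))

lemma uu_cd : ContDiff ℝ ∞ (fun w : V => w 3 - (1 / 2) * w 1 * w 5) :=
  (hcd 3).sub ((contDiff_const.mul (hcd 1)).mul (hcd 5))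

lemma vv_cd : ContDiff ℝ ∞ (fun w : V => w 4 + (1 / 2) * w 0 * w 5) :=
  (hcd 4).add ((contDiff_const.mul (hcd 0)).mul (hcd 5))

lemma Ham_eq (w : V) : Ham w = (1 / 2) * ((w 3 - (1 / 2) * w 1 * w 5) ^ 2 +
    (w 4 + (1 / 2) * w 0 * w 5) ^ 2) - 1 / (8 * Real.pi) * (rho2 w)⁻¹ := by
  unfold Ham rho2
  rw [one_div (8 * Real.pi * _), mul_inv, one_div (8 * Real.pi)]

lemma Ham_cd : ContDiffOn ℝ ∞ Ham Wq := by
  have h : Ham = fun w => (1 / 2) * ((w 3 - (1 / 2) * w 1 * w 5) ^ 2 +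
    (w 4 + (1 / 2) * w 0 * w 5) ^ 2) - 1 / (8 * Real.pi) * (rho2 w)⁻¹ := funext Ham_eq
  rw [h]
  exact (contDiff_const.mul ((uu_cd.pow 2).add (vv_cd.pow 2))).contDiffOn.sub
    (contDiffOn_const.mul (rho2_cd.inv fun w hw => (rho2_pos hw).ne'))

lemma isOpen_W : IsOpen W := by
  have h : W = Wq ∩ Ham ⁻¹' {0}ᶜ := by
    ext w
    rfl
  rw [h]
  exact Ham_cd.continuousOn.isOpen_inter_preimage isOpen_Wq isOpen_compl_singleton

lemma XH_cd : ContDiffOn ℝ ∞ XH Wq := by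
  have hr : ContDiffOn ℝ ∞ (fun w => rho2 w ^ 3) Wq := rho2_cd.pow 3
  have hr0 : ∀ w ∈ Wq, rho2 w ^ 3 ≠ 0 := fun w hw => pow_ne_zero _ (rho2_pos hw).ne'
  rw [contDiffOn_pi]
  intro i
  fin_cases i
  · exact uu_cd.contDiffOn
  · exact vv_cd.contDiffOn
  · exact (contDiff_const.mul (((hcd 0).mul vv_cd).sub ((hcd 1).mul uu_cd))).contDiffOn
  · exact (((contDiff_const.mul (hcd 5)).mul vv_cd).contDiffOn.add
      (((contDiff_const.mul (hcd 0)).mul r2_cd).contDiffOn.div hr hr0)).neg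
  · exact ((contDiff_const.mul (hcd 5)).mul uu_cd).contDiffOn.sub
      (((contDiff_const.mul (hcd 1)).mul r2_cd).contDiffOn.div hr hr0)
  · exact ((contDiff_const.mul (hcd 2)).contDiffOn.div hr hr0).neg

lemma Tm_cd : ContDiffOn ℝ ∞ Tm W := by
  refine Jf_cd.contDiffOn.div (contDiffOn_const.mul (Ham_cd.mono fun w hw => hw.1)) ?_
  intro w hw
  exact mul_ne_zero two_ne_zero hw.2

/-- the derivative of `Ham` -/
noncomputable def dHam (w : V) : V →L[ℝ] ℝ :=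
  (-XH w 3) • prj 0 + (-XH w 4) • prj 1 + (-XH w 5) • prj 2 + (XH w 0) • prj 3 +
    (XH w 1) • prj 4 + (XH w 2) • prj 5

lemma dHam_apply (w v : V) : dHam w v = -XH w 3 * v 0 + -XH w 4 * v 1 + -XH w 5 * v 2 +
    XH w 0 * v 3 + XH w 1 * v 4 + XH w 2 * v 5 := by
  simp [dHam]

/-- the derivative of `pth` -/
noncomputable def dpth (w : V) : V →L[ℝ] ℝ :=
  w 4 • prj 0 + (-w 3) • prj 1 + (-w 1) • prj 3 + w 0 • prj 4

lemma dpth_apply (w v : V) : dpth w v = w 4 * v 0 + -w 3 * v 1 + -w 1 * v 3 + w 0 * v 4 := by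
  simp [dpth]

/-- the derivative of `Jf` -/
noncomputable def dJf (w : V) : V →L[ℝ] ℝ :=
  w 3 • prj 0 + w 4 • prj 1 + (2 * w 5) • prj 2 + w 0 • prj 3 + w 1 • prj 4 + (2 * w 2) • prj 5

lemma dJf_apply (w v : V) : dJf w v = w 3 * v 0 + w 4 * v 1 + 2 * w 5 * v 2 + w 0 * v 3 +
    w 1 * v 4 + 2 * w 2 * v 5 := by
  simp [dJf]

lemma pth_hasFDerivAt (w : V) : HasFDerivAt pth (dpth w) w := by
  have h := ((hcoord 0 w).mul (hcoord 4 w)).sub ((hcoord 1 w).mul (hcoord 3 w))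
  refine h.congr_fderiv (ContinuousLinearMap.ext fun v => ?_)
  rw [dpth_apply]
  simp
  ring

lemma Jf_hasFDerivAt (w : V) : HasFDerivAt Jf (dJf w) w := by
  have h := (((hcoord 0 w).mul (hcoord 3 w)).add ((hcoord 1 w).mul (hcoord 4 w))).add
    (((hcoord 2 w).const_mul 2).mul (hcoord 5 w))
  refine h.congr_fderiv (ContinuousLinearMap.ext fun v => ?_)
  rw [dJf_apply]
  simp
  ring

/-- the derivative of `rho2` -/
noncomputable def drho (w : V) : V →L[ℝ] ℝ :=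
  (2 * r2 w * w 0 / rho2 w) • prj 0 + (2 * r2 w * w 1 / rho2 w) • prj 1 +
    (16 * w 2 / rho2 w) • prj 2

lemma drho_apply (w v : V) : drho w v = 2 * r2 w * w 0 / rho2 w * v 0 +
    2 * r2 w * w 1 / rho2 w * v 1 + 16 * w 2 / rho2 w * v 2 := by
  simp [drho]

lemma rho2_hasFDerivAt {w : V} (hw : w ∈ Wq) : HasFDerivAt rho2 (drho w) w := by
  have h1 : HasFDerivAt (fun w : V => (w 0 ^ 2 + w 1 ^ 2) ^ 2 + 16 * w 2 ^ 2) _ w :=
    ((((hcoord 0 w).pow 2).add ((hcoord 1 w).pow 2)).pow 2).add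
      (((hcoord 2 w).pow 2).const_mul 16)
  have h2 := h1.sqrt (rad_pos hw).ne'
  refine h2.congr_fderiv (ContinuousLinearMap.ext fun v => ?_)
  rw [drho_apply]
  have h3 : √((w 0 ^ 2 + w 1 ^ 2) ^ 2 + 16 * w 2 ^ 2) = rho2 w := rfl
  have h4 := (rho2_pos hw).ne'
  simp only [h3, r2]
  simp
  field_simp
  try ring

lemma Ham_hasFDerivAt {w : V} (hw : w ∈ Wq) : HasFDerivAt Ham (dHam w) w := by
  have hu : HasFDerivAt (fun w : V => w 3 - (1 / 2) * w 1 * w 5) _ w :=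
    (hcoord 3 w).sub (((hcoord 1 w).const_mul (1 / 2)).mul (hcoord 5 w))
  have hv : HasFDerivAt (fun w : V => w 4 + (1 / 2) * w 0 * w 5) _ w :=
    (hcoord 4 w).add (((hcoord 0 w).const_mul (1 / 2)).mul (hcoord 5 w))
  have hr : HasFDerivAt (fun w : V => (rho2 w)⁻¹) _ w :=
    (hasDerivAt_inv (rho2_pos hw).ne').comp_hasFDerivAt w (rho2_hasFDerivAt hw)
  have h : HasFDerivAt (fun w : V => (1 / 2) * ((w 3 - (1 / 2) * w 1 * w 5) ^ 2 +
      (w 4 + (1 / 2) * w 0 * w 5) ^ 2) - 1 / (8 * Real.pi) * (rho2 w)⁻¹) _ w :=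
    (((hu.pow 2).add (hv.pow 2)).const_mul (1 / 2)).sub (hr.const_mul (1 / (8 * Real.pi)))
  have he : Ham = fun w : V => (1 / 2) * ((w 3 - (1 / 2) * w 1 * w 5) ^ 2 +
      (w 4 + (1 / 2) * w 0 * w 5) ^ 2) - 1 / (8 * Real.pi) * (rho2 w)⁻¹ := funext Ham_eq
  rw [he]
  refine h.congr_fderiv (ContinuousLinearMap.ext fun v => ?_)
  rw [dHam_apply]
  have h4 := (rho2_pos hw).ne'
  have h5 := Real.pi_ne_zero
  simp [XH, drho_apply, kap]
  field_simp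
  ring

lemma fderiv_sum (F : V → ℝ) (w v : V) : fderiv ℝ F w v = v 0 * pd F 0 w + v 1 * pd F 1 w +
    v 2 * pd F 2 w + v 3 * pd F 3 w + v 4 * pd F 4 w + v 5 * pd F 5 w := by
  have h : v = ∑ i : Fin 6, v i • (Pi.single i 1 : V) := by
    funext j
    simp [Finset.sum_apply, Pi.single_apply]
  conv_lhs => rw [h]
  rw [map_sum]
  simp only [map_smul, smul_eq_mul, Fin.sum_univ_six]
  rfl

lemma pd_Ham {w : V} (hw : w ∈ Wq) : pd Ham 0 w = -XH w 3 ∧ pd Ham 1 w = -XH w 4 ∧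
    pd Ham 2 w = -XH w 5 ∧ pd Ham 3 w = XH w 0 ∧ pd Ham 4 w = XH w 1 ∧ pd Ham 5 w = XH w 2 := by
  have h := (Ham_hasFDerivAt hw).fderiv
  unfold pd
  rw [h]
  simp only [dHam_apply]
  simp

lemma pd_pth (w : V) : pd pth 0 w = w 4 ∧ pd pth 1 w = -w 3 ∧ pd pth 2 w = 0 ∧
    pd pth 3 w = -w 1 ∧ pd pth 4 w = w 0 ∧ pd pth 5 w = 0 := by
  have h := (pth_hasFDerivAt w).fderiv
  unfold pd
  rw [h]
  simp only [dpth_apply]
  simp

lemma dHam_XH (w : V) : dHam w (XH w) = 0 := by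
  rw [dHam_apply]
  ring

lemma dpth_XH (w : V) : dpth w (XH w) = 0 := by
  rw [dpth_apply]
  simp [XH]
  ring

lemma dHam_Xth (w : V) : dHam w (Xth w) = 0 := by
  rw [dHam_apply]
  simp [XH, Xth]
  ring

lemma dJf_XH {w : V} (hw : w ∈ Wq) : dJf w (XH w) = 2 * Ham w := by
  have h4 := (rho2_pos hw).ne'
  have h5 := Real.pi_ne_zero
  have h6 : (w 0 ^ 2 + w 1 ^ 2) ^ 2 = rho2 w ^ 2 - 16 * w 2 ^ 2 := by
    rw [rho2_sq]
    unfold r2
    ring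
  rw [dJf_apply, Ham_eq]
  simp [XH, kap, r2]
  field_simp
  linear_combination (-32 : ℝ) * h6

lemma Tm_hasFDerivAt {w : V} (hw : w ∈ W) : HasFDerivAt Tm
    ((1 / (2 * Ham w)) • dJf w - (Jf w / (2 * Ham w ^ 2)) • dHam w) w := by
  have h1 : HasFDerivAt (fun w : V => (2 * Ham w)⁻¹) _ w :=
    (hasDerivAt_inv (mul_ne_zero two_ne_zero hw.2)).comp_hasFDerivAt w
      ((Ham_hasFDerivAt hw.1).const_mul 2)
  have h2 : HasFDerivAt (fun w : V => Jf w * (2 * Ham w)⁻¹) _ w := (Jf_hasFDerivAt w).mul h1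
  have he : Tm = fun w : V => Jf w * (2 * Ham w)⁻¹ := by
    funext w
    unfold Tm
    rw [div_eq_mul_inv]
  rw [he]
  refine h2.congr_fderiv (ContinuousLinearMap.ext fun v => ?_)
  have h3 := hw.2
  simp
  field_simp
  ring

theorem t_field : S_field := by
  refine ⟨isOpen_Wq, isOpen_W, XH_cd, Ham_cd, Tm_cd, fun w hw => ⟨?_, ?_, ?_⟩, fun w hw => ?_,
    fun F w hw => ?_, fun F w => ?_, fun w hw => ?_⟩
  · rw [(Ham_hasFDerivAt hw).fderiv, dHam_XH]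
  · rw [(pth_hasFDerivAt w).fderiv, dpth_XH]
  · rw [(Jf_hasFDerivAt w).fderiv, dJf_XH hw]
  · rw [(Tm_hasFDerivAt hw).fderiv, sub_apply, smul_apply,
      smul_apply, dHam_XH, dJf_XH hw.1, smul_zero, sub_zero, smul_eq_mul]
    have h3 := hw.2
    field_simp
  · obtain ⟨h0, h1, h2, h3, h4, h5⟩ := pd_Ham hw
    rw [PB, h0, h1, h2, h3, h4, h5, fderiv_sum F w (XH w)]
    ring
  · obtain ⟨h0, h1, h2, h3, h4, h5⟩ := pd_pth w
    rw [PB, h0, h1, h2, h3, h4, h5, fderiv_sum F w (Xth w)]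
    simp [Xth]
    ring
  · rw [(Ham_hasFDerivAt hw).fderiv, dHam_Xth]

end Pool.Agent.R963.KH
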