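import Pool.Agent.R963.KH.Stm

open scoped ContDiff Topology
open Set Filter

namespace Pool.Agent.R963.KH

noncomputable section

set_option maxHeartbeats 400000

theorem mk_FD (hf : S_field) (h1 : S_comp) (h2 : S_flow) : Nonempty FD := by
  obtain ⟨hWq, -, hX, -⟩ := hf
  obtain ⟨f, fs, fn, fp, Ys, Yl⟩ := h1 Wq XH hWq hX
  obtain ⟨Ψ, hs, h0, ha, hd⟩ := h2 _ Ys Yl
  exact ⟨⟨f, Ψ, fs, fn, fp, Ys, Yl, hs, h0, ha, hd⟩⟩

lemma pth_cont : Continuous pth := by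
  unfold pth; fun_prop

lemma pth_smooth : ContDiff ℝ ∞ pth := by
  unfold pth
  fun_prop

/-- points with `pth ≠ 0` and `z ≠ 0` are dense -/
lemma exists_good_point (O : Set V) (hO : IsOpen O) (hne : O.Nonempty) :
    ∃ w ∈ O, pth w ≠ 0 ∧ w 2 ≠ 0 := by
  obtain ⟨w, hw⟩ := hne
  -- perturb: w + s • u for suitable u, polynomial in s
  -- first make x ≠ 0, then z ≠ 0, then adjust py
  have key : ∀ (w : V) (i : Fin 6), w ∈ O → ∀ c : ℝ, ∃ w' ∈ O, w' i ≠ c ∧ ∀ j, j ≠ i → w' j = w j := by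
    intro w i hw c
    have hcont : Continuous (fun s : ℝ => w + s • (Pi.single i (1 : ℝ) : V)) := by fun_prop
    have hmem : ∀ᶠ s : ℝ in 𝓝 0, w + s • (Pi.single i (1 : ℝ) : V) ∈ O :=
      hcont.continuousAt.eventually (hO.mem_nhds (by simpa using hw))
    have hne : ∃ᶠ s : ℝ in 𝓝 0, s ≠ 0 ∧ s ≠ c - w i := by
      rw [Filter.frequently_iff]
      intro U hU
      obtain ⟨ε, hε, hb⟩ := Metric.mem_nhds_iff.mp hU
      by_cases h : c - w i = ε / 2
      · refine ⟨ε / 4, hb ?_, ?_, ?_⟩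
        · simp [abs_of_pos hε]; linarith
        · positivity
        · rw [h]; intro h'; linarith
      · refine ⟨ε / 2, hb ?_, ?_, ?_⟩
        · simp [abs_of_pos hε]; linarith
        · positivity
        · intro h'; exact h h'.symm
    obtain ⟨s, ⟨-, hs2⟩, hs3⟩ := (hne.and_eventually hmem).exists
    refine ⟨w + s • (Pi.single i (1 : ℝ) : V), hs3, ?_, ?_⟩
    · simp
      intro h
      apply hs2
      linarith
    · intro j hj
      simp [Pi.single_apply, hj]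
  obtain ⟨w1, hw1, h1, e1⟩ := key w 0 hw 0
  obtain ⟨w2, hw2, h2, e2⟩ := key w1 2 hw1 0
  obtain ⟨w3, hw3, h3, e3⟩ := key w2 4 hw2 (w2 1 * w2 3 / w2 0)
  refine ⟨w3, hw3, ?_, ?_⟩
  · have h0 : w2 0 ≠ 0 := by rw [e2 0 (by decide)]; exact h1
    unfold pth
    rw [e3 0 (by decide), e3 1 (by decide), e3 3 (by decide)]
    intro h
    apply h3
    field_simp
    linarith
  · rw [e3 2 (by decide)]; exact h2

lemma li_three {a b c : V →L[ℝ] ℝ} (h : LinearIndependent ℝ ![a, b]) (v : V) (h1 : a v = 0)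
    (h2 : b v = 0) (h3 : c v ≠ 0) : LinearIndependent ℝ ![a, b, c] := by
  rw [LinearIndependent.pair_iff] at h
  rw [Fintype.linearIndependent_iff]
  intro g hg
  simp only [Fin.sum_univ_three, Matrix.cons_val_zero, Matrix.cons_val_one, Matrix.cons_val] at hg
  have e := congrArg (fun L : V →L[ℝ] ℝ => L v) hg
  simp only [ContinuousLinearMap.add_apply, ContinuousLinearMap.smul_apply, h1, h2, smul_eq_mul,
    mul_zero, zero_add, ContinuousLinearMap.zero_apply] at e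
  have g2 : g 2 = 0 := by
    rcases mul_eq_zero.mp e with h' | h'
    · exact h'
    · exact absurd h' h3
  rw [g2, zero_smul, add_zero] at hg
  obtain ⟨g0, g1⟩ := h _ _ hg
  intro i
  fin_cases i
  · exact g0
  · exact g1
  · exact g2

theorem loc (hf : S_field) (hD : Nonempty FD) (hg : S_good) (he : S_ext) (hb : S_bump)
    (hi : S_ind) (O : Set V) (hO : IsOpen O) (hne : O.Nonempty) (hOW : O ⊆ W) :
    ∃ F : V → ℝ, ContDiffOn ℝ ∞ F W ∧
    (∀ w ∈ W, fderiv ℝ F w (XH w) = 0 ∧ fderiv ℝ F w (Xth w) = 0) ∧ ∃ w ∈ O,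
      LinearIndependent ℝ ![fderiv ℝ Ham w, fderiv ℝ pth w, fderiv ℝ F w] := by
  obtain ⟨D⟩ := hD
  obtain ⟨G, hGo, hGW, hGd, hGH, hGR⟩ := hg D
  have hne2 : (O ∩ G).Nonempty := by
    obtain ⟨w, hw⟩ := hne
    have := hGd (hOW hw)
    rw [mem_closure_iff] at this
    exact this O hO hw
  obtain ⟨w₀, ⟨hw0, hwG⟩, hp, hz⟩ := exists_good_point (O ∩ G) (hO.inter hGo) hne2
  have hwW : w₀ ∈ W := hOW hw0
  obtain ⟨h, hs, hc, hsup, hinv, v, v1, v2, v3, v4⟩ :=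
    hb w₀ G hwW hp hz hGo hwG (fun θ w hw => hGR θ w hw)
  obtain ⟨F1, F2, F3, F4⟩ := he D h (Tm w₀) hs hc (fun u hu => ⟨hGW (hsup hu), hGH u (hsup hu)⟩) hinv
  refine ⟨Fh D (Tm w₀) h, F1, fun w hw => ⟨F2 w hw, F3 w hw⟩, w₀, hw0, ?_⟩
  have hdF := F4 w₀ hwW rfl v v3
  have hind := hi w₀ hwW.1 hp hz
  exact li_three hind v v1 v2 (by rw [hdF]; exact v4)

theorem final (hf : S_field) (h1 : S_comp) (h2 : S_flow) (hg : S_good) (he : S_ext)
    (hb : S_bump) (hi : S_ind) (hsum : S_sum) : S_final := by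
  have hD := mk_FD hf h1 h2
  have hWo : IsOpen W := hf.2.1
  have hWq : W ⊆ Wq := fun w hw => hw.1
  obtain ⟨F, F1, F2, G, G1, G2, G3, G4⟩ := hsum Ham pth XH Xth W hWo (hf.2.2.2.1.mono hWq)
    pth_smooth.contDiffOn (fun O hO hne hOW => loc hf hD hg he hb hi O hO hne hOW)
  obtain ⟨-, -, -, -, -, hc, -, hPH, hPp, -⟩ := hf
  refine ⟨F, F1, fun w hw => ⟨?_, ?_, ?_⟩, G, G1, G2, G3, G4⟩
  · rw [hPH F w (hWq hw)]; exact (F2 w hw).1
  · rw [hPp F w]; exact (F2 w hw).2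
  · rw [hPH pth w (hWq hw)]; exact (hc w (hWq hw)).2.1

end

end Pool.Agent.R963.KH
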