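import Pool.Agent.R963.KH.Stm
import Pool.Agent.GR.Flow

set_option autoImplicit false
set_option maxHeartbeats 400000

open scoped ContDiff Topology
open Set Filter

namespace Pool.Agent.R963.KH

namespace FlowAux

/-- projection to the cube -/
noncomputable def cl (R : ℝ) (y : V) : V := fun i => max (-R) (min R (y i))

theorem cl_lip (R : ℝ) : LipschitzWith 1 (cl R) := by
  refine LipschitzWith.of_dist_le_mul fun x y => ?_
  rw [NNReal.coe_one, one_mul, dist_pi_le_iff dist_nonneg]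
  intro i
  refine le_trans ?_ (dist_le_pi_dist x y i)
  rw [Real.dist_eq, Real.dist_eq]
  unfold cl
  have h1 := abs_max_sub_max_le_max (-R) (min R (x i)) (-R) (min R (y i))
  have h2 := abs_min_sub_min_le_max R (x i) R (y i)
  rw [sub_self, abs_zero, max_eq_right (abs_nonneg (min R (x i) - min R (y i)))] at h1
  rw [sub_self, abs_zero, max_eq_right (abs_nonneg (x i - y i))] at h2
  exact h1.trans h2

theorem cl_norm {R : ℝ} (hR : 0 ≤ R) (y : V) : ‖cl R y‖ ≤ ‖y‖ := by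
  rw [pi_norm_le_iff_of_nonneg (norm_nonneg _)]
  intro i
  refine le_trans ?_ (norm_le_pi_norm y i)
  rw [Real.norm_eq_abs, Real.norm_eq_abs]
  unfold cl
  rw [abs_le]
  have h1 := neg_abs_le (y i)
  have h2 := le_abs_self (y i)
  have h3 := abs_nonneg (y i)
  constructor
  · rcases le_total R (y i) with h | h
    · rw [min_eq_left h]; exact le_max_of_le_right (by linarith)
    · rw [min_eq_right h]; exact le_max_of_le_right h1
  · exact max_le (by linarith) ((min_le_right _ _).trans h2)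

theorem cl_norm_le {R : ℝ} (hR : 0 ≤ R) (y : V) : ‖cl R y‖ ≤ R := by
  rw [pi_norm_le_iff_of_nonneg hR]
  intro i
  rw [Real.norm_eq_abs]
  unfold cl
  rw [abs_le]
  exact ⟨le_max_left _ _, max_le (by linarith) (min_le_left _ _)⟩

theorem cl_eq {R : ℝ} {y : V} (h : ‖y‖ ≤ R) : cl R y = y := by
  funext i
  have h1 := (norm_le_pi_norm y i).trans h
  rw [Real.norm_eq_abs, abs_le] at h1
  unfold cl
  rw [min_eq_right h1.2, max_eq_right h1.1]

theorem lin_bound {Y : V → V} {K : NNReal} (hK : LipschitzWith K Y) (y : V) :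
    ‖Y y‖ ≤ K * ‖y‖ + ‖Y 0‖ := by
  have h1 := hK.dist_le_mul y 0
  rw [dist_eq_norm, dist_zero_right] at h1
  have h2 : ‖Y y‖ ≤ ‖Y y - Y 0‖ + ‖Y 0‖ := by
    have := norm_add_le (Y y - Y 0) (Y 0)
    rwa [sub_add_cancel] at this
  linarith

/-- Grönwall -/
theorem gron {Z : V → V} {K c : ℝ} (hZ : ∀ y, ‖Z y‖ ≤ K * ‖y‖ + c) {γ : ℝ → V}
    (hγ : ∀ t, HasDerivAt γ (Z (γ t)) t) (T : ℝ) (t : ℝ) (ht : |t| ≤ T) :
    ‖γ t‖ ≤ gronwallBound ‖γ 0‖ K c |t| := by
  have hc : Continuous γ := continuous_iff_continuousAt.2 fun t => (hγ t).continuousAt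
  rcases le_total 0 t with h | h
  · rw [abs_of_nonneg h] at ht ⊢
    have := norm_le_gronwallBound_of_norm_deriv_right_le (f := γ) (f' := fun t => Z (γ t))
      (δ := ‖γ 0‖) (K := K) (ε := c) (a := 0) (b := T) hc.continuousOn
      (fun x _ => (hγ x).hasDerivWithinAt) le_rfl (fun x _ => hZ _) t ⟨h, ht⟩
    rwa [sub_zero] at this
  · rw [abs_of_nonpos h] at ht ⊢
    have hd : ∀ s, HasDerivAt (fun s => γ (-s)) (-Z (γ (-s))) s := by
      intro s
      have h1 := (hγ (-s)).scomp s (hasDerivAt_neg s)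
      rw [neg_one_smul] at h1
      exact h1
    have := norm_le_gronwallBound_of_norm_deriv_right_le (f := fun s => γ (-s))
      (f' := fun s => -Z (γ (-s)))
      (δ := ‖γ 0‖) (K := K) (ε := c) (a := 0) (b := T) (hc.comp continuous_neg).continuousOn
      (fun x _ => (hd x).hasDerivWithinAt) (by simp) (fun x _ => by rw [norm_neg]; exact hZ _)
      (-t) ⟨by linarith, ht⟩
    rw [sub_zero] at this
    simpa using this

theorem exists_Ioo {Y : V → V} {K : NNReal} (hK : LipschitzWith K Y) (x : V) (n : ℕ) :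
    ∃ γ : ℝ → V, γ 0 = x ∧ ∀ t ∈ Ioo (-((n : ℝ) + 1)) ((n : ℝ) + 1),
      HasDerivAt γ (Y (γ t)) t := by
  have hgc : Continuous (gronwallBound ‖x‖ K ‖Y 0‖) :=
    continuous_iff_continuousAt.2 fun t => (hasDerivAt_gronwallBound _ _ _ t).continuousAt
  obtain ⟨R, hR⟩ := (isCompact_Icc (a := (0 : ℝ)) (b := (n : ℝ) + 1)).exists_bound_of_continuousOn
    hgc.continuousOn
  have hR0 : 0 ≤ R := (norm_nonneg _).trans (hR 0 ⟨le_rfl, by positivity⟩)
  set Z : V → V := fun y => Y (cl R y) with hZ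
  have hZl : LipschitzWith K Z := by
    have := hK.comp (cl_lip R)
    rwa [mul_one] at this
  have hZb : ∀ y, ‖Z y‖ ≤ ((K * R.toNNReal + ‖Y 0‖₊ : NNReal) : ℝ) := by
    intro y
    push_cast
    rw [Real.coe_toNNReal R hR0]
    refine (lin_bound hK _).trans ?_
    have := mul_le_mul_of_nonneg_left (cl_norm_le hR0 y) K.2
    have h2 : (K : ℝ) * ‖cl R y‖ ≤ K * R := this
    linarith
  obtain ⟨γ, h0, hγ⟩ := Pool.Agent.GR.Flow.exists_solution hZl hZb x
  refine ⟨γ, h0, fun t ht => ?_⟩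
  have hZ2 : ∀ y, ‖Z y‖ ≤ K * ‖y‖ + ‖Y 0‖ := by
    intro y
    refine (lin_bound hK _).trans ?_
    have h2 : (K : ℝ) * ‖cl R y‖ ≤ K * ‖y‖ := mul_le_mul_of_nonneg_left (cl_norm hR0 y) K.2
    linarith
  have ht' : |t| ≤ (n : ℝ) + 1 := (abs_lt.2 ht).le
  have h1 := gron hZ2 hγ _ t ht'
  rw [h0] at h1
  have h2 := hR |t| ⟨abs_nonneg t, ht'⟩
  have h3 : ‖γ t‖ ≤ R := h1.trans ((le_abs_self _).trans h2)
  have h4 := hγ t
  rw [hZ] at h4
  simp only [cl_eq h3] at h4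
  exact h4

theorem exists_sol {Y : V → V} {K : NNReal} (hK : LipschitzWith K Y) (x : V) :
    ∃ γ : ℝ → V, γ 0 = x ∧ ∀ t, HasDerivAt γ (Y (γ t)) t := by
  choose γ h0 h1 using exists_Ioo hK x
  have hun : ∀ n k : ℕ, n ≤ k → EqOn (γ n) (γ k) (Ioo (-((n : ℝ) + 1)) ((n : ℝ) + 1)) := by
    intro n k hnk
    have hnk' : (n : ℝ) ≤ k := by exact_mod_cast hnk
    have hn : (0 : ℝ) ≤ n := n.cast_nonneg
    refine ODE_solution_unique_of_mem_Ioo (v := fun _ => Y) (s := fun _ => univ) (K := K) (t₀ := 0)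
      (fun t _ => hK.lipschitzOnWith) ⟨by linarith, by linarith⟩
      (fun t ht => ⟨h1 n t ht, trivial⟩) (fun t ht => ⟨h1 k t ⟨?_, ?_⟩, trivial⟩) ?_
    · linarith [ht.1]
    · linarith [ht.2]
    · rw [h0, h0]
  refine ⟨fun t => γ ⌈|t|⌉₊ t, ?_, ?_⟩
  · simp only; rw [h0]
  · intro t
    set N : ℕ := ⌈|t|⌉₊ + 1 with hN
    have hval : ∀ s : ℝ, |s| < |t| + 1 → γ ⌈|s|⌉₊ s = γ N s := by
      intro s hs
      have h2 : ⌈|s|⌉₊ ≤ N := by
        have h3 : |s| ≤ ((⌈|t|⌉₊ + 1 : ℕ) : ℝ) := by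
          push_cast
          linarith [Nat.le_ceil |t|]
        exact Nat.ceil_le.2 h3
      refine hun _ _ h2 ?_
      have h3 := Nat.le_ceil |s|
      exact abs_lt.1 (by linarith : |s| < (⌈|s|⌉₊ : ℝ) + 1)
    have h3 : HasDerivAt (γ N) (Y (γ N t)) t := by
      apply h1
      have h4 := Nat.le_ceil |t|
      refine abs_lt.1 ?_
      rw [hN]; push_cast
      linarith
    have h4 : (fun s => γ ⌈|s|⌉₊ s) =ᶠ[𝓝 t] γ N := by
      have : ∀ᶠ s in 𝓝 t, |s| < |t| + 1 :=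
        (continuous_abs.tendsto t).eventually (gt_mem_nhds (by linarith))
      exact this.mono hval
    change HasDerivAt _ (Y (γ ⌈|t|⌉₊ t)) t
    rw [hval t (by linarith)]
    exact h3.congr_of_eventuallyEq h4

end FlowAux

open FlowAux in
theorem t_flow : S_flow := by
  intro Y hY ⟨K, hK⟩
  choose g hg0 hgd using exists_sol hK
  set Ψ : ℝ → V → V := fun t w => g w t with hΨ
  have hfl : Pool.Agent.GR.Flow.IsFlowOf Y Ψ := ⟨fun x => hg0 x, fun x t => hgd x t⟩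
  have hfl' : Pool.Agent.GR.Flow.IsFlowOf (⟨Y, hY.continuous⟩ : C(V, V)) Ψ := hfl
  refine ⟨Ψ, ?_, fun w => hg0 w, fun s t w => hfl.add hK s t w, fun w τ => hgd w τ⟩
  rw [contDiff_infty]
  intro n
  have h1 : ContDiff ℝ ((n + 1 : ℕ) : WithTop ℕ∞) (fun q : ℝ × V => Ψ q.1 q.2) :=
    Pool.Agent.GR.Flow.contDiff_flow (X := (⟨Y, hY.continuous⟩ : C(V, V))) (Nat.succ_ne_zero n)
      (contDiff_infty.1 hY (n + 1)) hK hfl'
  exact h1.of_le (by exact_mod_cast Nat.le_succ n)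

end Pool.Agent.R963.KH
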