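import Pool.Agent.R963.KH.Stm

/-!
KH-12 (helper718): the separated orbits contain an open dense set.
-/

set_option autoImplicit false
set_option maxHeartbeats 400000

open scoped ContDiff Topology
open Set Filter

namespace Pool.Agent.R963.KH

namespace Gd

theorem rot_add (a b : ℝ) (w : V) : Rot (a + b) w = Rot a (Rot b w) := by
  ext i
  fin_cases i
  · show Real.cos (a + b) * w 0 - Real.sin (a + b) * w 1 =
      Real.cos a * (Real.cos b * w 0 - Real.sin b * w 1) -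
        Real.sin a * (Real.sin b * w 0 + Real.cos b * w 1)
    rw [Real.cos_add, Real.sin_add]; ring
  · show Real.sin (a + b) * w 0 + Real.cos (a + b) * w 1 =
      Real.sin a * (Real.cos b * w 0 - Real.sin b * w 1) +
        Real.cos a * (Real.sin b * w 0 + Real.cos b * w 1)
    rw [Real.cos_add, Real.sin_add]; ring
  · rfl
  · show Real.cos (a + b) * w 3 - Real.sin (a + b) * w 4 =
      Real.cos a * (Real.cos b * w 3 - Real.sin b * w 4) -
        Real.sin a * (Real.sin b * w 3 + Real.cos b * w 4)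
    rw [Real.cos_add, Real.sin_add]; ring
  · show Real.sin (a + b) * w 3 + Real.cos (a + b) * w 4 =
      Real.sin a * (Real.cos b * w 3 - Real.sin b * w 4) +
        Real.cos a * (Real.sin b * w 3 + Real.cos b * w 4)
    rw [Real.cos_add, Real.sin_add]; ring
  · rfl

theorem rot_zero (w : V) : Rot 0 w = w := by
  ext i
  fin_cases i
  · show Real.cos 0 * w 0 - Real.sin 0 * w 1 = w 0
    rw [Real.cos_zero, Real.sin_zero]; ring
  · show Real.sin 0 * w 0 + Real.cos 0 * w 1 = w 1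
    rw [Real.cos_zero, Real.sin_zero]; ring
  · rfl
  · show Real.cos 0 * w 3 - Real.sin 0 * w 4 = w 3
    rw [Real.cos_zero, Real.sin_zero]; ring
  · show Real.sin 0 * w 3 + Real.cos 0 * w 4 = w 4
    rw [Real.cos_zero, Real.sin_zero]; ring
  · rfl

theorem rot_neg (a : ℝ) (w : V) : Rot (-a) (Rot a w) = w := by
  rw [← rot_add, neg_add_cancel, rot_zero]

theorem rot_neg' (a : ℝ) (w : V) : Rot a (Rot (-a) w) = w := by
  rw [← rot_add, add_neg_cancel, rot_zero]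

theorem rev_rev (w : V) : Rev (Rev w) = w := by
  ext i
  fin_cases i
  · rfl
  · rfl
  · rfl
  · exact neg_neg (w 3)
  · exact neg_neg (w 4)
  · exact neg_neg (w 5)

theorem rot_cont (a : ℝ) : Continuous (Rot a) := by
  refine continuous_pi fun i => ?_
  fin_cases i
  · show Continuous fun w : V => Real.cos a * w 0 - Real.sin a * w 1
    fun_prop
  · show Continuous fun w : V => Real.sin a * w 0 + Real.cos a * w 1
    fun_prop
  · show Continuous fun w : V => w 2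
    fun_prop
  · show Continuous fun w : V => Real.cos a * w 3 - Real.sin a * w 4
    fun_prop
  · show Continuous fun w : V => Real.sin a * w 3 + Real.cos a * w 4
    fun_prop
  · show Continuous fun w : V => w 5
    fun_prop

theorem rev_cont : Continuous Rev := by
  refine continuous_pi fun i => ?_
  fin_cases i
  · show Continuous fun w : V => w 0
    fun_prop
  · show Continuous fun w : V => w 1
    fun_prop
  · show Continuous fun w : V => w 2
    fun_prop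
  · show Continuous fun w : V => - w 3
    fun_prop
  · show Continuous fun w : V => - w 4
    fun_prop
  · show Continuous fun w : V => - w 5
    fun_prop

theorem pth_cont : Continuous pth := by
  unfold pth
  fun_prop

/-- dense in `W` -/
def DW (G : Set V) : Prop := ∀ O : Set V, IsOpen O → ∀ w ∈ O, w ∈ W → ∃ w' ∈ O, w' ∈ G

theorem dense_pth (hW : IsOpen W) : DW {w | w ∈ W ∧ pth w ≠ 0} := by
  intro O hO w hwO hwW
  by_cases h0 : pth w ≠ 0
  · exact ⟨w, hwO, hwW, h0⟩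
  push Not at h0
  set v : V := ![1, 0, 0, 0, 1, 0] with hv
  set γ : ℝ → V := fun s => w + s • v with hγ
  have hγc : Continuous γ := by fun_prop
  have hγ0 : γ 0 = w := by simp [hγ]
  have hopen : IsOpen (γ ⁻¹' (O ∩ W)) := (hO.inter hW).preimage hγc
  have hne : (γ ⁻¹' (O ∩ W)).Nonempty := ⟨0, by
    show γ 0 ∈ O ∩ W
    rw [hγ0]; exact ⟨hwO, hwW⟩⟩
  have hd : Dense (({0, -(w 0 + w 4)} : Set ℝ)ᶜ) := (Set.toFinite _).countable.dense_compl ℝ
  obtain ⟨s, hs1, hs2⟩ := hd.inter_open_nonempty _ hopen hne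
  refine ⟨γ s, hs1.1, hs1.2, ?_⟩
  have c0 : γ s 0 = w 0 + s * 1 := rfl
  have c1 : γ s 1 = w 1 + s * 0 := rfl
  have c3 : γ s 3 = w 3 + s * 0 := rfl
  have c4 : γ s 4 = w 4 + s * 1 := rfl
  have e : pth (γ s) = pth w + s * (w 0 + w 4 + s) := by
    unfold pth
    rw [c0, c1, c3, c4]
    ring
  rw [e, h0, zero_add]
  have h1 : s ≠ 0 := fun h => hs2 (by simp [h])
  have h2 : w 0 + w 4 + s ≠ 0 := fun h => hs2 (by
    have : s = -(w 0 + w 4) := by linarith
    simp [this])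
  exact mul_ne_zero h1 h2

theorem dense_G1 (D : FD) (hW : IsOpen W) (hb : S_beta) :
    DW (interior {w | w ∈ W ∧ ContinuousWithinAt (bet D) W w}) := by
  intro O hO w hwO hwW
  obtain ⟨w1, hw1O, hw1W, hw1p⟩ := dense_pth hW O hO w hwO hwW
  have hW' : IsOpen {w | w ∈ W ∧ pth w ≠ 0} :=
    hW.inter (isOpen_ne.preimage pth_cont)
  have hO' : IsOpen (O ∩ {w | w ∈ W ∧ pth w ≠ 0}) := hO.inter hW'
  by_cases hex : ∃ w2 ∈ O ∩ {w | w ∈ W ∧ pth w ≠ 0}, bet D w2 ≠ 0
  · obtain ⟨w2, hw2, hne⟩ := hex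
    refine ⟨w2, hw2.1, ?_⟩
    have hc := hb D w2 hw2.2.1 hw2.2.2 hne
    have hc' : ContinuousAt (bet D) w2 := hc.continuousAt (hW.mem_nhds hw2.2.1)
    have h1 : ∀ᶠ z in 𝓝 w2, bet D z ≠ 0 := hc'.eventually_ne hne
    rw [mem_interior_iff_mem_nhds]
    filter_upwards [h1, hO'.mem_nhds hw2] with z hz1 hz2
    exact ⟨hz2.2.1, hb D z hz2.2.1 hz2.2.2 hz1⟩
  · push Not at hex
    refine ⟨w1, hw1O, ?_⟩
    rw [mem_interior_iff_mem_nhds]
    filter_upwards [hO'.mem_nhds (⟨hw1O, hw1W, hw1p⟩ : w1 ∈ O ∩ {w | w ∈ W ∧ pth w ≠ 0})] with z hz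
    refine ⟨hz.2.1, ?_⟩
    have : bet D =ᶠ[𝓝 z] fun _ => (0 : EReal) := by
      filter_upwards [hO'.mem_nhds hz] with y hy
      exact hex y hy
    exact (continuousAt_const.congr this.symm).continuousWithinAt

theorem alp_eq (D : FD) (hp : S_prop) (hs : S_sym) (w : V) (hw : w ∈ W) :
    alp D w = - bet D (Rev w) := by
  obtain ⟨-, -, K, hK, hKe⟩ := (hs D).2 w hw
  have key : ∀ τ, Tm (D.Ψ (K τ) (Rev w)) = - Tm (D.Ψ τ w) := by
    intro τ
    rw [← hKe τ]
    exact ((hs D).2 (D.Ψ τ w) (hp D w hw τ).1).2.1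
  apply le_antisymm
  · rw [EReal.le_neg]
    unfold bet
    refine iSup_le fun τ => ?_
    obtain ⟨τ', rfl⟩ := hK τ
    rw [key, EReal.le_neg, EReal.coe_neg, neg_neg]
    exact iInf_le _ τ'
  · unfold alp
    refine le_iInf fun τ => ?_
    rw [EReal.neg_le]
    have := key τ
    have h1 : ((Tm (D.Ψ (K τ) (Rev w)) : ℝ) : EReal) ≤ bet D (Rev w) :=
      le_iSup (fun τ => ((Tm (D.Ψ τ (Rev w)) : ℝ) : EReal)) (K τ)
    rwa [this, EReal.coe_neg] at h1

theorem hg_rot (D : FD) (hs : S_sym) (u : V) (hu : u ∈ W) (h : HG D u) (θ : ℝ) :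
    HG D (Rot θ u) := by
  intro v τ w hv hvt hw hlim
  have hsm := (hs D).1
  have hK : ∀ n, ∃ k : ℝ, Rot (-θ) (D.Ψ (τ n) (v n)) = D.Ψ k (Rot (-θ) (v n)) := by
    intro n
    obtain ⟨-, -, K, -, hKe⟩ := hsm (-θ) (v n) (hv n)
    exact ⟨K (τ n), hKe (τ n)⟩
  choose k hk using hK
  have h1 : Tendsto (fun n => Rot (-θ) (v n)) atTop (𝓝 u) := by
    have := ((rot_cont (-θ)).tendsto (Rot θ u)).comp hvt
    rwa [rot_neg] at this
  have h2 : Tendsto (fun n => D.Ψ (k n) (Rot (-θ) (v n))) atTop (𝓝 (Rot (-θ) w)) := by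
    have := ((rot_cont (-θ)).tendsto w).comp hlim
    refine this.congr fun n => ?_
    exact hk n
  obtain ⟨σ, hσ⟩ := h (fun n => Rot (-θ) (v n)) k (Rot (-θ) w) (fun n => (hsm (-θ) (v n) (hv n)).1)
    h1 (hsm (-θ) w hw).1 h2
  obtain ⟨-, -, K, -, hKe⟩ := hsm θ u hu
  refine ⟨K σ, ?_⟩
  rw [← hKe, hσ, rot_neg']

end Gd

open Gd in
theorem t_good (hf : S_field) (hp : S_prop) (hs : S_sym) (hh : S_haus) (hb : S_beta) : S_good := by
  intro D
  have hW : IsOpen W := hf.2.1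
  set G1 : Set V := interior {w | w ∈ W ∧ ContinuousWithinAt (bet D) W w} with hG1
  have hG1d : DW G1 := dense_G1 D hW hb
  have hG1s : ∀ w ∈ G1, w ∈ W ∧ ContinuousWithinAt (bet D) W w := fun w hw =>
    (show w ∈ {w | w ∈ W ∧ ContinuousWithinAt (bet D) W w} from interior_subset hw)
  set G0 : Set V := G1 ∩ (W ∩ Rev ⁻¹' G1) with hG0
  have hG0o : IsOpen G0 := isOpen_interior.inter (hW.inter (isOpen_interior.preimage rev_cont))
  have hRevW : ∀ w ∈ W, Rev w ∈ W := fun w hw => ((hs D).2 w hw).1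
  have hG2d : DW (W ∩ Rev ⁻¹' G1) := by
    intro O hO w hwO hwW
    obtain ⟨w1, hw1, hw1G⟩ := hG1d (Rev ⁻¹' O ∩ W) ((hO.preimage rev_cont).inter hW) (Rev w)
      ⟨by show Rev (Rev w) ∈ O; rw [rev_rev]; exact hwO, hRevW w hwW⟩ (hRevW w hwW)
    refine ⟨Rev w1, hw1.1, hRevW w1 hw1.2, ?_⟩
    show Rev (Rev w1) ∈ G1
    rw [rev_rev]
    exact hw1G
  have hG0d : DW G0 := by
    intro O hO w hwO hwW
    obtain ⟨w1, hw1O, hw1G⟩ := hG1d O hO w hwO hwW
    obtain ⟨w2, hw2, hw2G⟩ := hG2d (O ∩ G1) (hO.inter isOpen_interior) w1 ⟨hw1O, hw1G⟩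
      (hG1s w1 hw1G).1
    exact ⟨w2, hw2.1, hw2.2, hw2G⟩
  have hG0h : ∀ u ∈ G0, HG D u := by
    intro u hu
    have huW : u ∈ W := hu.2.1
    refine hh D u huW (hG1s u hu.1).2 ?_
    have h1 : ContinuousWithinAt (bet D) W (Rev u) := (hG1s _ hu.2.2).2
    have h2 : ContinuousWithinAt (fun w => bet D (Rev w)) W u :=
      h1.comp rev_cont.continuousWithinAt (fun w hw => hRevW w hw)
    have h3 : ContinuousWithinAt (fun w => - bet D (Rev w)) W u :=
      h2.neg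
    exact h3.congr (fun w hw => alp_eq D hp hs w hw) (alp_eq D hp hs u huW)
  have hsm := (hs D).1
  refine ⟨⋃ θ : ℝ, Rot θ ⁻¹' G0, ?_, ?_, ?_, ?_, ?_⟩
  · exact isOpen_iUnion fun θ => hG0o.preimage (rot_cont θ)
  · intro u hu
    obtain ⟨θ, hθ⟩ := mem_iUnion.1 hu
    have h1 : Rot θ u ∈ W := hθ.2.1
    have h2 := (hsm (-θ) _ h1).1
    rwa [rot_neg] at h2
  · intro w hw
    rw [mem_closure_iff]
    intro O hO hwO
    obtain ⟨w', hw'O, hw'G⟩ := hG0d O hO w hwO hw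
    refine ⟨w', hw'O, mem_iUnion.2 ⟨0, ?_⟩⟩
    show Rot 0 w' ∈ G0
    rw [rot_zero]
    exact hw'G
  · intro u hu
    obtain ⟨θ, hθ⟩ := mem_iUnion.1 hu
    have h1 : Rot θ u ∈ W := hθ.2.1
    have h2 := hg_rot D hs (Rot θ u) h1 (hG0h _ hθ) (-θ)
    rwa [rot_neg] at h2
  · intro θ u hu
    obtain ⟨θ₀, hθ₀⟩ := mem_iUnion.1 hu
    refine mem_iUnion.2 ⟨θ₀ - θ, ?_⟩
    show Rot (θ₀ - θ) (Rot θ u) ∈ G0
    rw [← rot_add, sub_add_cancel]
    exact hθ₀

end Pool.Agent.R963.KH
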