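import Pool.Agent.R963.KH.Stm

/-!
# KH-6: continuity of `β` and `α` gives separated orbits
-/

set_option maxHeartbeats 400000

open scoped ContDiff Topology
open Set Filter

namespace Pool.Agent.R963.KH

theorem t_haus (hf : S_field) (hp : S_prop) : S_haus := by
  intro D u hu hbet halp v τ w hv hvu hw hlim
  -- monotonicity of the time function along orbits
  have hmono : ∀ x ∈ W, StrictMono fun τ => Tm (D.Ψ τ x) := by
    intro x hx
    refine strictMono_of_deriv_pos fun τ => ?_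
    have h := hp D x hx τ
    rw [h.2.2.2.1.deriv]
    exact h.2.2.2.2.2
  -- continuity of the time function on `W`
  have hTm : ∀ x ∈ W, ContinuousAt Tm x := fun x hx =>
    (hf.2.2.2.2.1.continuousOn.continuousAt (hf.2.1.mem_nhds hx))
  have hΨ : Continuous (fun q : ℝ × V => D.Ψ q.1 q.2) := D.Ψ_smooth.continuous
  have hΨs : ∀ σ : ℝ, Continuous fun x => D.Ψ σ x := fun σ =>
    hΨ.comp (by fun_prop : Continuous fun x : V => ((σ, x) : ℝ × V))
  have hTv : ∀ σ : ℝ, Tendsto (fun n => Tm (D.Ψ σ (v n))) atTop (𝓝 (Tm (D.Ψ σ u))) := by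
    intro σ
    exact (hTm _ (hp D u hu σ).1).tendsto.comp (((hΨs σ).tendsto u).comp hvu)
  have hTw : ∀ σ : ℝ, Tendsto (fun n => Tm (D.Ψ (σ + τ n) (v n))) atTop
      (𝓝 (Tm (D.Ψ σ w))) := by
    intro σ
    have h1 := (hTm _ (hp D w hw σ).1).tendsto.comp (((hΨs σ).tendsto w).comp hlim)
    refine h1.congr fun n => ?_
    change Tm (D.Ψ σ (D.Ψ (τ n) (v n))) = _
    rw [← D.Ψ_add]
  have hTw0 : Tendsto (fun n => Tm (D.Ψ (τ n) (v n))) atTop (𝓝 (Tm w)) :=
    (hTm w hw).tendsto.comp hlim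
  have hvW : Tendsto v atTop (𝓝[W] u) :=
    tendsto_nhdsWithin_iff.2 ⟨hvu, Eventually.of_forall hv⟩
  by_cases hA : ∃ B : ℝ, ∃ᶠ n in atTop, |τ n| ≤ B
  · obtain ⟨B, hB⟩ := hA
    obtain ⟨σ, -, φ, hφ, hσ⟩ := tendsto_subseq_of_frequently_bounded
      (s := Icc (-B) B) (Metric.isBounded_Icc _ _) (x := τ) (hB.mono fun n hn => abs_le.1 hn)
    refine ⟨σ, ?_⟩
    have h1 : Tendsto (fun n => D.Ψ (τ (φ n)) (v (φ n))) atTop (𝓝 (D.Ψ σ u)) :=
      (hΨ.tendsto (σ, u)).comp (hσ.prodMk_nhds (hvu.comp hφ.tendsto_atTop))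
    exact tendsto_nhds_unique h1 (hlim.comp hφ.tendsto_atTop)
  · exfalso
    have hB : ∀ B : ℝ, ∀ᶠ n in atTop, B < |τ n| := by
      intro B
      by_contra h
      refine hA ⟨B, ?_⟩
      rw [Filter.not_eventually] at h
      exact h.mono fun n hn => not_lt.1 hn
    by_cases hC : ∃ᶠ n in atTop, 0 ≤ τ n
    · -- towards `+∞`
      have h1 : ∀ σ : ℝ, Tm (D.Ψ σ u) ≤ Tm w := by
        intro σ
        refine le_of_tendsto_of_tendsto_of_frequently (hTv σ) hTw0 ?_
        refine (hC.and_eventually (hB |σ|)).mono fun n hn => ?_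
        have h2 : σ < τ n := by
          have := hn.2
          rw [abs_of_nonneg hn.1] at this
          exact (le_abs_self σ).trans_lt this
        exact ((hmono _ (hv n)) h2).le
      have h3 : bet D u ≤ ((Tm w : ℝ) : EReal) :=
        iSup_le fun σ => EReal.coe_le_coe_iff.2 (h1 σ)
      have h4 : ((Tm (D.Ψ 1 w) : ℝ) : EReal) ≤ bet D u := by
        refine le_of_tendsto_of_tendsto' ((continuous_coe_real_ereal.tendsto _).comp (hTw 1))
          (hbet.tendsto.comp hvW) fun n => ?_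
        exact le_iSup (fun τ : ℝ => ((Tm (D.Ψ τ (v n)) : ℝ) : EReal)) (1 + τ n)
      have h5 : Tm w < Tm (D.Ψ 1 w) := by
        have h6 := hmono w hw (zero_lt_one' ℝ)
        simp only [D.Ψ_zero] at h6
        exact h6
      exact absurd (EReal.coe_le_coe_iff.1 (h4.trans h3)) (not_le.2 h5)
    · -- towards `-∞`
      rw [Filter.not_frequently] at hC
      have h1 : ∀ σ : ℝ, Tm w ≤ Tm (D.Ψ σ u) := by
        intro σ
        refine le_of_tendsto_of_tendsto hTw0 (hTv σ) ?_
        filter_upwards [hC, hB |σ|] with n hn hn2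
        have h2 : τ n < σ := by
          rw [abs_of_neg (not_le.1 hn)] at hn2
          have := neg_abs_le σ
          linarith
        exact ((hmono _ (hv n)) h2).le
      have h3 : ((Tm w : ℝ) : EReal) ≤ alp D u :=
        le_iInf fun σ => EReal.coe_le_coe_iff.2 (h1 σ)
      have h4 : alp D u ≤ ((Tm (D.Ψ (-1) w) : ℝ) : EReal) := by
        refine le_of_tendsto_of_tendsto' (halp.tendsto.comp hvW)
          ((continuous_coe_real_ereal.tendsto _).comp (hTw (-1))) fun n => ?_
        exact iInf_le (fun τ : ℝ => ((Tm (D.Ψ τ (v n)) : ℝ) : EReal)) (-1 + τ n)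
      have h5 : Tm (D.Ψ (-1) w) < Tm w := by
        have h6 := hmono w hw (show (-1 : ℝ) < 0 by norm_num)
        simp only [D.Ψ_zero] at h6
        exact h6
      exact absurd (EReal.coe_le_coe_iff.1 (h3.trans h4)) (not_le.2 h5)

end Pool.Agent.R963.KH
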