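import Pool.Agent.R963.KH.Stm

set_option autoImplicit false
set_option maxHeartbeats 400000

open scoped ContDiff Topology
open Set Filter

namespace Pool.Agent.R963.KH

theorem t_ift (hf : S_field) (hp : S_prop) : S_ift := by
  intro D w τ₀ hw
  obtain ⟨_, hWo, _, _, hTm, _⟩ := hf
  obtain ⟨hΨW, _, _, hder, _, hfpos⟩ := hp D w hw τ₀
  set G : V × ℝ → ℝ := fun q => Tm (D.Ψ q.2 q.1) with hG
  have hΨs : ContDiff ℝ ∞ (fun q : V × ℝ => D.Ψ q.2 q.1) :=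
    D.Ψ_smooth.comp (contDiff_snd.prodMk contDiff_fst)
  have cdf : ContDiffAt ℝ ∞ G (w, τ₀) :=
    ContDiffAt.comp (w, τ₀) (hTm.contDiffAt (hWo.mem_nhds hΨW)) hΨs.contDiffAt
  have hne : (∞ : WithTop ℕ∞) ≠ 0 := by simp
  have hd : HasFDerivAt G (fderiv ℝ G (w, τ₀)) (w, τ₀) :=
    (cdf.differentiableAt hne).hasFDerivAt
  have hc : (fderiv ℝ G (w, τ₀)) (0, 1) = D.f (D.Ψ τ₀ w) := by
    have h1 : HasDerivAt (fun τ : ℝ => ((w, τ) : V × ℝ)) (0, 1) τ₀ :=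
      (hasDerivAt_const τ₀ w).prodMk (hasDerivAt_id τ₀)
    have h2 := hd.comp_hasDerivAt τ₀ h1
    exact h2.unique hder
  have hinv : (fderiv ℝ G (w, τ₀) ∘L .inr ℝ V ℝ).IsInvertible := by
    refine ⟨ContinuousLinearEquiv.unitsEquivAut ℝ (Units.mk0 _ hfpos.ne'), ?_⟩
    ext
    simp [hc]
  refine ⟨cdf.implicitFunction hne hinv, cdf.contDiffAt_implicitFunction hne hinv,
    cdf.implicitFunction_apply_self hne hinv, ?_⟩
  exact cdf.eventually_apply_implicitFunction hne hinv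

end Pool.Agent.R963.KH
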