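import Pool.Agent.R963.KH.Stm

set_option autoImplicit false
set_option maxHeartbeats 400000

open scoped ContDiff Topology
open Set Filter

namespace Pool.Agent.R963.KH

namespace IndAux

theorem fderiv_pth (w v : V) :
    fderiv ℝ pth w v = w 0 * v 4 + w 4 * v 0 - (w 1 * v 3 + w 3 * v 1) := by
  have h : HasFDerivAt pth _ w :=
    ((hasFDerivAt_apply (𝕜 := ℝ) (0 : Fin 6) w).mul (hasFDerivAt_apply (𝕜 := ℝ) (4 : Fin 6) w)).sub
      ((hasFDerivAt_apply (𝕜 := ℝ) (1 : Fin 6) w).mul (hasFDerivAt_apply (𝕜 := ℝ) (3 : Fin 6) w))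
  rw [h.fderiv]
  simp [smul_eq_mul]

theorem arg_pos {w : V} (hw : w ∈ Wq) : 0 < (w 0 ^ 2 + w 1 ^ 2) ^ 2 + 16 * w 2 ^ 2 := by
  by_contra h
  rw [not_lt] at h
  apply hw
  have h1 : w 2 ^ 2 = 0 := by nlinarith [sq_nonneg (w 0 ^ 2 + w 1 ^ 2), sq_nonneg (w 2)]
  have h2 : (w 0 ^ 2 + w 1 ^ 2) ^ 2 = 0 := by
    nlinarith [sq_nonneg (w 0 ^ 2 + w 1 ^ 2), sq_nonneg (w 2)]
  have h3 : w 0 ^ 2 + w 1 ^ 2 = 0 := by
    exact pow_eq_zero_iff (two_ne_zero) |>.1 h2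
  refine ⟨?_, ?_, pow_eq_zero_iff (two_ne_zero) |>.1 h1⟩
  · nlinarith [sq_nonneg (w 0), sq_nonneg (w 1)]
  · nlinarith [sq_nonneg (w 0), sq_nonneg (w 1)]

theorem diff_Ham {w : V} (hw : w ∈ Wq) : DifferentiableAt ℝ Ham w := by
  have h := arg_pos hw
  have h1 : (w 0 ^ 2 + w 1 ^ 2) ^ 2 + 16 * w 2 ^ 2 ≠ 0 := h.ne'
  have h2 : 8 * Real.pi * √((w 0 ^ 2 + w 1 ^ 2) ^ 2 + 16 * w 2 ^ 2) ≠ 0 := by
    have := Real.sqrt_pos.2 h
    positivity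
  have h3 : DifferentiableAt ℝ (fun w : V => (w 0 ^ 2 + w 1 ^ 2) ^ 2 + 16 * w 2 ^ 2) w := by
    fun_prop
  have h4 : DifferentiableAt ℝ
      (fun w : V => 8 * Real.pi * √((w 0 ^ 2 + w 1 ^ 2) ^ 2 + 16 * w 2 ^ 2)) w :=
    (h3.sqrt h1).const_mul _
  have h5 : DifferentiableAt ℝ
      (fun w : V => (8 * Real.pi * √((w 0 ^ 2 + w 1 ^ 2) ^ 2 + 16 * w 2 ^ 2))⁻¹) w :=
    (hasDerivAt_inv h2).differentiableAt.comp w h4
  have h6 : Ham = fun w : V => (1 / 2) * ((w 3 - (1 / 2) * w 1 * w 5) ^ 2 +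
      (w 4 + (1 / 2) * w 0 * w 5) ^ 2) -
      (8 * Real.pi * √((w 0 ^ 2 + w 1 ^ 2) ^ 2 + 16 * w 2 ^ 2))⁻¹ := by
    funext w
    unfold Ham
    rw [one_div (8 * Real.pi * _)]
  rw [h6]
  exact DifferentiableAt.sub (by fun_prop) h5

theorem fderiv_Ham_two {w : V} (hw : w ∈ Wq) :
    fderiv ℝ Ham w (Pi.single 2 1) =
      2 * w 2 / (Real.pi * √((w 0 ^ 2 + w 1 ^ 2) ^ 2 + 16 * w 2 ^ 2) ^ 3) := by
  have hpos := arg_pos hw
  have hd := (diff_Ham hw).hasFDerivAt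
  have hl : HasDerivAt (fun s : ℝ => w + s • (Pi.single 2 1 : V)) (Pi.single 2 1) 0 := by
    have h1 := ((hasDerivAt_id (0 : ℝ)).smul_const (Pi.single 2 1 : V)).const_add w
    rw [one_smul] at h1
    exact h1
  have h0 : w + (0 : ℝ) • (Pi.single 2 1 : V) = w := by simp
  have h1 : HasDerivAt (fun s : ℝ => Ham (w + s • (Pi.single 2 1 : V)))
      (fderiv ℝ Ham w (Pi.single 2 1)) 0 := by
    rw [← h0] at hd
    have := hd.comp_hasDerivAt (0 : ℝ) hl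
    rw [h0] at this
    exact this
  have h2 : (fun s : ℝ => Ham (w + s • (Pi.single 2 1 : V))) = fun s : ℝ =>
      (1 / 2) * ((w 3 - (1 / 2) * w 1 * w 5) ^ 2 + (w 4 + (1 / 2) * w 0 * w 5) ^ 2)
    - 1 / (8 * Real.pi * √((w 0 ^ 2 + w 1 ^ 2) ^ 2 + 16 * (w 2 + s) ^ 2)) := by
    funext s
    simp [Ham]
  have h3 : HasDerivAt (fun s : ℝ => (w 0 ^ 2 + w 1 ^ 2) ^ 2 + 16 * (w 2 + s) ^ 2)
      (32 * w 2) 0 := by
    have h4 := ((((hasDerivAt_id (0 : ℝ)).const_add (w 2)).pow 2).const_mul 16).const_add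
      ((w 0 ^ 2 + w 1 ^ 2) ^ 2)
    refine h4.congr_deriv ?_
    simp
    ring
  have hne : (w 0 ^ 2 + w 1 ^ 2) ^ 2 + 16 * (w 2 + 0) ^ 2 ≠ 0 := by
    rw [add_zero]; exact hpos.ne'
  have hs := Real.sqrt_pos.2 hpos
  have h5 := (h3.sqrt hne).const_mul (8 * Real.pi)
  have hne2 : 8 * Real.pi * √((w 0 ^ 2 + w 1 ^ 2) ^ 2 + 16 * (w 2 + 0) ^ 2) ≠ 0 := by
    rw [add_zero]; positivity
  have h6 := ((h5.inv hne2).neg).const_add
    ((1 / 2) * ((w 3 - (1 / 2) * w 1 * w 5) ^ 2 + (w 4 + (1 / 2) * w 0 * w 5) ^ 2))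
  have h7 : (fun s : ℝ =>
      (1 / 2) * ((w 3 - (1 / 2) * w 1 * w 5) ^ 2 + (w 4 + (1 / 2) * w 0 * w 5) ^ 2)
    - 1 / (8 * Real.pi * √((w 0 ^ 2 + w 1 ^ 2) ^ 2 + 16 * (w 2 + s) ^ 2))) = fun s : ℝ =>
      (1 / 2) * ((w 3 - (1 / 2) * w 1 * w 5) ^ 2 + (w 4 + (1 / 2) * w 0 * w 5) ^ 2)
    + -(8 * Real.pi * √((w 0 ^ 2 + w 1 ^ 2) ^ 2 + 16 * (w 2 + s) ^ 2))⁻¹ := by
    funext s
    rw [one_div (8 * Real.pi * _), sub_eq_add_neg]
  rw [h2, h7] at h1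
  rw [h1.unique h6, add_zero]
  have hpi := Real.pi_pos
  field_simp
  ring

end IndAux

open IndAux in
theorem t_ind : S_ind := by
  intro w hw hp h2
  rw [LinearIndependent.pair_iff]
  intro s t hst
  have hev : ∀ v : V, s * fderiv ℝ Ham w v + t * fderiv ℝ pth w v = 0 := by
    intro v
    have := congrArg (fun L : V →L[ℝ] ℝ => L v) hst
    simpa using this
  have hs : s = 0 := by
    have h := hev (Pi.single 2 1)
    rw [fderiv_pth, fderiv_Ham_two hw] at h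
    have e1 : (Pi.single 2 1 : V) 4 = 0 := by simp
    have e2 : (Pi.single 2 1 : V) 0 = 0 := by simp
    have e3 : (Pi.single 2 1 : V) 3 = 0 := by simp
    have e4 : (Pi.single 2 1 : V) 1 = 0 := by simp
    rw [e1, e2, e3, e4] at h
    have hne : 2 * w 2 / (Real.pi * √((w 0 ^ 2 + w 1 ^ 2) ^ 2 + 16 * w 2 ^ 2) ^ 3) ≠ 0 := by
      have := Real.sqrt_pos.2 (arg_pos hw)
      have hpi := Real.pi_pos
      positivity
    simp only [mul_zero, add_zero, sub_zero] at h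
    exact (mul_eq_zero.1 h).resolve_right hne
  refine ⟨hs, ?_⟩
  by_contra ht
  apply hp
  have hz : ∀ v : V, fderiv ℝ pth w v = 0 := by
    intro v
    have h := hev v
    rw [hs, zero_mul, zero_add] at h
    exact (mul_eq_zero.1 h).resolve_left ht
  have h4 := hz (Pi.single 4 1)
  have h3 := hz (Pi.single 3 1)
  rw [fderiv_pth] at h4 h3
  have a0 : w 0 = 0 := by simpa using h4
  have a1 : w 1 = 0 := by simpa using h3
  unfold pth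
  rw [a0, a1]
  ring

end Pool.Agent.R963.KH
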