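import Pool.Agent.R963.KH.Stm

/-!
# KH-11 (MP_dd7031_mp): continuity of `β`
-/

open scoped ContDiff Topology
open Set Filter

set_option maxHeartbeats 400000

namespace Pool.Agent.R963.KH

noncomputable section

namespace K11

theorem c_pth : Continuous pth := by
  unfold pth
  fun_prop

theorem c_Jf : Continuous Jf := by
  unfold Jf
  fun_prop

theorem c_rho2 : Continuous rho2 := by
  unfold rho2
  fun_prop

theorem c_flow (D : FD) (τ : ℝ) : Continuous (fun w => D.Ψ τ w) :=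
  D.Ψ_smooth.continuous.comp (Continuous.prodMk_right τ)

theorem kap_pos : 0 < kap := by
  unfold kap
  have := Real.pi_pos
  positivity

end K11

open K11 in
theorem t_beta (hf : S_field) (hp : S_prop) (hc : S_coll) (ht : S_traj) (htr : S_trap)
    (hne : S_ne) : S_beta := by
  intro D w hw hpw hb0
  obtain ⟨hWq, hWo, -, hHam, hTm, -⟩ := hf
  have hTc : ∀ u ∈ W, ContinuousAt Tm u := fun u hu =>
    (hTm.continuousOn).continuousAt (hWo.mem_nhds hu)
  have hHc : ContinuousAt Ham w := (hHam.continuousOn).continuousAt (hWq.mem_nhds hw.1)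
  have hTΨ : ∀ τ : ℝ, ContinuousAt (fun w => Tm (D.Ψ τ w)) w := fun τ =>
    ContinuousAt.comp (g := Tm) (f := fun w => D.Ψ τ w) (hTc _ (hp D w hw τ).1)
      (c_flow D τ).continuousAt
  have hmono : ∀ u ∈ W, Monotone (fun τ => Tm (D.Ψ τ u)) := by
    intro u hu
    apply monotone_of_deriv_nonneg
    · intro τ
      exact (hp D u hu τ).2.2.2.1.differentiableAt
    · intro τ
      rw [(hp D u hu τ).2.2.2.1.deriv]
      exact (hp D u hu τ).2.2.2.2.2.le
  have hle : ∀ (u : V) (τ : ℝ), ((Tm (D.Ψ τ u) : ℝ) : EReal) ≤ bet D u := fun u τ =>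
    le_iSup (fun τ : ℝ => ((Tm (D.Ψ τ u) : ℝ) : EReal)) τ
  unfold ContinuousWithinAt
  rw [tendsto_order]
  refine ⟨?_, ?_⟩
  · intro a ha
    obtain ⟨τ, hτ⟩ := lt_iSup_iff.1 ha
    have h1 : ContinuousAt (fun w => ((Tm (D.Ψ τ w) : ℝ) : EReal)) w :=
      (continuous_coe_real_ereal.continuousAt).comp (hTΨ τ)
    have h2 : ∀ᶠ w' in 𝓝 w, a < ((Tm (D.Ψ τ w') : ℝ) : EReal) :=
      h1.eventually (lt_mem_nhds hτ)
    exact mem_nhdsWithin_of_mem_nhds (h2.mono fun w' hw' => lt_of_lt_of_le hw' (hle w' τ))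
  · intro c hcb
    have hbt : bet D w < ⊤ := lt_of_lt_of_le hcb le_top
    have hbb : ⊥ < bet D w := lt_of_lt_of_le (EReal.bot_lt_coe _) (hle w 0)
    obtain ⟨b, hb⟩ : ∃ b : ℝ, bet D w = (b : EReal) := by
      refine ⟨(bet D w).toReal, ?_⟩
      rw [EReal.coe_toReal hbt.ne hbb.ne']
    have hb0' : b ≠ 0 := by
      intro h
      rw [hb, h] at hb0
      exact hb0 rfl
    have hTb : ∀ τ, Tm (D.Ψ τ w) ≤ b := by
      intro τ
      have h1 := hle w τ
      rw [hb] at h1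
      exact_mod_cast h1
    have hlub : IsLUB (range (fun τ => Tm (D.Ψ τ w))) b := by
      refine ⟨?_, ?_⟩
      · rintro _ ⟨τ, rfl⟩
        exact hTb τ
      · intro x hx
        have h1 : bet D w ≤ (x : EReal) := by
          refine iSup_le fun τ => ?_
          exact_mod_cast hx ⟨τ, rfl⟩
        rw [hb] at h1
        exact_mod_cast h1
    have hTlim : Tendsto (fun τ => Tm (D.Ψ τ w)) atTop (𝓝 b) :=
      tendsto_atTop_isLUB (hmono w hw) hlub
    have hρlim := hc D w hw hbt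
    have hJT : ∀ τ, Jf (D.Ψ τ w) = 2 * Ham w * Tm (D.Ψ τ w) := by
      intro τ
      have h1 := hp D w hw τ
      unfold Tm
      rw [h1.2.1]
      have h2 : Ham w ≠ 0 := hw.2
      field_simp
    obtain ⟨J₀, hJ₀⟩ : ∃ J₀, J₀ = 2 * Ham w * b := ⟨_, rfl⟩
    have hJlim : Tendsto (fun τ => Jf (D.Ψ τ w)) atTop (𝓝 J₀) := by
      simp_rw [hJT]
      rw [hJ₀]
      exact hTlim.const_mul _
    have hJne : J₀ ≠ 0 := by
      rw [hJ₀]
      exact mul_ne_zero (mul_ne_zero two_ne_zero hw.2) hb0'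
    have hJneg : J₀ < 0 := by
      rcases lt_or_gt_of_ne hJne with h | h
      · exact h
      · exact (hne kap J₀ (pth w) (Ham w) _ _ _ _ _ _ _ kap_pos h hpw
          (fun τ _ => ht D w hw hpw τ) hρlim hJlim).elim
    obtain ⟨ε, C, hε, hC, htrap⟩ := htr kap J₀ (pth w) (Ham w) kap_pos hJneg hpw
    rw [hb] at hcb
    obtain ⟨d, hbd, hdc⟩ := EReal.lt_iff_exists_real_btwn.1 hcb
    have hbd' : b < d := by exact_mod_cast hbd
    obtain ⟨e, he⟩ : ∃ e, e = d - b := ⟨_, rfl⟩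
    have he0 : 0 < e := by linarith
    have hm : 0 < min ε (e / (2 * C)) := lt_min hε (by positivity)
    -- the time `τ₁`
    have ev1 : ∀ᶠ τ in atTop, |Jf (D.Ψ τ w) - J₀| < ε := by
      have h1 := (Metric.tendsto_nhds.1 hJlim) ε hε
      simpa [Real.dist_eq] using h1
    have ev2 : ∀ᶠ τ in atTop, rho2 (D.Ψ τ w) < min ε (e / (2 * C)) :=
      hρlim.eventually (gt_mem_nhds hm)
    obtain ⟨τ₁, hτ1, hτ2⟩ := (ev1.and ev2).exists
    have cΨ := (c_flow D τ₁).continuousAt (x := w)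
    have cJ : ContinuousAt (fun w' => |Jf (D.Ψ τ₁ w') - J₀|) w :=
      ((c_Jf.comp (c_flow D τ₁)).sub continuous_const).abs.continuousAt
    have cR : ContinuousAt (fun w' => rho2 (D.Ψ τ₁ w')) w :=
      (c_rho2.comp (c_flow D τ₁)).continuousAt
    have n1 : ∀ᶠ w' in 𝓝 w, |Jf (D.Ψ τ₁ w') - J₀| < ε := cJ.eventually (gt_mem_nhds hτ1)
    have n2 : ∀ᶠ w' in 𝓝 w, rho2 (D.Ψ τ₁ w') < min ε (e / (2 * C)) :=
      cR.eventually (gt_mem_nhds hτ2)
    have n3 : ∀ᶠ w' in 𝓝 w, |pth w' - pth w| < ε := by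
      have h1 : ContinuousAt (fun w' => |pth w' - pth w|) w :=
        (c_pth.sub continuous_const).abs.continuousAt
      exact h1.eventually (gt_mem_nhds (by simpa using hε))
    have n4 : ∀ᶠ w' in 𝓝 w, |Ham w' - Ham w| < ε := by
      have h1 : ContinuousAt (fun w' => |Ham w' - Ham w|) w :=
        (hHc.sub continuousAt_const).abs
      exact h1.eventually (gt_mem_nhds (by simpa using hε))
    have n5 : ∀ᶠ w' in 𝓝 w, pth w' ≠ 0 := c_pth.continuousAt.eventually_ne hpw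
    have n6 : ∀ᶠ w' in 𝓝 w, Tm (D.Ψ τ₁ w') < b + e / 2 := by
      refine (hTΨ τ₁).eventually (gt_mem_nhds ?_)
      have := hTb τ₁
      linarith
    have nall := ((n1.and n2).and (n3.and n4)).and (n5.and n6)
    have hall : ∀ᶠ w' in 𝓝[W] w, w' ∈ W := self_mem_nhdsWithin
    filter_upwards [mem_nhdsWithin_of_mem_nhds nall, hall] with w' hw' hWw'
    obtain ⟨⟨⟨m1, m2⟩, m3, m4⟩, m5, m6⟩ := hw'
    have hP1 := hp D w' hWw' τ₁
    have hforw : ∀ τ, 0 ≤ τ → Tm (D.Ψ τ (D.Ψ τ₁ w')) ≤ d := by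
      intro τ hτ
      have h1 := htrap (pth (D.Ψ τ₁ w')) (Ham (D.Ψ τ₁ w')) _ _ _ _ _ _ _
        (by rw [hP1.2.2.1]; exact m3) (by rw [hP1.2.1]; exact m4)
        (by simpa only [D.Ψ_zero] using m1)
        (by simpa only [D.Ψ_zero] using lt_of_lt_of_le m2 (min_le_left _ _))
        (fun τ _ => ht D (D.Ψ τ₁ w') hP1.1 (by rw [hP1.2.2.1]; exact m5) τ) τ hτ
      simp only [D.Ψ_zero] at h1
      have h2 : C * rho2 (D.Ψ τ₁ w') ≤ e / 2 := by
        have h3 : rho2 (D.Ψ τ₁ w') ≤ e / (2 * C) := (lt_of_lt_of_le m2 (min_le_right _ _)).le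
        have h4 := mul_le_mul_of_nonneg_left h3 hC.le
        have h5 : C * (e / (2 * C)) = e / 2 := by field_simp
        linarith
      linarith
    refine lt_of_le_of_lt (iSup_le fun τ => ?_) hdc
    have hfin : Tm (D.Ψ τ w') ≤ d := by
      rcases le_total τ₁ τ with h | h
      · have h1 := hforw (τ - τ₁) (by linarith)
        rw [← D.Ψ_add] at h1
        have h2 : τ - τ₁ + τ₁ = τ := by ring
        rwa [h2] at h1
      · have h1 := hmono w' hWw' h
        simp only at h1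
        linarith
    exact_mod_cast hfin

end

end Pool.Agent.R963.KH
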