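import Pool.Agent.R963.KH.Stm

/-!
# KH-14a (MP_dd7031_mp): a good vector
-/

open scoped ContDiff Topology
open Set Filter

set_option maxHeartbeats 400000

namespace Pool.Agent.R963.KH

noncomputable section

namespace K14a

theorem hp (i : Fin 6) (w : V) :
    HasFDerivAt (fun w : V => w i) (ContinuousLinearMap.proj (R := ℝ) (φ := fun _ => ℝ) i) w :=
  hasFDerivAt_apply i w

theorem d_pth (w v : V) : fderiv ℝ pth w v = w 0 * v 4 + w 4 * v 0 - (w 1 * v 3 + w 3 * v 1) := by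
  have h : HasFDerivAt pth _ w := ((hp 0 w).mul (hp 4 w)).sub ((hp 1 w).mul (hp 3 w))
  rw [h.fderiv]
  simp

theorem d_aa (w v : V) : fderiv ℝ aa w v = w 0 * v 3 + w 3 * v 0 + (w 1 * v 4 + w 4 * v 1) := by
  have h : HasFDerivAt aa _ w := ((hp 0 w).mul (hp 3 w)).add ((hp 1 w).mul (hp 4 w))
  rw [h.fderiv]
  simp

theorem diff_Jf (w : V) : DifferentiableAt ℝ Jf w := by
  have h : HasFDerivAt Jf _ w := (((hp 0 w).mul (hp 3 w)).add ((hp 1 w).mul (hp 4 w))).add
    (((hp 2 w).const_mul 2).mul (hp 5 w))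
  exact h.differentiableAt

/-- the directions -/
def dir (w : V) (c : Fin 3 → ℝ) : V := ![0, 0, c 0, c 1 * w 0, c 1 * w 1, c 2]

/-- the directions as a linear map -/
def dirL (w : V) : (Fin 3 → ℝ) →ₗ[ℝ] V where
  toFun := dir w
  map_add' c d := by
    funext i
    fin_cases i <;> simp [dir, add_mul]
  map_smul' r c := by
    funext i
    fin_cases i <;> simp [dir, mul_assoc]

end K14a

open K14a in
theorem t_vec (hf : S_field) : S_vec := by
  intro w hw hpw
  obtain ⟨hWq, hWo, -, hHam, hTm, -⟩ := hf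
  have hHd : DifferentiableAt ℝ Ham w :=
    (hHam.differentiableOn (by simp)).differentiableAt (hWq.mem_nhds hw.1)
  obtain ⟨L, hL⟩ : ∃ L : (Fin 3 → ℝ) →ₗ[ℝ] (ℝ × ℝ), L =
      LinearMap.prod ((fderiv ℝ Ham w : V →L[ℝ] ℝ).toLinearMap ∘ₗ dirL w)
        ((fderiv ℝ Jf w : V →L[ℝ] ℝ).toLinearMap ∘ₗ dirL w) := ⟨_, rfl⟩
  have hker : LinearMap.ker L ≠ ⊥ := by
    apply LinearMap.ker_ne_bot_of_finrank_lt
    simp
  obtain ⟨c, hc, hc0⟩ := Submodule.exists_mem_ne_zero_of_ne_bot hker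
  rw [LinearMap.mem_ker, hL] at hc
  have hc1 : fderiv ℝ Ham w (dir w c) = 0 := congrArg Prod.fst hc
  have hc2 : fderiv ℝ Jf w (dir w c) = 0 := congrArg Prod.snd hc
  refine ⟨dir w c, hc1, ?_, ?_, ?_⟩
  · rw [d_pth]
    simp [dir]
    ring
  · have hne : (2 : ℝ) * Ham w ≠ 0 := mul_ne_zero two_ne_zero hw.2
    have hTd : DifferentiableAt ℝ Tm w :=
      (hTm.differentiableOn (by simp)).differentiableAt (hWo.mem_nhds hw)
    have hγ : HasDerivAt (fun t : ℝ => w + t • dir w c) (dir w c) 0 := by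
      have h1 := ((hasDerivAt_id (0 : ℝ)).smul_const (dir w c)).const_add w
      simpa using h1
    have hγ0 : w + (0 : ℝ) • dir w c = w := by simp
    have hJ : HasDerivAt (fun t : ℝ => Jf (w + t • dir w c)) (fderiv ℝ Jf w (dir w c)) 0 := by
      have h1 : HasFDerivAt Jf (fderiv ℝ Jf w) (w + (0 : ℝ) • dir w c) := by
        rw [hγ0]; exact (diff_Jf w).hasFDerivAt
      exact h1.comp_hasDerivAt 0 hγ
    have hH : HasDerivAt (fun t : ℝ => Ham (w + t • dir w c)) (fderiv ℝ Ham w (dir w c)) 0 := by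
      have h1 : HasFDerivAt Ham (fderiv ℝ Ham w) (w + (0 : ℝ) • dir w c) := by
        rw [hγ0]; exact hHd.hasFDerivAt
      exact h1.comp_hasDerivAt 0 hγ
    have hT : HasDerivAt (fun t : ℝ => Tm (w + t • dir w c)) (fderiv ℝ Tm w (dir w c)) 0 := by
      have h1 : HasFDerivAt Tm (fderiv ℝ Tm w) (w + (0 : ℝ) • dir w c) := by
        rw [hγ0]; exact hTd.hasFDerivAt
      exact h1.comp_hasDerivAt 0 hγ
    have hne0 : 2 * Ham (w + (0 : ℝ) • dir w c) ≠ 0 := by
      rw [hγ0]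
      exact hne
    have hdiv := hJ.div (hH.const_mul 2) hne0
    rw [hc1, hc2] at hdiv
    have huniq := hT.unique hdiv
    rw [huniq]
    simp
  · rintro ⟨-, h2, -, h4, h5⟩
    apply hc0
    have h6 : c 0 = 0 := h4
    have h7 : c 2 = 0 := h5
    rw [d_aa] at h2
    have h8 : c 1 * (w 0 ^ 2 + w 1 ^ 2) = 0 := by
      have h9 : w 0 * (dir w c) 3 + w 3 * (dir w c) 0 + (w 1 * (dir w c) 4 + w 4 * (dir w c) 1) =
          c 1 * (w 0 ^ 2 + w 1 ^ 2) := by
        simp [dir]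
        ring
      rw [← h9]
      exact h2
    have h10 : w 0 ^ 2 + w 1 ^ 2 ≠ 0 := by
      intro h11
      have h12 : w 0 = 0 := by nlinarith [sq_nonneg (w 0), sq_nonneg (w 1)]
      have h13 : w 1 = 0 := by nlinarith [sq_nonneg (w 0), sq_nonneg (w 1)]
      apply hpw
      unfold pth
      rw [h12, h13]
      ring
    have h14 : c 1 = 0 := by
      rcases mul_eq_zero.1 h8 with h | h
      · exact h
      · exact absurd h h10
    funext i
    fin_cases i
    · exact h6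
    · exact h14
    · exact h7

end

end Pool.Agent.R963.KH
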