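import Pool.Agent.R963.KH.Stm

/-! # KH-9b: existence of the Lyapunov corrector, `t_ly : S_lya → S_ly` -/

open scoped ContDiff Topology
open Set Filter

namespace Pool.Agent.R963.KH

set_option maxHeartbeats 400000

lemma ly_cpt {X : Type*} [TopologicalSpace X] [T2Space X] {K : Set X} (hK : IsCompact K)
    {D F : X → ℝ} (hD : ContinuousOn D K) (hF : ContinuousOn F K) (hD0 : ∀ x ∈ K, 0 ≤ D x)
    (h : ∀ x ∈ K, D x = 0 → 0 < F x) :
    ∃ d > 0, ∃ δ > 0, ∀ x ∈ K, D x ≤ d → δ ≤ F x := by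
  have hZc : IsCompact (K ∩ F ⁻¹' Iic 0) :=
    hK.of_isClosed_subset (hF.preimage_isClosed_of_isClosed hK.isClosed isClosed_Iic)
      inter_subset_left
  obtain ⟨d, hd, hdZ⟩ : ∃ d > 0, ∀ x ∈ K, D x ≤ d → 0 < F x := by
    by_cases hne : (K ∩ F ⁻¹' Iic 0).Nonempty
    · obtain ⟨x₀, hx₀, hmin⟩ := hZc.exists_isMinOn hne (hD.mono inter_subset_left)
      have h0 : 0 < D x₀ := by
        rcases (hD0 x₀ hx₀.1).lt_or_eq with h1 | h1
        · exact h1
        · have h3 := h x₀ hx₀.1 h1.symm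
          have h2 : F x₀ ≤ 0 := hx₀.2
          linarith
      refine ⟨D x₀ / 2, by positivity, fun x hx hxd => ?_⟩
      by_contra hcon
      have h4 : D x₀ ≤ D x := hmin ⟨hx, not_lt.mp hcon⟩
      linarith
    · refine ⟨1, one_pos, fun x hx _ => ?_⟩
      by_contra hcon
      exact hne ⟨x, hx, not_lt.mp hcon⟩
  have hYc : IsCompact (K ∩ D ⁻¹' Iic d) :=
    hK.of_isClosed_subset (hD.preimage_isClosed_of_isClosed hK.isClosed isClosed_Iic)
      inter_subset_left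
  by_cases hne : (K ∩ D ⁻¹' Iic d).Nonempty
  · obtain ⟨y, hy, hmin⟩ := hYc.exists_isMinOn hne (hF.mono inter_subset_left)
    exact ⟨d, hd, F y, hdZ y hy.1 hy.2, fun x hx hxd => hmin ⟨hx, hxd⟩⟩
  · exact ⟨d, hd, 1, one_pos, fun x hx hxd => (hne ⟨x, hx, hxd⟩).elim⟩

lemma ly_eta {K : Set ℝ} (hK : IsCompact K) {B C : ℝ → ℝ} (hB : ContinuousOn B K)
    (hC : ContinuousOn C K) (hB0 : ∀ x ∈ K, 0 ≤ B x) (h : ∀ x ∈ K, B x = 0 → 0 < C x) :
    ∃ η > 0, ∀ x ∈ K, 0 < B x + η * C x := by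
  obtain ⟨d, hd, δ, hδ, hdδ⟩ := ly_cpt hK hB hC hB0 h
  obtain ⟨M, hM⟩ := hK.exists_bound_of_continuousOn hC
  have hM1 : 0 < |M| + 1 := by positivity
  refine ⟨d / (2 * (|M| + 1)), by positivity, fun x hx => ?_⟩
  have h1 : -(|M| + 1) ≤ C x := by
    have h2 := hM x hx
    rw [Real.norm_eq_abs] at h2
    have h3 := neg_abs_le (C x)
    have h4 := le_abs_self M
    linarith
  by_cases hxd : B x ≤ d
  · have h2 := hdδ x hx hxd
    have h3 := hB0 x hx
    have h4 : 0 < d / (2 * (|M| + 1)) * C x := by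
      apply mul_pos (by positivity)
      linarith
    linarith
  · have h2 : d < B x := not_le.mp hxd
    have h3 : d / (2 * (|M| + 1)) * (-(|M| + 1)) ≤ d / (2 * (|M| + 1)) * C x :=
      mul_le_mul_of_nonneg_left h1 (by positivity)
    have h4 : d / (2 * (|M| + 1)) * (-(|M| + 1)) = - (d / 2) := by
      field_simp
    linarith

/-- `q t = (1+t^2)^{1/4}` -/
noncomputable def lyq (t : ℝ) : ℝ := √(√(1 + t ^ 2))

lemma lyq_pos (t : ℝ) : 0 < lyq t := by unfold lyq; positivity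

lemma lyq_sq (t : ℝ) : lyq t ^ 2 = √(1 + t ^ 2) := by
  unfold lyq
  rw [Real.sq_sqrt (by positivity)]

lemma lyq_le (t : ℝ) : lyq t ^ 2 ≤ 1 + |t| := by
  rw [lyq_sq]
  rw [Real.sqrt_le_left (by positivity)]
  have := sq_abs t
  nlinarith [abs_nonneg t]

lemma lyq_cont : Continuous lyq := by unfold lyq; fun_prop

lemma ly_tbound {κ J₀ p₀ : ℝ} (hκ : 0 < κ) (hJ : 0 < J₀) (hp : 0 < p₀) :
    ∃ T > 0, ∀ t S J p R : ℝ, |J| ≤ 2 * J₀ → p₀ / 2 ≤ p → |S| ≤ 1 → 2 * R + κ ≤ 2 * κ →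
      S * √(2 * R + κ) * lyq t = J + p * t → |t| ≤ T := by
  refine ⟨(2 * √(2 * κ) / p₀) ^ 2 + 1 + 2 * (4 * J₀ / p₀), by positivity, ?_⟩
  intro t S J p R hJb hpb hS hR heq
  have hq := lyq_pos t
  have h1 : p * t = S * √(2 * R + κ) * lyq t - J := by linarith
  have h2 : |p * t| ≤ √(2 * κ) * lyq t + 2 * J₀ := by
    rw [h1]
    have h3 : |S * √(2 * R + κ) * lyq t| ≤ √(2 * κ) * lyq t := by
      rw [abs_mul, abs_mul, abs_of_pos hq, abs_of_nonneg (Real.sqrt_nonneg _)]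
      apply mul_le_mul_of_nonneg_right _ hq.le
      calc |S| * √(2 * R + κ) ≤ 1 * √(2 * κ) :=
            mul_le_mul hS (Real.sqrt_le_sqrt hR) (Real.sqrt_nonneg _) (by norm_num)
        _ = √(2 * κ) := one_mul _
    calc |S * √(2 * R + κ) * lyq t - J| ≤ |S * √(2 * R + κ) * lyq t| + |J| := abs_sub _ _
      _ ≤ _ := by linarith
  have h4 : |p * t| = p * |t| := by rw [abs_mul, abs_of_pos (by linarith)]
  have h5 : p₀ / 2 * |t| ≤ √(2 * κ) * lyq t + 2 * J₀ := by
    have : p₀ / 2 * |t| ≤ p * |t| := mul_le_mul_of_nonneg_right hpb (abs_nonneg t)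
    linarith
  have h6 : |t| ≤ (2 * √(2 * κ) / p₀) * lyq t + 4 * J₀ / p₀ := by
    have h7 : (2 * √(2 * κ) / p₀) * lyq t + 4 * J₀ / p₀ =
        (2 / p₀) * (√(2 * κ) * lyq t + 2 * J₀) := by
      field_simp
      ring
    rw [h7]
    have h8 : |t| = (2 / p₀) * (p₀ / 2 * |t|) := by field_simp
    rw [h8]
    exact mul_le_mul_of_nonneg_left h5 (by positivity)
  have h9 := lyq_le t
  nlinarith [sq_nonneg ((2 * √(2 * κ) / p₀) - lyq t)]

/-- the center inequality and the corrector for `J₀, p₀ > 0` -/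
lemma ly_center (h : S_lya) {κ J₀ p₀ T : ℝ} (hκ : 0 < κ) (hJ : 0 < J₀) (hp : 0 < p₀) :
    ∃ (φ : ℝ → ℝ) (η : ℝ), Continuous φ ∧ ∀ t E S : ℝ, |t| ≤ T → E ^ 2 + S ^ 2 = 1 →
      S * √κ * lyq t = J₀ + p₀ * t →
      0 < cc t J₀ p₀ - φ E * S * Ab κ t E J₀ p₀ 0 + η * (E ^ 2 - S ^ 2) * Ab κ t E J₀ p₀ 0 := by
  have hsκ : 0 < √κ := Real.sqrt_pos.mpr hκ
  obtain ⟨Om, δ, hOm, hδ, hOmpos, hmain⟩ := h (J₀ / √κ) (p₀ / √κ) (by positivity) (by positivity)
  set J' := J₀ / √κ with hJ'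
  set p' := p₀ / √κ with hp'
  have hJ'0 : 0 < J' := by positivity
  have hp'0 : 0 < p' := by positivity
  have hq0 := lyq_pos
  -- the compact set
  set K : Set ℝ := Icc (-T) T ∩ {t | |J' + p' * t| ≤ lyq t} with hKdef
  have hK : IsCompact K := by
    apply isCompact_Icc.inter_right
    exact isClosed_le (by fun_prop) lyq_cont
  set Sf : ℝ → ℝ := fun t => (J' + p' * t) / lyq t with hSf
  set Af : ℝ → ℝ := fun t => (2 * p' + p' * t ^ 2 - J' * t) / (2 * lyq t) with hAf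
  have hSc : Continuous Sf := by
    apply Continuous.div (by fun_prop) lyq_cont
    intro t; exact (hq0 t).ne'
  have hAc : Continuous Af := by
    apply Continuous.div (by fun_prop) (continuous_const.mul lyq_cont)
    intro t; exact (mul_pos two_pos (hq0 t)).ne'
  have hSabs : ∀ t ∈ K, |Sf t| ∈ Icc (0 : ℝ) 1 := by
    intro t ht
    refine ⟨abs_nonneg _, ?_⟩
    simp only [hSf]
    rw [abs_div, abs_of_pos (hq0 t), div_le_one (hq0 t)]
    exact ht.2
  have hOmc : ContinuousOn (fun t => Om |Sf t|) K :=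
    (hOm.comp hSc.abs).continuousOn
  set B : ℝ → ℝ := fun t => Sf t - Sf t * Af t / Om |Sf t| with hB
  set C : ℝ → ℝ := fun t => (1 - 2 * Sf t ^ 2) * Af t with hC
  have hBc : ContinuousOn B K := by
    apply hSc.continuousOn.sub
    apply (hSc.mul hAc).continuousOn.div hOmc
    intro t ht
    exact (hOmpos _ (hSabs t ht)).ne'
  have hCc : ContinuousOn C K := by
    apply Continuous.continuousOn
    fun_prop
  have hBlow : ∀ t ∈ K, δ * Sf t ^ 2 / Om |Sf t| ≤ B t := by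
    intro t ht
    have hpos := hOmpos _ (hSabs t ht)
    obtain ⟨h1, h2⟩ := hmain t (by have := ht.2; simpa [lyq] using this)
    have e1 : (2 * p' + p' * t ^ 2 - J' * t) / (2 * √(√(1 + t ^ 2))) = Af t := by
      simp only [hAf, lyq]
    have e2 : (J' + p' * t) / √(√(1 + t ^ 2)) = Sf t := by simp only [hSf, lyq]
    rw [e1, e2] at h1 h2
    have hB' : B t = Sf t * (Om |Sf t| - Af t) / Om |Sf t| := by
      simp only [hB]
      field_simp
    rw [hB']
    apply div_le_div_of_nonneg_right _ hpos.le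
    rcases le_total 0 (J' + p' * t) with h3 | h3
    · have h4 := h1 h3
      have h5 : 0 ≤ Sf t := div_nonneg h3 (hq0 t).le
      rw [abs_of_nonneg h5]
      nlinarith
    · have h4 := h2 h3
      have h5 : Sf t ≤ 0 := div_nonpos_of_nonpos_of_nonneg h3 (hq0 t).le
      rw [abs_of_nonpos h5]
      nlinarith
  have hB0 : ∀ t ∈ K, 0 ≤ B t := by
    intro t ht
    have hpos := hOmpos _ (hSabs t ht)
    refine le_trans ?_ (hBlow t ht)
    positivity
  have hBC : ∀ t ∈ K, B t = 0 → 0 < C t := by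
    intro t ht hBt
    have hpos := hOmpos _ (hSabs t ht)
    have h1 := hBlow t ht
    rw [hBt] at h1
    have h2 : δ * Sf t ^ 2 ≤ 0 := by
      by_contra hcon
      have : 0 < δ * Sf t ^ 2 / Om |Sf t| := div_pos (not_le.mp hcon) hpos
      linarith
    have h3 : Sf t = 0 := by
      have h4 : Sf t ^ 2 ≤ 0 := by
        by_contra hcon
        have := mul_pos hδ (not_le.mp hcon)
        linarith
      have h5 : Sf t ^ 2 = 0 := le_antisymm h4 (sq_nonneg _)
      exact pow_eq_zero_iff (two_ne_zero) |>.mp h5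
    have h4 : J' + p' * t = 0 := by
      simp only [hSf] at h3
      rcases div_eq_zero_iff.mp h3 with h5 | h5
      · exact h5
      · exact absurd h5 (hq0 t).ne'
    simp only [hC, h3]
    have h5 : 0 < Af t := by
      simp only [hAf]
      apply div_pos _ (by have := hq0 t; positivity)
      have h6 : t < 0 := by
        by_contra hcon
        have := mul_nonneg hp'0.le (not_lt.mp hcon)
        linarith
      nlinarith [mul_pos hJ'0 (neg_pos.mpr h6), sq_nonneg t]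
    nlinarith
  obtain ⟨η, hη, hηK⟩ := ly_eta hK hBc hCc hB0 hBC
  refine ⟨fun u => (Om (√(1 - u ^ 2)))⁻¹, η, ?_, ?_⟩
  · apply Continuous.inv₀ (hOm.comp (by fun_prop))
    intro u
    refine (hOmpos _ ⟨Real.sqrt_nonneg _, ?_⟩).ne'
    exact Real.sqrt_le_iff.mpr ⟨by norm_num, by nlinarith [sq_nonneg u]⟩
  · intro t E S htT hES hSeq
    have hSval : S = Sf t := by
      simp only [hSf]
      rw [eq_div_iff (hq0 t).ne', hJ', hp']
      field_simp
      linarith
    have hSle : |S| ≤ 1 := by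
      rw [abs_le_one_iff_mul_self_le_one]
      nlinarith [sq_nonneg E]
    have htK : t ∈ K := by
      refine ⟨abs_le.mp htT, ?_⟩
      have : |Sf t| ≤ 1 := hSval ▸ hSle
      simp only [hSf] at this
      rw [abs_div, abs_of_pos (hq0 t), div_le_one (hq0 t)] at this
      exact this
    have hkey := hηK t htK
    have hsq : √(1 - E ^ 2) = |S| := by
      have : 1 - E ^ 2 = S ^ 2 := by linarith
      rw [this, Real.sqrt_sq_eq_abs]
    have hposO := hOmpos _ (hSabs t htK)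
    have hq2 := lyq_sq t
    have hqt := hq0 t
    have hcc : cc t J₀ p₀ = √κ / lyq t * S := by
      unfold cc
      rw [← hq2, ← hSeq]
      field_simp
    have hAb : Ab κ t E J₀ p₀ 0 = √κ / lyq t * Af t := by
      unfold Ab
      rw [← hq2]
      simp only [hAf, hJ', hp']
      field_simp
      ring
    rw [hcc, hAb]
    show 0 < √κ / lyq t * S - (Om (√(1 - E ^ 2)))⁻¹ * S * (√κ / lyq t * Af t)
      + η * (E ^ 2 - S ^ 2) * (√κ / lyq t * Af t)
    rw [hsq]
    have hE2 : E ^ 2 - S ^ 2 = 1 - 2 * S ^ 2 := by linarith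
    rw [hE2]
    have hfin : √κ / lyq t * S - (Om |S|)⁻¹ * S * (√κ / lyq t * Af t)
      + η * (1 - 2 * S ^ 2) * (√κ / lyq t * Af t) = √κ / lyq t * (B t + η * C t) := by
      simp only [hB, hC, ← hSval]
      rw [div_eq_mul_inv (S * Af t)]
      ring
    rw [hfin]
    exact mul_pos (by positivity) hkey

/-- the corrector for `J₀, p₀ > 0` -/
lemma ly_pos (h : S_lya) {κ J₀ p₀ : ℝ} (hκ : 0 < κ) (hJ : 0 < J₀) (hp : 0 < p₀) :
    ∃ (g : ℝ → ℝ) (η δ ε : ℝ), ContDiff ℝ 1 g ∧ 0 < δ ∧ 0 < ε ∧ ∀ t E S J p R : ℝ,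
    |J - J₀| < ε → |p - p₀| < ε → |R| < ε → E ^ 2 + S ^ 2 = 1 →
    S * √(2 * R + κ) * √(√(1 + t ^ 2)) = J + p * t →
    δ ≤ (cc t J p - deriv g E * S * Ab κ t E J p R + η * (E ^ 2 - S ^ 2) * Ab κ t E J p R) := by
  obtain ⟨T, hT, hTb⟩ := ly_tbound hκ hJ hp
  obtain ⟨φ, η, hφ, hcen⟩ := ly_center (T := T) h hκ hJ hp
  set g : ℝ → ℝ := fun E => ∫ u in (0 : ℝ)..E, φ u with hg
  have hgd : ∀ E, HasDerivAt g (φ E) E := fun E =>
    (hφ.integral_hasStrictDerivAt 0 E).hasDerivAt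
  have hgderiv : deriv g = φ := funext fun E => (hgd E).deriv
  have hgC : ContDiff ℝ 1 g := by
    rw [contDiff_one_iff_deriv]
    exact ⟨fun E => (hgd E).differentiableAt, by rw [hgderiv]; exact hφ⟩
  -- small box
  set e : ℝ := min (κ / 4) (min (p₀ / 2) J₀) with he
  have he0 : 0 < e := by
    simp only [he]
    apply lt_min (by positivity) (lt_min (by positivity) hJ)
  have heκ : e ≤ κ / 4 := min_le_left _ _
  have hep : e ≤ p₀ / 2 := (min_le_right _ _).trans (min_le_left _ _)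
  have heJ : e ≤ J₀ := (min_le_right _ _).trans (min_le_right _ _)
  set Box : Set (ℝ × ℝ × ℝ × ℝ × ℝ × ℝ) :=
    Icc (-T) T ×ˢ (Icc (-1) 1 ×ˢ (Icc (-1) 1 ×ˢ (Icc (J₀ - e) (J₀ + e) ×ˢ
      (Icc (p₀ - e) (p₀ + e) ×ˢ Icc (-e) e)))) with hBox
  have hBoxc : IsCompact Box :=
    isCompact_Icc.prod (isCompact_Icc.prod (isCompact_Icc.prod (isCompact_Icc.prod
      (isCompact_Icc.prod isCompact_Icc))))
  set X : Set (ℝ × ℝ × ℝ × ℝ × ℝ × ℝ) := Box ∩
    ({x | x.2.1 ^ 2 + x.2.2.1 ^ 2 = 1} ∩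
      {x | x.2.2.1 * √(2 * x.2.2.2.2.2 + κ) * lyq x.1 = x.2.2.2.1 + x.2.2.2.2.1 * x.1}) with hX
  have hXc : IsCompact X := by
    apply hBoxc.inter_right
    apply IsClosed.inter
    · exact isClosed_eq (by fun_prop) (by fun_prop)
    · refine isClosed_eq ?_ (by fun_prop)
      exact ((by fun_prop : Continuous fun x : ℝ × ℝ × ℝ × ℝ × ℝ × ℝ =>
        x.2.2.1 * √(2 * x.2.2.2.2.2 + κ))).mul (lyq_cont.comp continuous_fst)
  set D : ℝ × ℝ × ℝ × ℝ × ℝ × ℝ → ℝ := fun x =>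
    |x.2.2.2.1 - J₀| + |x.2.2.2.2.1 - p₀| + |x.2.2.2.2.2| with hD
  set A : ℝ × ℝ × ℝ × ℝ × ℝ × ℝ → ℝ := fun x =>
    Ab κ x.1 x.2.1 x.2.2.2.1 x.2.2.2.2.1 x.2.2.2.2.2 with hA
  set F : ℝ × ℝ × ℝ × ℝ × ℝ × ℝ → ℝ := fun x =>
    cc x.1 x.2.2.2.1 x.2.2.2.2.1 - φ x.2.1 * x.2.2.1 * A x
      + η * (x.2.1 ^ 2 - x.2.2.1 ^ 2) * A x with hF
  have hDc : Continuous D := by
    simp only [hD]
    fun_prop
  have hAc : ContinuousOn A X := by
    simp only [hA, Ab]
    apply ContinuousOn.add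
    · apply Continuous.continuousOn
      apply Continuous.div (by fun_prop) (by fun_prop)
      intro x
      have : 0 < √(1 + x.1 ^ 2) := by positivity
      exact this.ne'
    · apply ContinuousOn.div (by fun_prop)
      · apply Continuous.continuousOn
        fun_prop
      · intro x hx
        have h1 : -e ≤ x.2.2.2.2.2 := hx.1.2.2.2.2.2.1
        have h2 : 0 < 2 * x.2.2.2.2.2 + κ := by linarith
        have h3 : 0 < √(√(1 + x.1 ^ 2)) := by positivity
        have h4 : 0 < √(2 * x.2.2.2.2.2 + κ) := Real.sqrt_pos.mpr h2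
        positivity
  have hccc : Continuous fun x : ℝ × ℝ × ℝ × ℝ × ℝ × ℝ => cc x.1 x.2.2.2.1 x.2.2.2.2.1 := by
    simp only [cc]
    apply Continuous.div (by fun_prop) (by fun_prop)
    intro x
    have : 0 < √(1 + x.1 ^ 2) := by positivity
    exact this.ne'
  have hφc : Continuous fun x : ℝ × ℝ × ℝ × ℝ × ℝ × ℝ => φ x.2.1 * x.2.2.1 :=
    (hφ.comp (by fun_prop)).mul (by fun_prop)
  have hFc : ContinuousOn F X := by
    apply ContinuousOn.add
    · exact hccc.continuousOn.sub (hφc.continuousOn.mul hAc)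
    · exact ContinuousOn.mul (Continuous.continuousOn (by fun_prop)) hAc
  have hcenter : ∀ x ∈ X, D x = 0 → 0 < F x := by
    rintro ⟨t, E, S, J, p, R⟩ hx hDx
    simp only [hD] at hDx
    have a1 := abs_nonneg (J - J₀)
    have a2 := abs_nonneg (p - p₀)
    have a3 := abs_nonneg R
    have b1 : J = J₀ := by
      have : |J - J₀| = 0 := by linarith
      have := abs_eq_zero.mp this
      linarith
    have b2 : p = p₀ := by
      have : |p - p₀| = 0 := by linarith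
      have := abs_eq_zero.mp this
      linarith
    have b3 : R = 0 := by
      have : |R| = 0 := by linarith
      exact abs_eq_zero.mp this
    subst b1 b2 b3
    have hx1 : t ∈ Icc (-T) T := hx.1.1
    have hx2 : E ^ 2 + S ^ 2 = 1 := hx.2.1
    have hx3 : S * √(2 * 0 + κ) * lyq t = J + p * t := hx.2.2
    rw [mul_zero, zero_add] at hx3
    exact hcen t E S (abs_le.mpr hx1) hx2 hx3
  obtain ⟨d, hd, δ, hδ, hfin⟩ := ly_cpt hXc hDc.continuousOn hFc
    (fun x _ => by simp only [hD]; positivity) hcenter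
  refine ⟨g, η, δ, min e (d / 3), hgC, hδ, lt_min he0 (by positivity), ?_⟩
  intro t E S J p R h1 h2 h3 h4 h5
  have h1e := lt_of_lt_of_le h1 (min_le_left _ _)
  have h2e := lt_of_lt_of_le h2 (min_le_left _ _)
  have h3e := lt_of_lt_of_le h3 (min_le_left _ _)
  have h1d := lt_of_lt_of_le h1 (min_le_right _ _)
  have h2d := lt_of_lt_of_le h2 (min_le_right _ _)
  have h3d := lt_of_lt_of_le h3 (min_le_right _ _)
  have hSle : |S| ≤ 1 := by
    rw [abs_le_one_iff_mul_self_le_one]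
    nlinarith [sq_nonneg E]
  have hEle : |E| ≤ 1 := by
    rw [abs_le_one_iff_mul_self_le_one]
    nlinarith [sq_nonneg S]
  obtain ⟨h1a, h1b⟩ := abs_lt.mp h1e
  obtain ⟨h2a, h2b⟩ := abs_lt.mp h2e
  obtain ⟨h3a, h3b⟩ := abs_lt.mp h3e
  have htT : |t| ≤ T := by
    apply hTb t S J p R _ (by linarith) hSle (by linarith) h5
    rw [abs_le]
    constructor <;> linarith
  have hmem : ((t, E, S, J, p, R) : ℝ × ℝ × ℝ × ℝ × ℝ × ℝ) ∈ X := by
    refine ⟨⟨abs_le.mp htT, abs_le.mp hEle, abs_le.mp hSle, ⟨?_, ?_⟩, ⟨?_, ?_⟩, ⟨?_, ?_⟩⟩, h4, h5⟩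
    all_goals simp only
    all_goals linarith
  have := hfin _ hmem (by simp only [hD]; linarith)
  rw [hgderiv]
  exact this

theorem t_ly (h : S_lya) : S_ly := by
  intro κ J₀ p₀ hκ hJ hp
  -- signs
  obtain ⟨σ, hσ, hσJ, hσif⟩ : ∃ σ : ℝ, σ ^ 2 = 1 ∧ 0 < σ * J₀ ∧
      (if 0 < J₀ then (1 : ℝ) else -1) = σ := by
    rcases lt_or_gt_of_ne hJ with h1 | h1
    · exact ⟨-1, by norm_num, by linarith, by rw [if_neg (by linarith)]⟩
    · exact ⟨1, by norm_num, by linarith, by rw [if_pos h1]⟩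
  obtain ⟨τ, hτ, hτp⟩ : ∃ τ : ℝ, τ ^ 2 = 1 ∧ 0 < τ * p₀ := by
    rcases lt_or_gt_of_ne hp with h1 | h1
    · exact ⟨-1, by norm_num, by linarith⟩
    · exact ⟨1, by norm_num, by linarith⟩
  obtain ⟨g, η, δ, ε, hg, hδ, hε, hmain⟩ := ly_pos h hκ hσJ hτp
  have habsσ : |σ| = 1 :=
    (pow_eq_one_iff_of_nonneg (abs_nonneg σ) two_ne_zero).mp (by rw [sq_abs, hσ])
  have habsτ : |τ| = 1 :=
    (pow_eq_one_iff_of_nonneg (abs_nonneg τ) two_ne_zero).mp (by rw [sq_abs, hτ])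
  refine ⟨fun E => g (τ * E), σ * τ * η, δ, ε, hg.comp (by fun_prop), hδ, hε, ?_⟩
  intro t E S J p R h1 h2 h3 h4 h5 h6
  rw [hσif]
  have hder : deriv (fun E => g (τ * E)) E = τ * deriv g (τ * E) := by
    have h7 : HasDerivAt g (deriv g (τ * E)) (τ * E) :=
      (hg.differentiable (by norm_num)).differentiableAt.hasDerivAt
    have h8 : HasDerivAt (fun E : ℝ => τ * E) τ E := by
      simpa using (hasDerivAt_id E).const_mul τ
    have h9 := h7.comp E h8
    have h10 := h9.deriv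
    rw [mul_comm] at h10
    exact h10
  have key := hmain (σ * τ * t) (τ * E) (σ * S) (σ * J) (τ * p) R ?_ ?_ h3 ?_ ?_
  · rw [hder]
    have e1 : (σ * τ * t) ^ 2 = t ^ 2 := by
      calc (σ * τ * t) ^ 2 = σ ^ 2 * τ ^ 2 * t ^ 2 := by ring
        _ = t ^ 2 := by rw [hσ, hτ]; ring
    have hcc : cc (σ * τ * t) (σ * J) (τ * p) = σ * cc t J p := by
      unfold cc
      rw [e1]
      have : σ * J + τ * p * (σ * τ * t) = σ * (J + p * t) := by
        calc σ * J + τ * p * (σ * τ * t) = σ * J + σ * τ ^ 2 * p * t := by ring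
          _ = _ := by rw [hτ]; ring
      rw [this, mul_div_assoc]
    have hAb : Ab κ (σ * τ * t) (τ * E) (σ * J) (τ * p) R = τ * Ab κ t E J p R := by
      unfold Ab
      rw [e1]
      have : τ * p + τ * p * t ^ 2 / 2 - σ * J * (σ * τ * t) / 2
          = τ * (p + p * t ^ 2 / 2 - J * t / 2) := by
        calc τ * p + τ * p * t ^ 2 / 2 - σ * J * (σ * τ * t) / 2
            = τ * p + τ * p * t ^ 2 / 2 - σ ^ 2 * J * τ * t / 2 := by ring
          _ = _ := by rw [hσ]; ring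
      rw [this]
      ring
    rw [hcc, hAb] at key
    refine key.trans (le_of_eq ?_)
    have hES : (τ * E) ^ 2 - (σ * S) ^ 2 = E ^ 2 - S ^ 2 := by
      calc (τ * E) ^ 2 - (σ * S) ^ 2 = τ ^ 2 * E ^ 2 - σ ^ 2 * S ^ 2 := by ring
        _ = _ := by rw [hσ, hτ]; ring
    rw [hES]
    have hσ2 : σ * σ = 1 := by nlinarith
    linear_combination (-(η * (E ^ 2 - S ^ 2) * τ * Ab κ t E J p R)) * hσ
  · have : σ * J - σ * J₀ = σ * (J - J₀) := by ring
    rw [this, abs_mul, habsσ, one_mul]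
    exact h1
  · have : τ * p - τ * p₀ = τ * (p - p₀) := by ring
    rw [this, abs_mul, habsτ, one_mul]
    exact h2
  · calc (τ * E) ^ 2 + (σ * S) ^ 2 = τ ^ 2 * E ^ 2 + σ ^ 2 * S ^ 2 := by ring
      _ = 1 := by rw [hσ, hτ]; linarith
  · have e1 : (σ * τ * t) ^ 2 = t ^ 2 := by
      calc (σ * τ * t) ^ 2 = σ ^ 2 * τ ^ 2 * t ^ 2 := by ring
        _ = t ^ 2 := by rw [hσ, hτ]; ring
    rw [e1]
    calc σ * S * √(2 * R + κ) * √(√(1 + t ^ 2)) = σ * (S * √(2 * R + κ) * √(√(1 + t ^ 2))) := by ring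
      _ = σ * (J + p * t) := by rw [h6]
      _ = σ * J + τ ^ 2 * σ * p * t := by rw [hτ]; ring
      _ = σ * J + τ * p * (σ * τ * t) := by ring

end Pool.Agent.R963.KH
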