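import Pool.Agent.R963.KH.Stm

/-!
# KH-9a: the comparison function
-/

open Set Filter Topology

namespace Pool.Agent.R963.KH

noncomputable section

namespace Lya

def q (t : ℝ) : ℝ := √(√(1 + t ^ 2))

lemma q_pos (t : ℝ) : 0 < q t := by unfold q; positivity

lemma q_sq (t : ℝ) : q t ^ 2 = √(1 + t ^ 2) := by
  unfold q; exact Real.sq_sqrt (Real.sqrt_nonneg _)

lemma q_four (t : ℝ) : q t ^ 4 = 1 + t ^ 2 := by
  have h : q t ^ 4 = (q t ^ 2) ^ 2 := by ring
  rw [h, q_sq]
  exact Real.sq_sqrt (by positivity)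

lemma q_ge (t : ℝ) : 1 ≤ q t := by
  by_contra h
  push Not at h
  have h1 : q t ^ 4 < 1 := pow_lt_one₀ (q_pos t).le h (by norm_num)
  rw [q_four] at h1
  nlinarith [sq_nonneg t]

lemma q_neg (t : ℝ) : q (-t) = q t := by unfold q; rw [neg_sq]

lemma q_mono {s t : ℝ} (hs : 0 ≤ s) (hst : s ≤ t) : q s ≤ q t := by
  unfold q
  apply Real.sqrt_le_sqrt
  apply Real.sqrt_le_sqrt
  nlinarith

lemma q_deriv (t : ℝ) : HasDerivAt q (t / (2 * q t ^ 3)) t := by
  have h0 : HasDerivAt (fun t : ℝ => 1 + t ^ 2) (2 * t) t := by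
    simpa using (hasDerivAt_pow 2 t).const_add 1
  have h1 : HasDerivAt (fun t : ℝ => √(1 + t ^ 2)) (2 * t / (2 * √(1 + t ^ 2))) t :=
    h0.sqrt (by positivity)
  have h2 : HasDerivAt (fun t : ℝ => √(√(1 + t ^ 2)))
      (2 * t / (2 * √(1 + t ^ 2)) / (2 * √(√(1 + t ^ 2)))) t := h1.sqrt (by positivity)
  have h3 : 2 * t / (2 * √(1 + t ^ 2)) / (2 * √(√(1 + t ^ 2))) = t / (2 * q t ^ 3) := by
    have := (q_pos t).ne'
    change 2 * t / (2 * √(1 + t ^ 2)) / (2 * q t) = _
    rw [← q_sq]
    field_simp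
  rw [h3] at h2
  exact h2

lemma q_cont : Continuous q := by unfold q; fun_prop

/-- `B` -/
def B (J p x : ℝ) : ℝ := (2 * p + p * x ^ 2 + J * x) / (2 * q x)
/-- `μ` -/
def mu (J p y : ℝ) : ℝ := (p * y - J) / q y

lemma B_cont (J p : ℝ) : Continuous (B J p) := by
  unfold B
  exact Continuous.div (by fun_prop) (continuous_const.mul q_cont)
    fun x => by have := q_pos x; positivity

lemma mu_cont (J p : ℝ) : Continuous (mu J p) := by
  unfold mu
  exact Continuous.div (by fun_prop) q_cont fun x => (q_pos x).ne'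

lemma B_deriv (J p x : ℝ) : HasDerivAt (B J p)
    ((2 * p * x + 3 * p * x ^ 3 + 2 * J + J * x ^ 2) / (4 * q x ^ 5)) x := by
  have hq := q_pos x
  have h0 : HasDerivAt (fun x : ℝ => 2 * p + p * x ^ 2 + J * x) (2 * p * x + J) x := by
    have := (((hasDerivAt_pow 2 x).const_mul p).const_add (2 * p)).add
      ((hasDerivAt_id x).const_mul J)
    refine this.congr_deriv ?_
    push_cast
    ring
  have h1 : HasDerivAt (fun x => 2 * q x) (2 * (x / (2 * q x ^ 3))) x := (q_deriv x).const_mul 2
  refine (h0.div h1 (by positivity)).congr_deriv ?_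
  have h4 := q_four x
  rw [div_eq_div_iff (by positivity) (by positivity)]
  field_simp
  have h5 : q x ^ 4 * q x ^ 0 = 1 + x ^ 2 := by rw [pow_zero, mul_one, h4]
  have e : ∀ Q : ℝ, Q ^ 4 = 1 + x ^ 2 → 
      ((2 * p * x + J) * q x ^ 4 * 2 - (2 * p + p * x ^ 2 + J * x) * x) =
      (2 * p * x + 3 * p * x ^ 3 + 2 * J + J * x ^ 2) := by
    intro Q _
    rw [h4]; ring
  have e' := e _ h4
  nlinarith [e']

lemma mu_deriv (J p x : ℝ) : HasDerivAt (mu J p)
    ((2 * p + p * x ^ 2 + J * x) / (2 * q x ^ 5)) x := by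
  have hq := q_pos x
  have h0 : HasDerivAt (fun x : ℝ => p * x - J) p x := by
    simpa using ((hasDerivAt_id x).const_mul p).sub_const J
  refine (h0.div (q_deriv x) hq.ne').congr_deriv ?_
  have h4 := q_four x
  rw [div_eq_div_iff (by positivity) (by positivity)]
  field_simp
  linear_combination (2 * p) * h4

lemma mu_strict {J p : ℝ} (hJ : 0 < J) (hp : 0 < p) : StrictMonoOn (mu J p) (Ici 0) := by
  refine strictMonoOn_of_deriv_pos (convex_Ici 0) (mu_cont J p).continuousOn fun x hx => ?_
  rw [interior_Ici] at hx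
  have hx' : 0 < x := hx
  rw [(mu_deriv J p x).deriv]
  have := q_pos x
  positivity

/-- mean value bound -/
lemma growth {F F' : ℝ → ℝ} {Y m : ℝ} (hF : ∀ x, HasDerivAt F (F' x) x)
    (hm : ∀ x ∈ Icc 0 Y, m ≤ F' x) {x y : ℝ} (hx : 0 ≤ x) (hxy : x ≤ y) (hy : y ≤ Y) :
    m * (y - x) ≤ F y - F x := by
  refine Convex.mul_sub_le_image_sub_of_le_deriv (convex_Icc 0 Y)
    (fun x _ => (hF x).continuousAt.continuousWithinAt)
    (fun x _ => (hF x).differentiableAt.differentiableWithinAt) (fun x hx => ?_)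
    x ⟨hx, hxy.trans hy⟩ y ⟨hx.trans hxy, hy⟩ hxy
  rw [(hF x).deriv]
  exact hm x (interior_subset hx)

end Lya

open Lya in
theorem t_lya : S_lya := by
  intro J p hJ hp
  -- choice of `Y`
  obtain ⟨Y, hY0, hYmu⟩ : ∃ Y : ℝ, 0 ≤ Y ∧ 1 ≤ mu J p Y := by
    set s := (1 + 2 * p + J) / p with hs
    have hps : p * s = 1 + 2 * p + J := by rw [hs]; field_simp
    have hs1 : 1 ≤ s := by
      rw [hs, le_div_iff₀ hp]; linarith
    refine ⟨s ^ 2 - 1, by nlinarith, ?_⟩
    unfold mu
    rw [le_div_iff₀ (q_pos _), one_mul]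
    have hq : q (s ^ 2 - 1) ≤ s := by
      have h4 := q_four (s ^ 2 - 1)
      by_contra hh
      push Not at hh
      have h5 : s ^ 4 < q (s ^ 2 - 1) ^ 4 := pow_lt_pow_left₀ hh (by linarith) (by norm_num)
      rw [h4] at h5
      nlinarith
    nlinarith [mul_nonneg (sub_nonneg.2 hs1) hp.le, mul_nonneg (sub_nonneg.2 hs1) hJ.le]
  have hqY := q_pos Y
  have hq5 : ∀ x ∈ Icc 0 Y, q x ^ 5 ≤ q Y ^ 5 := fun x hx =>
    pow_le_pow_left₀ (q_pos x).le (q_mono hx.1 hx.2) 5
  set b0 : ℝ := J / (2 * q Y ^ 5) with hb0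
  have hb0pos : 0 < b0 := by positivity
  have hB : ∀ {x y : ℝ}, 0 ≤ x → x ≤ y → y ≤ Y → b0 * (y - x) ≤ B J p y - B J p x := by
    intro x y hx hxy hy
    refine growth (B_deriv J p) (fun x hx => ?_) hx hxy hy
    have h1 := hq5 x hx
    have hqx := q_pos x
    have hx0 := hx.1
    rw [hb0, div_le_div_iff₀ (by positivity) (by positivity)]
    have h2 : 2 * J ≤ 2 * p * x + 3 * p * x ^ 3 + 2 * J + J * x ^ 2 := by
      have : 0 ≤ 2 * p * x + 3 * p * x ^ 3 + J * x ^ 2 := by positivity
      linarith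
    have h3 : J * (4 * q x ^ 5) ≤ J * (4 * q Y ^ 5) := by gcongr
    have h4 : (2 * J) * (2 * q Y ^ 5) ≤
        (2 * p * x + 3 * p * x ^ 3 + 2 * J + J * x ^ 2) * (2 * q Y ^ 5) := by gcongr
    linarith
  set m : ℝ := p / q Y ^ 5 with hm
  have hmpos : 0 < m := by positivity
  have hM : ∀ {x y : ℝ}, 0 ≤ x → x ≤ y → y ≤ Y → m * (y - x) ≤ mu J p y - mu J p x := by
    intro x y hx hxy hy
    refine growth (mu_deriv J p) (fun x hx => ?_) hx hxy hy
    have h1 := hq5 x hx
    have hqx := q_pos x
    have hx0 := hx.1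
    rw [hm, div_le_div_iff₀ (by positivity) (by positivity)]
    have h2 : 2 * p ≤ 2 * p + p * x ^ 2 + J * x := by
      have : 0 ≤ p * x ^ 2 + J * x := by positivity
      linarith
    have h3 : p * (2 * q x ^ 5) ≤ p * (2 * q Y ^ 5) := by gcongr
    have h4 : (2 * p) * (q Y ^ 5) ≤ (2 * p + p * x ^ 2 + J * x) * (q Y ^ 5) := by gcongr
    linarith
  have hmu0 : mu J p 0 = -J := by
    have : q 0 = 1 := by unfold q; simp
    unfold mu; rw [this]; ring
  -- inverse function
  have hex : ∀ a : ℝ, ∃ y : ℝ, (0 ≤ y ∧ y ≤ Y) ∧ mu J p y = max 0 (min 1 a) := by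
    intro a
    obtain ⟨y, hy, hya⟩ := intermediate_value_Icc hY0 (mu_cont J p).continuousOn
      (show max 0 (min 1 a) ∈ Icc (mu J p 0) (mu J p Y) from
        ⟨by rw [hmu0]; exact (neg_nonpos.2 hJ.le).trans (le_max_left _ _),
          max_le (by linarith) ((min_le_left _ _).trans hYmu)⟩)
    exact ⟨y, hy, hya⟩
  choose yy hyy hyymu using hex
  have hyc : Continuous yy := by
    have hcl : Continuous fun a : ℝ => (1 / m) * |max 0 (min 1 a)| := by fun_prop
    rw [continuous_iff_continuousAt]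
    intro a
    have key : ∀ b, |yy b - yy a| ≤ (1 / m) * |max 0 (min 1 b) - max 0 (min 1 a)| := by
      intro b
      rw [div_mul_eq_mul_div, one_mul, le_div_iff₀ hmpos]
      rcases le_total (yy a) (yy b) with h | h
      · have h1 := hM (hyy a).1 h (hyy b).2
        rw [hyymu, hyymu] at h1
        rw [abs_of_nonneg (sub_nonneg.2 h)]
        have := le_abs_self (max 0 (min 1 b) - max 0 (min 1 a))
        linarith
      · have h1 := hM (hyy b).1 h (hyy a).2
        rw [hyymu, hyymu] at h1
        rw [abs_of_nonpos (sub_nonpos.2 h)]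
        have := neg_abs_le (max 0 (min 1 b) - max 0 (min 1 a))
        linarith
    rw [ContinuousAt, tendsto_iff_norm_sub_tendsto_zero]
    refine squeeze_zero (fun _ => norm_nonneg _) (fun b => key b) ?_
    have hc2 : Continuous fun b : ℝ => (1 / m) * |max 0 (min 1 b) - max 0 (min 1 a)| := by
      fun_prop
    have := hc2.tendsto a
    simpa using this
  set δ : ℝ := min (p / 2) (b0 * min 1 J / p) with hδ
  have hδpos : 0 < δ := by
    have : 0 < min 1 J := lt_min one_pos hJ
    exact lt_min (by positivity) (by positivity)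
  have hδ1 : δ ≤ p / 2 := min_le_left _ _
  have hδ2 : p * δ ≤ b0 * min 1 J := by
    have := min_le_right (p / 2) (b0 * min 1 J / p)
    rw [← hδ, le_div_iff₀ hp] at this
    linarith
  have hδ3 : p * δ ≤ b0 := hδ2.trans (by
    have := mul_le_mul_of_nonneg_left (min_le_left 1 J) hb0pos.le
    linarith)
  have hδ4 : p * δ ≤ b0 * J := hδ2.trans (mul_le_mul_of_nonneg_left (min_le_right 1 J) hb0pos.le)
  have hB0 : B J p 0 = p := by
    have : q 0 = 1 := by unfold q; simp
    unfold B; rw [this]; ring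
  refine ⟨fun a => B J p (yy a) - δ * a, δ, ((B_cont J p).comp hyc).sub (by fun_prop), hδpos,
    ?_, ?_⟩
  · intro a ha
    have h1 := hB le_rfl (hyy a).1 (hyy a).2
    rw [hB0] at h1
    have h2 : 0 ≤ b0 * (yy a - 0) := by
      have := (hyy a).1
      rw [sub_zero]; positivity
    have h3 : δ * a ≤ δ * 1 := by gcongr; exact ha.2
    change 0 < B J p (yy a) - δ * a
    linarith
  intro t ht
  change |J + p * t| ≤ q t at ht
  have hqt := q_pos t
  have hqt1 := q_ge t
  change (0 ≤ J + p * t → (2 * p + p * t ^ 2 - J * t) / (2 * q t) ≤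
        B J p (yy ((J + p * t) / q t)) - δ * ((J + p * t) / q t) - δ * ((J + p * t) / q t)) ∧
      (J + p * t ≤ 0 → B J p (yy (-((J + p * t) / q t))) - δ * (-((J + p * t) / q t)) +
        δ * (-((J + p * t) / q t)) ≤ (2 * p + p * t ^ 2 - J * t) / (2 * q t))
  constructor
  · intro h0
    rw [abs_of_nonneg h0] at ht
    set a : ℝ := (J + p * t) / q t with ha
    have ha0 : 0 ≤ a := by positivity
    have ha1 : a ≤ 1 := by rw [ha, div_le_one hqt]; exact ht
    have haq : a * q t = J + p * t := by rw [ha]; field_simp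
    have hmuy : mu J p (yy a) = a := by
      rw [hyymu, min_eq_right ha1, max_eq_right ha0]
    have hyn := (hyy a).1
    have hyq : p * yy a - J = a * q (yy a) := by
      unfold mu at hmuy
      rwa [div_eq_iff (q_pos _).ne'] at hmuy
    rcases le_or_gt t 0 with htn | htp
    · have hA : (2 * p + p * t ^ 2 - J * t) / (2 * q t) = B J p (-t) := by
        unfold B; rw [q_neg]; ring
      have h1 : 2 * a ≤ p * (yy a - -t) := by
        have h2 := q_ge (yy a)
        have : p * (yy a - -t) = a * (q (yy a) + q t) := by linear_combination hyq - haq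
        rw [this]
        nlinarith
      have h3 : -t ≤ yy a := by
        by_contra hh
        push Not at hh
        nlinarith
      have h4 := hB (by linarith) h3 (hyy a).2
      rw [hA]
      have h5 : 2 * (δ * a) ≤ b0 * (yy a - -t) := by
        have h6 : p * (2 * (δ * a)) ≤ p * (b0 * (yy a - -t)) := by
          calc p * (2 * (δ * a)) = (p * δ) * (2 * a) := by ring
            _ ≤ b0 * (2 * a) := by gcongr
            _ ≤ b0 * (p * (yy a - -t)) := by gcongr
            _ = p * (b0 * (yy a - -t)) := by ring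
        exact le_of_mul_le_mul_left h6 hp
      linarith
    · have hA : (2 * p + p * t ^ 2 - J * t) / (2 * q t) ≤ B J p t := by
        unfold B
        gcongr
        nlinarith [mul_pos hJ htp]
      have hlt : t < yy a := by
        by_contra hh
        push Not at hh
        have h1 := (mu_strict hJ hp).monotoneOn (show yy a ∈ Ici 0 from hyn)
          (show t ∈ Ici 0 from htp.le) hh
        rw [hmuy] at h1
        unfold mu at h1
        rw [le_div_iff₀ hqt, haq] at h1
        linarith
      have h1 : 2 * J ≤ p * (yy a - t) := by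
        have h2 : p * (yy a - t) = 2 * J + a * (q (yy a) - q t) := by
          linear_combination hyq + haq
        have h3 := q_mono htp.le hlt.le
        have h4 : 0 ≤ a * (q (yy a) - q t) := mul_nonneg ha0 (by linarith)
        linarith
      have h4 := hB htp.le hlt.le (hyy a).2
      have h5 : 2 * (δ * a) ≤ b0 * (yy a - t) := by
        have h6 : p * (2 * (δ * a)) ≤ p * (b0 * (yy a - t)) := by
          calc p * (2 * (δ * a)) = (p * δ) * (2 * a) := by ring
            _ ≤ (b0 * J) * (2 * a) := by gcongr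
            _ ≤ (b0 * J) * (2 * 1) := by gcongr
            _ = b0 * (2 * J) := by ring
            _ ≤ b0 * (p * (yy a - t)) := by gcongr
            _ = p * (b0 * (yy a - t)) := by ring
        exact le_of_mul_le_mul_left h6 hp
      linarith
  · intro h0
    rw [abs_of_nonpos h0] at ht
    have htn : t < 0 := by
      by_contra hh
      push Not at hh
      nlinarith [mul_nonneg hp.le hh]
    set a : ℝ := -((J + p * t) / q t) with ha
    have ha' : a = (-(J + p * t)) / q t := by rw [ha]; ring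
    have ha0 : 0 ≤ a := by rw [ha']; exact div_nonneg (by linarith) hqt.le
    have ha1 : a ≤ 1 := by rw [ha', div_le_one hqt]; exact ht
    have hmuy : mu J p (yy a) = a := by
      rw [hyymu, min_eq_right ha1, max_eq_right ha0]
    have hmut : mu J p (-t) = a := by
      unfold mu
      rw [q_neg, ha']
      ring
    have heq : yy a = -t := (mu_strict hJ hp).injOn (show yy a ∈ Ici 0 from (hyy a).1)
      (show -t ∈ Ici 0 from (by simp; exact htn.le)) (by rw [hmuy, hmut])
    rw [heq]
    have hA : (2 * p + p * t ^ 2 - J * t) / (2 * q t) = B J p (-t) := by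
      unfold B; rw [q_neg]; ring
    rw [hA]
    linarith

end

end Pool.Agent.R963.KH
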