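import Mathlib

open scoped ContDiff Topology
open Set Filter

namespace Pool.Agent.R963.KH

noncomputable section

/-- phase space, coordinates `x y z p_x p_y p_z` -/
abbrev V := Fin 6 → ℝ

def kap : ℝ := 1 / (4 * Real.pi)

def r2 (w : V) : ℝ := w 0 ^ 2 + w 1 ^ 2
def rho2 (w : V) : ℝ := √((w 0 ^ 2 + w 1 ^ 2) ^ 2 + 16 * w 2 ^ 2)

/-- the Hamiltonian -/
def Ham (w : V) : ℝ :=
  (1 / 2) * ((w 3 - (1 / 2) * w 1 * w 5) ^ 2 + (w 4 + (1 / 2) * w 0 * w 5) ^ 2)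
    - 1 / (8 * Real.pi * √((w 0 ^ 2 + w 1 ^ 2) ^ 2 + 16 * w 2 ^ 2))

/-- `p_θ` -/
def pth (w : V) : ℝ := w 0 * w 4 - w 1 * w 3

/-- `J` -/
def Jf (w : V) : ℝ := w 0 * w 3 + w 1 * w 4 + 2 * w 2 * w 5

/-- configuration is not the origin -/
def Wq : Set V := {w | ¬ (w 0 = 0 ∧ w 1 = 0 ∧ w 2 = 0)}

/-- `{H ≠ 0}` -/
def W : Set V := {w | w ∈ Wq ∧ Ham w ≠ 0}

/-- partial derivative -/
def pd (F : V → ℝ) (i : Fin 6) (w : V) : ℝ := fderiv ℝ F w (Pi.single i 1)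

/-- Poisson bracket -/
def PB (F G : V → ℝ) (w : V) : ℝ :=
  (pd F 0 w * pd G 3 w - pd F 3 w * pd G 0 w) + (pd F 1 w * pd G 4 w - pd F 4 w * pd G 1 w)
    + (pd F 2 w * pd G 5 w - pd F 5 w * pd G 2 w)

/-- the Hamiltonian vector field -/
def XH (w : V) : V :=
  ![w 3 - (1 / 2) * w 1 * w 5, w 4 + (1 / 2) * w 0 * w 5,
    (1 / 2) * (w 0 * (w 4 + (1 / 2) * w 0 * w 5) - w 1 * (w 3 - (1 / 2) * w 1 * w 5)),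
    -((1 / 2) * w 5 * (w 4 + (1 / 2) * w 0 * w 5) + kap * w 0 * r2 w / rho2 w ^ 3),
    (1 / 2) * w 5 * (w 3 - (1 / 2) * w 1 * w 5) - kap * w 1 * r2 w / rho2 w ^ 3,
    -(8 * kap * w 2 / rho2 w ^ 3)]

/-- generator of rotations -/
def Xth (w : V) : V := ![-w 1, w 0, 0, -w 4, w 3, 0]

def Rot (θ : ℝ) (w : V) : V :=
  ![Real.cos θ * w 0 - Real.sin θ * w 1, Real.sin θ * w 0 + Real.cos θ * w 1, w 2,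
    Real.cos θ * w 3 - Real.sin θ * w 4, Real.sin θ * w 3 + Real.cos θ * w 4, w 5]

/-- time reversal -/
def Rev (w : V) : V := ![w 0, w 1, w 2, -w 3, -w 4, -w 5]

/-- time function -/
def Tm (w : V) : ℝ := Jf w / (2 * Ham w)

/-- a smooth complete reparametrised flow of `XH` on `Wq` -/
structure FD where
  f : V → ℝ
  Ψ : ℝ → V → V
  f_smooth : ContDiff ℝ ∞ f
  f_nonneg : ∀ w, 0 ≤ f w
  f_pos : ∀ w, 0 < f w ↔ w ∈ Wq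
  Y_smooth : ContDiff ℝ ∞ (fun w => f w • XH w)
  Y_lip : ∃ K, LipschitzWith K (fun w => f w • XH w)
  Ψ_smooth : ContDiff ℝ ∞ (fun q : ℝ × V => Ψ q.1 q.2)
  Ψ_zero : ∀ w, Ψ 0 w = w
  Ψ_add : ∀ s t w, Ψ (s + t) w = Ψ s (Ψ t w)
  Ψ_deriv : ∀ w τ, HasDerivAt (fun τ => Ψ τ w) (f (Ψ τ w) • XH (Ψ τ w)) τ

/-- `β(w)` : supremum of the time function along the orbit -/
def bet (D : FD) (w : V) : EReal := ⨆ τ : ℝ, ((Tm (D.Ψ τ w) : ℝ) : EReal)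
def alp (D : FD) (w : V) : EReal := ⨅ τ : ℝ, ((Tm (D.Ψ τ w) : ℝ) : EReal)

/-- the orbit of `u` is separated from all other orbits -/
def HG (D : FD) (u : V) : Prop :=
  ∀ (v : ℕ → V) (τ : ℕ → ℝ) (w : V), (∀ n, v n ∈ W) → Tendsto v atTop (𝓝 u) → w ∈ W →
    Tendsto (fun n => D.Ψ (τ n) (v n)) atTop (𝓝 w) → ∃ σ, D.Ψ σ u = w

open Classical in
/-- transport of `h` from the slice `{Tm = s}` along the flow, extended by zero -/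
def Fh (D : FD) (s : ℝ) (h : V → ℝ) (w : V) : ℝ :=
  if hc : ∃ τ, Tm (D.Ψ τ w) = s then h (D.Ψ hc.choose w) else 0

/-! functions near collision -/
def tt (w : V) : ℝ := 4 * w 2 / r2 w
def aa (w : V) : ℝ := w 0 * w 3 + w 1 * w 4
def bb (w : V) : ℝ := w 0 * w 4 - w 1 * w 3 + (1 / 2) * r2 w * w 5
def EE (w : V) : ℝ := (bb w * r2 w - 4 * aa w * w 2) / (rho2 w * √(aa w ^ 2 + bb w ^ 2))
def SS (w : V) : ℝ := (aa w * r2 w + 4 * bb w * w 2) / (rho2 w * √(aa w ^ 2 + bb w ^ 2))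

/-- `c` -/
def cc (t J p : ℝ) : ℝ := (J + p * t) / √(1 + t ^ 2)
/-- `Ā` -/
def Ab (κ t E J p R : ℝ) : ℝ :=
  (p + p * t ^ 2 / 2 - J * t / 2) / √(1 + t ^ 2) + E * R / (√(√(1 + t ^ 2)) * √(2 * R + κ))

/-- the equations along a trajectory (at time `τ`) -/
structure TrajAt (κ p H : ℝ) (k ρ J T t E S : ℝ → ℝ) (τ : ℝ) : Prop where
  k_pos : 0 < k τ
  ρ_pos : 0 < ρ τ
  dρ : HasDerivAt ρ (2 * cc (t τ) (J τ) p * k τ) τ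
  dJ : HasDerivAt J (2 * H * k τ) τ
  dT : HasDerivAt T (k τ) τ
  dE : 0 < 2 * (ρ τ * H) + κ →
    HasDerivAt E (-(2 * k τ / ρ τ) * S τ * Ab κ (t τ) (E τ) (J τ) p (ρ τ * H)) τ
  dS : 0 < 2 * (ρ τ * H) + κ →
    HasDerivAt S ((2 * k τ / ρ τ) * E τ * Ab κ (t τ) (E τ) (J τ) p (ρ τ * H)) τ
  con1 : 0 < 2 * (ρ τ * H) + κ → E τ ^ 2 + S τ ^ 2 = 1
  con2 : 0 < 2 * (ρ τ * H) + κ →
    S τ * √(2 * (ρ τ * H) + κ) * √(√(1 + (t τ) ^ 2)) = J τ + p * t τ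

/-! ### Statements of the pieces -/

/-- KH-1 complete reparametrisation -/
def S_comp : Prop := ∀ (U : Set V) (X : V → V), IsOpen U → ContDiffOn ℝ ∞ X U →
  ∃ f : V → ℝ, ContDiff ℝ ∞ f ∧ (∀ w, 0 ≤ f w) ∧ (∀ w, 0 < f w ↔ w ∈ U) ∧
    ContDiff ℝ ∞ (fun w => f w • X w) ∧ ∃ K, LipschitzWith K (fun w => f w • X w)

/-- KH-2 smooth global flow of a Lipschitz field -/
def S_flow : Prop := ∀ (Y : V → V), ContDiff ℝ ∞ Y → (∃ K, LipschitzWith K Y) →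
  ∃ Ψ : ℝ → V → V, ContDiff ℝ ∞ (fun q : ℝ × V => Ψ q.1 q.2) ∧ (∀ w, Ψ 0 w = w) ∧
    (∀ s t w, Ψ (s + t) w = Ψ s (Ψ t w)) ∧ (∀ w τ, HasDerivAt (fun τ => Ψ τ w) (Y (Ψ τ w)) τ)

/-- KH-3 the vector field and the basic functions -/
def S_field : Prop :=
  IsOpen Wq ∧ IsOpen W ∧ ContDiffOn ℝ ∞ XH Wq ∧ ContDiffOn ℝ ∞ Ham Wq ∧ ContDiffOn ℝ ∞ Tm W ∧
  (∀ w ∈ Wq, fderiv ℝ Ham w (XH w) = 0 ∧ fderiv ℝ pth w (XH w) = 0 ∧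
    fderiv ℝ Jf w (XH w) = 2 * Ham w) ∧
  (∀ w ∈ W, fderiv ℝ Tm w (XH w) = 1) ∧
  (∀ (F : V → ℝ) (w : V), w ∈ Wq → PB F Ham w = fderiv ℝ F w (XH w)) ∧
  (∀ (F : V → ℝ) (w : V), PB F pth w = fderiv ℝ F w (Xth w)) ∧
  (∀ w ∈ Wq, fderiv ℝ Ham w (Xth w) = 0)

/-- KH-4 properties of the flow -/
def S_prop : Prop := ∀ (D : FD) (w : V), w ∈ W → ∀ τ : ℝ,
  D.Ψ τ w ∈ W ∧ Ham (D.Ψ τ w) = Ham w ∧ pth (D.Ψ τ w) = pth w ∧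
  HasDerivAt (fun τ => Tm (D.Ψ τ w)) (D.f (D.Ψ τ w)) τ ∧
  HasDerivAt (fun τ => Jf (D.Ψ τ w)) (2 * Ham w * D.f (D.Ψ τ w)) τ ∧ 0 < D.f (D.Ψ τ w)

/-- KH-5 symmetries permute the orbits -/
def S_sym : Prop := ∀ (D : FD),
  (∀ (θ : ℝ) (w : V), w ∈ W → Rot θ w ∈ W ∧ Tm (Rot θ w) = Tm w ∧
    ∃ K : ℝ → ℝ, Function.Surjective K ∧ ∀ τ, Rot θ (D.Ψ τ w) = D.Ψ (K τ) (Rot θ w)) ∧
  (∀ (w : V), w ∈ W → Rev w ∈ W ∧ Tm (Rev w) = - Tm w ∧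
    ∃ K : ℝ → ℝ, Function.Surjective K ∧ ∀ τ, Rev (D.Ψ τ w) = D.Ψ (K τ) (Rev w))

/-- KH-6 continuity of `β`, `α` gives separation -/
def S_haus : Prop := ∀ (D : FD) (u : V), u ∈ W → ContinuousWithinAt (bet D) W u →
  ContinuousWithinAt (alp D) W u → HG D u

/-- KH-7 finite `β` means collision -/
def S_coll : Prop := ∀ (D : FD) (w : V), w ∈ W → bet D w < ⊤ →
  Tendsto (fun τ => rho2 (D.Ψ τ w)) atTop (𝓝 0)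

/-- KH-8 the equations near collision -/
def S_traj : Prop := ∀ (D : FD) (w : V), w ∈ W → pth w ≠ 0 → ∀ τ : ℝ,
  TrajAt kap (pth w) (Ham w) (fun τ => D.f (D.Ψ τ w)) (fun τ => rho2 (D.Ψ τ w))
    (fun τ => Jf (D.Ψ τ w)) (fun τ => Tm (D.Ψ τ w)) (fun τ => tt (D.Ψ τ w))
    (fun τ => EE (D.Ψ τ w)) (fun τ => SS (D.Ψ τ w)) τ

/-- KH-9 existence of the Lyapunov corrector -/
def S_ly : Prop := ∀ (κ J₀ p₀ : ℝ), 0 < κ → J₀ ≠ 0 → p₀ ≠ 0 →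
  ∃ (g : ℝ → ℝ) (η δ ε : ℝ), ContDiff ℝ 1 g ∧ 0 < δ ∧ 0 < ε ∧ ∀ t E S J p R : ℝ,
    |J - J₀| < ε → |p - p₀| < ε → |R| < ε → E ^ 2 + S ^ 2 = 1 → 0 < 2 * R + κ →
    S * √(2 * R + κ) * √(√(1 + t ^ 2)) = J + p * t →
    δ ≤ (if 0 < J₀ then 1 else -1) *
      (cc t J p - deriv g E * S * Ab κ t E J p R + η * (E ^ 2 - S ^ 2) * Ab κ t E J p R)

/-- KH-10 trapping for `J₀ < 0` -/
def S_trap : Prop := ∀ (κ J₀ p₀ H₀ : ℝ), 0 < κ → J₀ < 0 → p₀ ≠ 0 →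
  ∃ ε C : ℝ, 0 < ε ∧ 0 < C ∧ ∀ (p H : ℝ) (k ρ J T t E S : ℝ → ℝ), |p - p₀| < ε → |H - H₀| < ε →
    |J 0 - J₀| < ε → ρ 0 < ε → (∀ τ, 0 ≤ τ → TrajAt κ p H k ρ J T t E S τ) →
    ∀ τ, 0 ≤ τ → T τ ≤ T 0 + C * ρ 0

/-- KH-10 no forward collision with `J₀ > 0` -/
def S_ne : Prop := ∀ (κ J₀ p H : ℝ) (k ρ J T t E S : ℝ → ℝ), 0 < κ → 0 < J₀ → p ≠ 0 →
  (∀ τ, 0 ≤ τ → TrajAt κ p H k ρ J T t E S τ) → Tendsto ρ atTop (𝓝 0) →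
  Tendsto J atTop (𝓝 J₀) → False

/-- KH-11 continuity of `β` -/
def S_beta : Prop := ∀ (D : FD) (w : V), w ∈ W → pth w ≠ 0 → bet D w ≠ 0 →
  ContinuousWithinAt (bet D) W w

/-- KH-12 the separated orbits contain an open dense set -/
def S_good : Prop := ∀ (D : FD), ∃ G : Set V, IsOpen G ∧ G ⊆ W ∧ W ⊆ closure G ∧
  (∀ u ∈ G, HG D u) ∧ ∀ (θ : ℝ), ∀ u ∈ G, Rot θ u ∈ G

/-- KH-13 smooth extension -/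
def S_ext : Prop := ∀ (D : FD) (h : V → ℝ) (s : ℝ), ContDiff ℝ ∞ h → HasCompactSupport h →
  (∀ u ∈ tsupport h, u ∈ W ∧ HG D u) → (∀ θ w, h (Rot θ w) = h w) →
  ContDiffOn ℝ ∞ (Fh D s h) W ∧ (∀ w ∈ W, fderiv ℝ (Fh D s h) w (XH w) = 0) ∧
  (∀ w ∈ W, fderiv ℝ (Fh D s h) w (Xth w) = 0) ∧
  (∀ w ∈ W, Tm w = s → ∀ v, fderiv ℝ Tm w v = 0 →
    fderiv ℝ (Fh D s h) w v = fderiv ℝ h w v)

/-- KH-14 bump functions -/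
def S_bump : Prop := ∀ (w₀ : V) (O : Set V), w₀ ∈ W → pth w₀ ≠ 0 → w₀ 2 ≠ 0 → IsOpen O →
  w₀ ∈ O → (∀ θ, ∀ w ∈ O, Rot θ w ∈ O) → ∃ h : V → ℝ, ContDiff ℝ ∞ h ∧ HasCompactSupport h ∧
  tsupport h ⊆ O ∧ (∀ θ w, h (Rot θ w) = h w) ∧ ∃ v : V, fderiv ℝ Ham w₀ v = 0 ∧
    fderiv ℝ pth w₀ v = 0 ∧ fderiv ℝ Tm w₀ v = 0 ∧ fderiv ℝ h w₀ v ≠ 0

/-- KH-15 sums -/
def S_sum : Prop := ∀ (A B : V → ℝ) (X X' : V → V) (U : Set V), IsOpen U →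
  ContDiffOn ℝ ∞ A U → ContDiffOn ℝ ∞ B U →
  (∀ O : Set V, IsOpen O → O.Nonempty → O ⊆ U → ∃ F : V → ℝ, ContDiffOn ℝ ∞ F U ∧
    (∀ w ∈ U, fderiv ℝ F w (X w) = 0 ∧ fderiv ℝ F w (X' w) = 0) ∧ ∃ w ∈ O,
      LinearIndependent ℝ ![fderiv ℝ A w, fderiv ℝ B w, fderiv ℝ F w]) →
  ∃ F : V → ℝ, ContDiffOn ℝ ∞ F U ∧
    (∀ w ∈ U, fderiv ℝ F w (X w) = 0 ∧ fderiv ℝ F w (X' w) = 0) ∧
    ∃ G : Set V, IsOpen G ∧ G ⊆ U ∧ U ⊆ closure G ∧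
      ∀ w ∈ G, LinearIndependent ℝ ![fderiv ℝ A w, fderiv ℝ B w, fderiv ℝ F w]

/-- KH-9a the comparison function (`κ = 1`, `J, p > 0`) -/
def S_lya : Prop := ∀ (J p : ℝ), 0 < J → 0 < p →
  ∃ (Om : ℝ → ℝ) (δ : ℝ), Continuous Om ∧ 0 < δ ∧ (∀ a ∈ Icc (0 : ℝ) 1, 0 < Om a) ∧
    ∀ t : ℝ, |J + p * t| ≤ √(√(1 + t ^ 2)) →
      (0 ≤ J + p * t → (2 * p + p * t ^ 2 - J * t) / (2 * √(√(1 + t ^ 2))) ≤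
        Om ((J + p * t) / √(√(1 + t ^ 2))) - δ * ((J + p * t) / √(√(1 + t ^ 2)))) ∧
      (J + p * t ≤ 0 → Om (-((J + p * t) / √(√(1 + t ^ 2)))) +
        δ * (-((J + p * t) / √(√(1 + t ^ 2)))) ≤
          (2 * p + p * t ^ 2 - J * t) / (2 * √(√(1 + t ^ 2))))

/-- KH-13a the crossing time is smooth -/
def S_ift : Prop := ∀ (D : FD) (w : V) (τ₀ : ℝ), w ∈ W → ∃ θ : V → ℝ, ContDiffAt ℝ ∞ θ w ∧
  θ w = τ₀ ∧ ∀ᶠ w' in 𝓝 w, Tm (D.Ψ (θ w') w') = Tm (D.Ψ τ₀ w)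

/-- KH-14a a good vector -/
def S_vec : Prop := ∀ (w : V), w ∈ W → pth w ≠ 0 → ∃ v : V, fderiv ℝ Ham w v = 0 ∧
  fderiv ℝ pth w v = 0 ∧ fderiv ℝ Tm w v = 0 ∧
  ¬ (fderiv ℝ r2 w v = 0 ∧ fderiv ℝ aa w v = 0 ∧ fderiv ℝ pth w v = 0 ∧ v 2 = 0 ∧ v 5 = 0)

/-- KH-15a zeros of power series -/
def S_pser : Prop := ∀ (a : ℕ → ℝ), (∃ C, ∀ n, |a n| ≤ C) → (∃ i, a i ≠ 0) →
  Set.Countable {s : ℝ | s ∈ Ioo (0 : ℝ) 1 ∧ ∑' n, a n * s ^ n = 0}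

/-- KH-16 independence of `dH`, `dp_θ` -/
def S_ind : Prop := ∀ w : V, w ∈ Wq → pth w ≠ 0 → w 2 ≠ 0 →
  LinearIndependent ℝ ![fderiv ℝ Ham w, fderiv ℝ pth w]

/-- the final statement -/
def S_final : Prop := ∃ F : V → ℝ, ContDiffOn ℝ ∞ F W ∧
  (∀ w ∈ W, PB F Ham w = 0 ∧ PB F pth w = 0 ∧ PB pth Ham w = 0) ∧
  ∃ G : Set V, IsOpen G ∧ G ⊆ W ∧ W ⊆ closure G ∧
    ∀ w ∈ G, LinearIndependent ℝ ![fderiv ℝ Ham w, fderiv ℝ pth w, fderiv ℝ F w]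

end

end Pool.Agent.R963.KH
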