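import Mathlib
import Pool.Agent.R963.KH.Stm

open scoped ContDiff Topology
open Set Filter

namespace Pool.Agent.R963.KH

/-- KH-10b : no forward collision with `J₀ > 0` -/
theorem t_ne (h : S_ly) : S_ne := by
  intro κ J₀ p H k ρ J T t E S hκ hJ₀ hp hT hρ hJ
  obtain ⟨g, η, δ, ε, hg, hδ, hε, hly⟩ := h κ J₀ p hκ hJ₀.ne' hp
  -- eventually close
  have e1 : ∀ᶠ τ in atTop, |J τ - J₀| < ε := by
    have := (Metric.tendsto_nhds.mp hJ) ε hε
    simpa [Real.dist_eq] using this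
  have hρH : Tendsto (fun τ => ρ τ * H) atTop (𝓝 0) := by
    simpa using hρ.mul_const H
  have e2 : ∀ᶠ τ in atTop, |ρ τ * H| < min ε (κ / 4) := by
    have := (Metric.tendsto_nhds.mp hρH) (min ε (κ / 4)) (lt_min hε (by positivity))
    simpa [Real.dist_eq] using this
  obtain ⟨τ0, hτ0⟩ := eventually_atTop.mp (e1.and (e2.and (eventually_ge_atTop 0)))
  have hpos : ∀ τ, τ0 ≤ τ → 0 < 2 * (ρ τ * H) + κ := by
    intro τ hτ
    have h2 := (hτ0 τ hτ).2.1
    have h3 := (abs_lt.mp (lt_of_lt_of_le h2 (min_le_right _ _))).1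
    linarith
  have key : ∀ τ, τ0 ≤ τ → δ ≤ cc (t τ) (J τ) p -
      deriv g (E τ) * S τ * Ab κ (t τ) (E τ) (J τ) p (ρ τ * H) +
      η * (E τ ^ 2 - S τ ^ 2) * Ab κ (t τ) (E τ) (J τ) p (ρ τ * H) := by
    intro τ hτ
    obtain ⟨h1, h2, h3⟩ := hτ0 τ hτ
    have hTr := hT τ h3
    have := hly (t τ) (E τ) (S τ) (J τ) p (ρ τ * H) h1 (by simpa using hε)
      (lt_of_lt_of_le h2 (min_le_left _ _)) (hTr.con1 (hpos τ hτ)) (hpos τ hτ)
      (hTr.con2 (hpos τ hτ))
    rw [if_pos hJ₀, one_mul] at this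
    exact this
  have hdQ : ∀ τ, τ0 ≤ τ → HasDerivAt (fun s => ρ s * Real.exp (g (E s) + η * (E s * S s)))
      (2 * k τ * Real.exp (g (E τ) + η * (E τ * S τ)) * (cc (t τ) (J τ) p -
      deriv g (E τ) * S τ * Ab κ (t τ) (E τ) (J τ) p (ρ τ * H) +
      η * (E τ ^ 2 - S τ ^ 2) * Ab κ (t τ) (E τ) (J τ) p (ρ τ * H))) τ := by
    intro τ hτ
    obtain ⟨h1, h2, h3⟩ := hτ0 τ hτ
    have hTr := hT τ h3
    have hE := hTr.dE (hpos τ hτ)
    have hS := hTr.dS (hpos τ hτ)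
    have hgd : HasDerivAt g (deriv g (E τ)) (E τ) :=
      ((hg.differentiable (by norm_num)) (E τ)).hasDerivAt
    have hgE := hgd.comp τ hE
    have hES := (hE.mul hS).const_mul η
    have hsum := (hgE.add hES).exp
    have hQ := hTr.dρ.mul hsum
    have hρ0 : ρ τ ≠ 0 := hTr.ρ_pos.ne'
    refine (hQ.congr_deriv ?_)
    simp only [Function.comp, Pi.add_apply, Pi.mul_apply]
    field_simp
    ring
  have hmono : MonotoneOn (fun s => ρ s * Real.exp (g (E s) + η * (E s * S s))) (Ici τ0) := by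
    apply monotoneOn_of_deriv_nonneg (convex_Ici τ0)
    · intro s hs
      exact (hdQ s hs).continuousAt.continuousWithinAt
    · intro s hs
      rw [interior_Ici] at hs
      exact (hdQ s (le_of_lt hs)).differentiableAt.differentiableWithinAt
    · intro s hs
      rw [interior_Ici] at hs
      have hs' : τ0 ≤ s := le_of_lt hs
      rw [(hdQ s hs').deriv]
      have hk := (hT s (hτ0 s hs').2.2).k_pos
      have := key s hs'
      apply mul_nonneg
      · positivity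
      · linarith
  obtain ⟨B, hB⟩ := (isCompact_Icc (a := (-1 : ℝ)) (b := 1)).bddAbove_image
    (hg.continuous.continuousOn)
  have hbd : ∀ τ, τ0 ≤ τ → ρ τ * Real.exp (g (E τ) + η * (E τ * S τ)) ≤
      ρ τ * Real.exp (B + |η|) := by
    intro τ hτ
    obtain ⟨h1, h2, h3⟩ := hτ0 τ hτ
    have hTr := hT τ h3
    have hc := hTr.con1 (hpos τ hτ)
    have hE1 : |E τ| ≤ 1 := by
      rw [← sq_le_one_iff_abs_le_one]; nlinarith [sq_nonneg (S τ)]
    have hS1 : |S τ| ≤ 1 := by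
      rw [← sq_le_one_iff_abs_le_one]; nlinarith [sq_nonneg (E τ)]
    have hgB : g (E τ) ≤ B := hB ⟨E τ, ⟨(abs_le.mp hE1).1, (abs_le.mp hE1).2⟩, rfl⟩
    have hηES : η * (E τ * S τ) ≤ |η| := by
      calc η * (E τ * S τ) ≤ |η * (E τ * S τ)| := le_abs_self _
        _ = |η| * (|E τ| * |S τ|) := by rw [abs_mul, abs_mul]
        _ ≤ |η| * (1 * 1) := by gcongr
        _ = |η| := by ring
    apply mul_le_mul_of_nonneg_left _ hTr.ρ_pos.le
    apply Real.exp_le_exp.mpr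
    linarith
  have hQ0 : 0 < ρ τ0 * Real.exp (g (E τ0) + η * (E τ0 * S τ0)) :=
    mul_pos (hT τ0 (hτ0 τ0 le_rfl).2.2).ρ_pos (Real.exp_pos _)
  have hlim : Tendsto (fun τ => ρ τ * Real.exp (B + |η|)) atTop (𝓝 0) := by
    simpa using hρ.mul_const (Real.exp (B + |η|))
  have hle : ρ τ0 * Real.exp (g (E τ0) + η * (E τ0 * S τ0)) ≤ 0 := by
    apply ge_of_tendsto hlim
    filter_upwards [eventually_ge_atTop τ0] with τ hτ
    exact (hmono (mem_Ici.mpr le_rfl) (mem_Ici.mpr hτ) hτ).trans (hbd τ hτ)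
  linarith

end Pool.Agent.R963.KH
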