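import Pool.Agent.R963.KH.Stm

/-! KH-4: conservation laws along the complete flow. -/

open scoped ContDiff Topology
open Set Filter

namespace Pool.Agent.R963.KH

namespace P4

set_option maxHeartbeats 400000

theorem const_of_notMem (D : FD) (u : V) (hu : u ∉ Wq) (s : ℝ) : D.Ψ s u = u := by
  obtain ⟨K, hK⟩ := D.Y_lip
  have hfu : D.f u = 0 := by
    by_contra h
    exact hu ((D.f_pos u).1 (lt_of_le_of_ne (D.f_nonneg u) (Ne.symm h)))
  have h := ODE_solution_unique_univ (v := fun _ w => D.f w • XH w) (s := fun _ => Set.univ)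
    (K := K) (f := fun s => D.Ψ s u) (g := fun _ => u) (t₀ := 0)
    (fun t => hK.lipschitzOnWith) (fun t => ⟨D.Ψ_deriv u t, mem_univ _⟩)
    (fun t => ⟨by
      have := hasDerivAt_const t u
      rw [hfu, zero_smul]
      exact this, mem_univ _⟩) (D.Ψ_zero u)
  exact congrFun h s

theorem mem_Wq (D : FD) (w : V) (hw : w ∈ Wq) (τ : ℝ) : D.Ψ τ w ∈ Wq := by
  by_contra h
  have h1 := const_of_notMem D _ h (-τ)
  have h2 : D.Ψ (-τ) (D.Ψ τ w) = w := by
    rw [← D.Ψ_add, neg_add_cancel, D.Ψ_zero]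
  rw [h1] at h2
  rw [h2] at h
  exact h hw

theorem chain (D : FD) (F : V → ℝ) (w : V) (τ : ℝ) (hF : DifferentiableAt ℝ F (D.Ψ τ w)) :
    HasDerivAt (fun τ => F (D.Ψ τ w)) (D.f (D.Ψ τ w) * fderiv ℝ F (D.Ψ τ w) (XH (D.Ψ τ w))) τ := by
  have h := hF.hasFDerivAt.comp_hasDerivAt τ (D.Ψ_deriv w τ)
  rw [map_smul, smul_eq_mul] at h
  exact h

theorem diff_pth (w : V) : DifferentiableAt ℝ pth w := by
  unfold pth; fun_prop

theorem diff_Jf (w : V) : DifferentiableAt ℝ Jf w := by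
  unfold Jf; fun_prop

end P4

open P4 in
theorem t_prop (hf : S_field) : S_prop := by
  obtain ⟨hWq, hW, -, hHam, hTm, h1, h2, -⟩ := hf
  intro D w hw τ
  have hq : ∀ τ, D.Ψ τ w ∈ Wq := mem_Wq D w hw.1
  have hHd : ∀ τ, DifferentiableAt ℝ Ham (D.Ψ τ w) := fun τ =>
    ((hHam.differentiableOn (by simp)) _ (hq τ)).differentiableAt (hWq.mem_nhds (hq τ))
  have cH : ∀ τ, HasDerivAt (fun τ => Ham (D.Ψ τ w)) 0 τ := by
    intro τ
    have := chain D Ham w τ (hHd τ)
    rwa [(h1 _ (hq τ)).1, mul_zero] at this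
  have cP : ∀ τ, HasDerivAt (fun τ => pth (D.Ψ τ w)) 0 τ := by
    intro τ
    have := chain D pth w τ (diff_pth _)
    rwa [(h1 _ (hq τ)).2.1, mul_zero] at this
  have eH : ∀ τ, Ham (D.Ψ τ w) = Ham w := by
    intro τ
    have := is_const_of_deriv_eq_zero (f := fun τ => Ham (D.Ψ τ w))
      (fun τ => (cH τ).differentiableAt) (fun τ => (cH τ).deriv) τ 0
    simp only [D.Ψ_zero] at this
    exact this
  have eP : ∀ τ, pth (D.Ψ τ w) = pth w := by
    intro τ
    have := is_const_of_deriv_eq_zero (f := fun τ => pth (D.Ψ τ w))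
      (fun τ => (cP τ).differentiableAt) (fun τ => (cP τ).deriv) τ 0
    simp only [D.Ψ_zero] at this
    exact this
  have hm : D.Ψ τ w ∈ W := ⟨hq τ, by rw [eH]; exact hw.2⟩
  refine ⟨hm, eH τ, eP τ, ?_, ?_, (D.f_pos _).2 (hq τ)⟩
  · have hT : DifferentiableAt ℝ Tm (D.Ψ τ w) :=
      ((hTm.differentiableOn (by simp)) _ hm).differentiableAt (hW.mem_nhds hm)
    have := chain D Tm w τ hT
    rwa [h2 _ hm, mul_one] at this
  · have := chain D Jf w τ (diff_Jf _)
    rw [(h1 _ (hq τ)).2.2, eH τ, mul_comm] at this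
    exact this

end Pool.Agent.R963.KH
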