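import Pool.Agent.R963.KH.Stm

set_option autoImplicit false
set_option maxHeartbeats 400000

open scoped ContDiff Topology
open Set Filter

namespace Pool.Agent.R963.KH

theorem t_pser : S_pser := by
  intro a ⟨C, hC⟩ ⟨i, hi⟩
  set p : FormalMultilinearSeries ℝ ℝ ℝ := FormalMultilinearSeries.ofScalars ℝ a with hp
  have hrad : (1 : ENNReal) ≤ p.radius := by
    have h := p.le_radius_of_bound C (r := 1) (fun n => by
      rw [NNReal.coe_one, one_pow, mul_one, hp, FormalMultilinearSeries.ofScalars_norm]
      exact hC n)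
    simpa using h
  have hpos : 0 < p.radius := lt_of_lt_of_le one_pos hrad
  have hF := p.hasFPowerSeriesOnBall hpos
  set F : ℝ → ℝ := p.sum with hFdef
  have hFs : ∀ s, F s = ∑' n, a n * s ^ n := by
    intro s
    have := FormalMultilinearSeries.ofScalars_sum_eq (𝕜 := ℝ) (E := ℝ) a s
    exact this
  have hsub : Metric.ball (0 : ℝ) 1 ⊆ Metric.eball (0 : ℝ) p.radius := by
    intro x hx
    rw [Metric.mem_eball]
    rw [Metric.mem_ball] at hx
    refine lt_of_lt_of_le ?_ hrad
    rw [edist_dist, ← ENNReal.ofReal_one]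
    exact (ENNReal.ofReal_lt_ofReal_iff one_pos).2 hx
  have han : AnalyticOnNhd ℝ F (Metric.ball 0 1) := hF.analyticOnNhd.mono hsub
  have hpre : IsPreconnected (Metric.ball (0 : ℝ) 1) := (convex_ball 0 1).isPreconnected
  have hnz : ¬ EqOn F 0 (Metric.ball 0 1) := by
    intro h0
    have h1 : F =ᶠ[𝓝 0] 0 := by
      filter_upwards [Metric.ball_mem_nhds (0 : ℝ) one_pos] with x hx
      exact h0 hx
    have h2 : HasFPowerSeriesAt 0 p 0 := hF.hasFPowerSeriesAt.congr h1
    have h3 := h2.eq_zero
    rw [hp, FormalMultilinearSeries.ofScalars_series_eq_zero] at h3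
    exact hi (congrFun h3 i)
  set Z : Set ℝ := {s : ℝ | s ∈ Ioo (0 : ℝ) 1 ∧ ∑' n, a n * s ^ n = 0} with hZ
  have hd : DiscreteTopology Z := by
    rw [discreteTopology_subtype_iff]
    intro x hx
    rw [inf_principal_eq_bot]
    have hxb : x ∈ Metric.ball (0 : ℝ) 1 := by
      rw [Metric.mem_ball, dist_zero_right, Real.norm_eq_abs, abs_of_pos hx.1.1]
      exact hx.1.2
    rcases (han x hxb).eventually_eq_zero_or_eventually_ne_zero with h | h
    · exact absurd (han.eqOn_zero_of_preconnected_of_eventuallyEq_zero hpre hxb h) hnz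
    · filter_upwards [h] with z hz hzZ
      apply hz
      rw [hFs]
      exact hzZ.2
  have : Countable Z := TopologicalSpace.separableSpace_iff_countable.1 inferInstance
  exact this

end Pool.Agent.R963.KH
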