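import Mathlib
import Pool.Agent.R963.KH.Stm

/-! KH-15b (helper261): one first integral from many. -/

open scoped ContDiff Topology
open Set Filter

namespace Pool.Agent.R963.KH

noncomputable section

namespace SumAux

theorem bump (U : Set V) (hU : IsOpen U) (x : V) (hx : x ∈ U) :
    ∃ (χ : V → ℝ) (r : ℝ), 0 < r ∧ ContDiff ℝ ∞ χ ∧ HasCompactSupport χ ∧ tsupport χ ⊆ U ∧
      ∀ y ∈ Metric.ball x r, χ y = 1 := by
  obtain ⟨R, hR, hRU⟩ := Metric.isOpen_iff.1 hU x hx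
  let f : ContDiffBump x := ⟨R / 4, R / 2, by positivity, by linarith⟩
  refine ⟨f, R / 4, by positivity, f.contDiff, f.hasCompactSupport, ?_, ?_⟩
  · rw [f.tsupport_eq]
    refine (Metric.closedBall_subset_ball ?_).trans hRU
    show R / 2 < R
    linarith
  · intro y hy
    exact f.one_of_mem_closedBall (Metric.ball_subset_closedBall hy)

theorem smooth_mul (U : Set V) (hU : IsOpen U) (χ F : V → ℝ) (hχ : ContDiff ℝ ∞ χ)
    (hs : tsupport χ ⊆ U) (hF : ContDiffOn ℝ ∞ F U) : ContDiff ℝ ∞ (fun x => χ x * F x) := by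
  rw [contDiff_iff_contDiffAt]
  intro x
  by_cases hx : x ∈ U
  · exact hχ.contDiffAt.mul (hF.contDiffAt (hU.mem_nhds hx))
  · have h1 : x ∉ tsupport χ := fun h => hx (hs h)
    have h2 : (fun x => χ x * F x) =ᶠ[𝓝 x] fun _ => (0 : ℝ) := by
      have h3 : χ =ᶠ[𝓝 x] 0 := notMem_tsupport_iff_eventuallyEq.1 h1
      filter_upwards [h3] with y hy
      rw [hy]
      simp
    exact contDiffAt_const.congr_of_eventuallyEq h2

theorem bdd_iter (g : V → ℝ) (hg : ContDiff ℝ ∞ g) (hc : HasCompactSupport g) (k : ℕ) :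
    ∃ C : ℝ, 0 ≤ C ∧ ∀ x, ‖iteratedFDeriv ℝ k g x‖ ≤ C := by
  obtain ⟨C, hC⟩ := (hc.iteratedFDeriv (𝕜 := ℝ) k).exists_bound_of_continuous
    (hg.continuous_iteratedFDeriv (by exact_mod_cast le_top))
  exact ⟨C, (norm_nonneg _).trans (hC 0), hC⟩

/-- a dual vector -/
theorem dual_vec (a b c : V →L[ℝ] ℝ) (h : LinearIndependent ℝ ![a, b, c]) :
    ∃ v : V, a v = 0 ∧ b v = 0 ∧ c v = 1 := by
  by_contra hcon
  have hker : ∀ v : V, a v = 0 → b v = 0 → c v = 0 := by
    intro v ha hb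
    by_contra hc
    refine hcon ⟨(c v)⁻¹ • v, ?_, ?_, ?_⟩
    · rw [map_smul, ha, smul_zero]
    · rw [map_smul, hb, smul_zero]
    · rw [map_smul, smul_eq_mul, inv_mul_cancel₀ hc]
  have h1 : (c : V →ₗ[ℝ] ℝ) ∈ Submodule.span ℝ (Set.range ![(a : V →ₗ[ℝ] ℝ), (b : V →ₗ[ℝ] ℝ)]) := by
    refine mem_span_of_iInf_ker_le_ker ?_
    intro v hv
    rw [Submodule.mem_iInf] at hv
    have h0 := hv 0
    have h1 := hv 1
    rw [LinearMap.mem_ker] at h0 h1 ⊢
    exact hker v h0 h1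
  rw [Submodule.mem_span_range_iff_exists_fun] at h1
  obtain ⟨g, hg⟩ := h1
  rw [Fin.sum_univ_two] at hg
  have h2 : ∑ i, (![g 0, g 1, -1] : Fin 3 → ℝ) i • (![a, b, c] : Fin 3 → (V →L[ℝ] ℝ)) i = 0 := by
    rw [Fin.sum_univ_three]
    ext1 v
    have h3 := congrArg (fun L : V →ₗ[ℝ] ℝ => L v) hg
    simp at h3
    simp
    linarith
  have h4 := (Fintype.linearIndependent_iff.1 h) _ h2 2
  simp at h4

theorem indep_of (a b c c' : V →L[ℝ] ℝ) (h : LinearIndependent ℝ ![a, b, c]) (v : V)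
    (ha : a v = 0) (hb : b v = 0) (hc : c' v ≠ 0) : LinearIndependent ℝ ![a, b, c'] := by
  rw [Fintype.linearIndependent_iff] at h ⊢
  intro g hg
  rw [Fin.sum_univ_three] at hg
  have h1 := congrArg (fun L : V →L[ℝ] ℝ => L v) hg
  have h2 : g 2 * c' v = 0 := by
    simp [ha, hb] at h1
    rcases h1 with h1 | h1
    · rw [h1, zero_mul]
    · exact absurd h1 hc
  have h3 : g 2 = 0 := (mul_eq_zero.1 h2).resolve_right hc
  have h4 : g 0 • a + g 1 • b = 0 := by
    have h5 : g 0 • a + g 1 • b + g 2 • c' = 0 := hg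
    rw [h3, zero_smul, add_zero] at h5
    exact h5
  have h6 := h ![g 0, g 1, 0] (by
    rw [Fin.sum_univ_three]
    show g 0 • a + g 1 • b + (0 : ℝ) • c = 0
    rw [zero_smul, add_zero]
    exact h4)
  intro i
  fin_cases i
  · exact h6 0
  · exact h6 1
  · exact h3

end SumAux

open SumAux

theorem t_sum (hps : S_pser) : S_sum := by
  intro A B X X' U hU hA hB hF
  rcases U.eq_empty_or_nonempty with hUe | hUne
  · subst hUe
    refine ⟨fun _ => 0, contDiffOn_const, fun w hw => absurd hw (notMem_empty w), ∅, isOpen_empty,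
      empty_subset _, empty_subset _, fun w hw => absurd hw (notMem_empty w)⟩
  -- countable family of bump functions
  choose! χ0 r0 hr0 hχ0 hχ0c hχ0s hχ01 using fun x (hx : x ∈ U) => bump U hU x hx
  obtain ⟨tU, htU, htc, htcov⟩ := TopologicalSpace.countable_cover_nhdsWithin
    (f := fun x => Metric.ball x (r0 x)) (s := U)
    (fun x hx => mem_nhdsWithin_of_mem_nhds (Metric.ball_mem_nhds x (hr0 x hx)))
  have htne : tU.Nonempty := by
    obtain ⟨x, hx⟩ := hUne
    obtain ⟨y, hy, _⟩ := mem_iUnion₂.1 (htcov hx)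
    exact ⟨y, hy⟩
  obtain ⟨c, hc⟩ := htc.exists_eq_range htne
  have hcU : ∀ j, c j ∈ U := fun j => htU (by rw [hc]; exact mem_range_self j)
  have hcov : ∀ x ∈ U, ∃ j, x ∈ Metric.ball (c j) (r0 (c j)) := by
    intro x hx
    obtain ⟨y, hy, hxy⟩ := mem_iUnion₂.1 (htcov hx)
    rw [hc] at hy
    obtain ⟨j, rfl⟩ := hy
    exact ⟨j, hxy⟩
  -- countable family of open sets
  let S0 : Set (Set V) := {O | O ∈ TopologicalSpace.countableBasis V ∧ O.Nonempty ∧ O ⊆ U}
  have hS0c : S0.Countable :=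
    (TopologicalSpace.countable_countableBasis V).mono fun O hO => hO.1
  have hS0b : ∀ O : Set V, IsOpen O → O.Nonempty → O ⊆ U → ∃ O' ∈ S0, O' ⊆ O := by
    intro O hO hOne hOU
    obtain ⟨x, hx⟩ := hOne
    obtain ⟨O', hO', hxO', hO'O⟩ :=
      (TopologicalSpace.isBasis_countableBasis V).exists_subset_of_mem_open hx hO
    exact ⟨O', ⟨hO', ⟨x, hxO'⟩, hO'O.trans hOU⟩, hO'O⟩
  have hS0ne : S0.Nonempty := by
    obtain ⟨O', hO', _⟩ := hS0b U hU hUne subset_rfl
    exact ⟨O', hO'⟩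
  obtain ⟨On, hOn⟩ := hS0c.exists_eq_range hS0ne
  have hOnS : ∀ i, On i ∈ S0 := fun i => by rw [hOn]; exact mem_range_self i
  have hOpen : ∀ i, IsOpen (On i) := fun i =>
    TopologicalSpace.isOpen_of_mem_countableBasis (hOnS i).1
  choose F hFs hFX w hwO hwI using fun i => hF (On i) (hOpen i) (hOnS i).2.1 (hOnS i).2.2
  have hwU : ∀ i, w i ∈ U := fun i => (hOnS i).2.2 (hwO i)
  choose v hvA hvB hvF using fun i => dual_vec _ _ _ (hwI i)
  -- the products
  let g : ℕ → ℕ → V → ℝ := fun j i x => χ0 (c j) x * F i x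
  have hg : ∀ j i, ContDiff ℝ ∞ (g j i) := fun j i =>
    smooth_mul U hU _ _ (hχ0 _ (hcU j)) (hχ0s _ (hcU j)) (hFs i)
  have hgc : ∀ j i, HasCompactSupport (g j i) := fun j i => (hχ0c _ (hcU j)).mul_right
  choose C hC0 hC using fun j i k => bdd_iter (g j i) (hg j i) (hgc j i) k
  let Dm : ℕ → ℝ := fun i => ∑ j ∈ Finset.range (i + 1), ∑ k ∈ Finset.range (i + 1), C j i k
  have hDm0 : ∀ i, 0 ≤ Dm i := fun i =>
    Finset.sum_nonneg fun j _ => Finset.sum_nonneg fun k _ => hC0 j i k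
  have hCD : ∀ i j k, j ≤ i → k ≤ i → C j i k ≤ Dm i := by
    intro i j k hj hk
    have h1 : C j i k ≤ ∑ k ∈ Finset.range (i + 1), C j i k :=
      Finset.single_le_sum (f := fun k => C j i k) (fun k _ => hC0 j i k)
        (Finset.mem_range.2 (by omega))
    have h2 : ∑ k ∈ Finset.range (i + 1), C j i k ≤ Dm i :=
      Finset.single_le_sum (f := fun j => ∑ k ∈ Finset.range (i + 1), C j i k)
        (fun j _ => Finset.sum_nonneg fun k _ => hC0 j i k) (Finset.mem_range.2 (by omega))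
    exact h1.trans h2
  let δ : ℕ → ℝ := fun i => (1 / 2) ^ i / (1 + Dm i)
  have hδ : ∀ i, 0 < δ i := fun i => div_pos (by positivity) (by linarith [hDm0 i])
  have hδC : ∀ i j k, j ≤ i → k ≤ i → δ i * C j i k ≤ (1 / 2) ^ i := by
    intro i j k hj hk
    have h1 := hCD i j k hj hk
    have h2 : 0 < 1 + Dm i := by linarith [hDm0 i]
    show (1 / 2) ^ i / (1 + Dm i) * C j i k ≤ (1 / 2) ^ i
    rw [div_mul_eq_mul_div, div_le_iff₀ h2]
    exact mul_le_mul_of_nonneg_left (by linarith) (by positivity)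
  have hsumC : ∀ j k, Summable fun i => δ i * C j i k := by
    intro j k
    refine summable_of_isBigO_nat (g := fun i => (1 / 2 : ℝ) ^ i)
      (summable_geometric_of_lt_one (by norm_num) (by norm_num)) ?_
    refine Asymptotics.IsBigO.of_bound 1 ?_
    filter_upwards [eventually_ge_atTop (max j k)] with i hi
    rw [Real.norm_of_nonneg (mul_nonneg (hδ i).le (hC0 j i k)), one_mul,
      Real.norm_of_nonneg (by positivity)]
    exact hδC i j k ((le_max_left _ _).trans hi) ((le_max_right _ _).trans hi)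
  -- the sums
  let Fs : ℝ → V → ℝ := fun s x => ∑' i, (s ^ i * δ i) * F i x
  have hloc : ∀ s j, ∀ y ∈ Metric.ball (c j) (r0 (c j)),
      Fs s y = ∑' i, (s ^ i * δ i) * g j i y := by
    intro s j y hy
    have h1 : χ0 (c j) y = 1 := hχ01 _ (hcU j) y hy
    show ∑' i, (s ^ i * δ i) * F i y = ∑' i, (s ^ i * δ i) * (χ0 (c j) y * F i y)
    rw [h1]
    simp only [one_mul]
  have hpow : ∀ s : ℝ, s ∈ Ioo (0 : ℝ) 1 → ∀ i : ℕ, 0 ≤ s ^ i ∧ s ^ i ≤ 1 := by
    intro s hs i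
    exact ⟨pow_nonneg hs.1.le i, pow_le_one₀ hs.1.le hs.2.le⟩
  have hterm : ∀ s j i, ContDiff ℝ ∞ (fun x => (s ^ i * δ i) * g j i x) := fun s j i =>
    contDiff_const.mul (hg j i)
  have hitn : ∀ s ∈ Ioo (0 : ℝ) 1, ∀ j i k x,
      ‖iteratedFDeriv ℝ k (fun x => (s ^ i * δ i) * g j i x) x‖ ≤ δ i * C j i k := by
    intro s hs j i k x
    have h1 : (fun x => (s ^ i * δ i) * g j i x) = (s ^ i * δ i) • (g j i) := rfl
    rw [h1, iteratedFDeriv_const_smul_apply ((hg j i).contDiffAt.of_le (by exact_mod_cast le_top)),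
      norm_smul, Real.norm_of_nonneg (mul_nonneg (hpow s hs i).1 (hδ i).le)]
    have h2 := hC j i k x
    have h3 := hpow s hs i
    calc s ^ i * δ i * ‖iteratedFDeriv ℝ k (g j i) x‖ ≤ (1 * δ i) * C j i k := by
          refine mul_le_mul ?_ h2 (norm_nonneg _) ?_
          · exact mul_le_mul_of_nonneg_right h3.2 (hδ i).le
          · rw [one_mul]; exact (hδ i).le
      _ = _ := by rw [one_mul]
  have hGsm : ∀ s ∈ Ioo (0 : ℝ) 1, ∀ j, ContDiff ℝ ∞ (fun x => ∑' i, (s ^ i * δ i) * g j i x) := by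
    intro s hs j
    refine contDiff_tsum (N := ⊤) (v := fun k i => δ i * C j i k) (fun i => hterm s j i)
      (fun k _ => hsumC j k) ?_
    intro k i x _
    exact hitn s hs j i k x
  have hFsm : ∀ s ∈ Ioo (0 : ℝ) 1, ∀ x ∈ U, ContDiffAt ℝ ∞ (Fs s) x := by
    intro s hs x hx
    obtain ⟨j, hj⟩ := hcov x hx
    refine (hGsm s hs j).contDiffAt.congr_of_eventuallyEq ?_
    filter_upwards [Metric.isOpen_ball.mem_nhds hj] with y hy
    exact hloc s j y hy
  -- the derivative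
  have hfdn : ∀ s ∈ Ioo (0 : ℝ) 1, ∀ j i x,
      ‖fderiv ℝ (fun x => (s ^ i * δ i) * g j i x) x‖ ≤ δ i * C j i 1 := by
    intro s hs j i x
    rw [← norm_iteratedFDeriv_one]
    exact hitn s hs j i 1 x
  have hgval : ∀ s ∈ Ioo (0 : ℝ) 1, ∀ j i x, ‖(s ^ i * δ i) * g j i x‖ ≤ δ i * C j i 0 := by
    intro s hs j i x
    rw [← norm_iteratedFDeriv_zero (𝕜 := ℝ) (f := fun x => (s ^ i * δ i) * g j i x)]
    exact hitn s hs j i 0 x
  have hfd : ∀ s ∈ Ioo (0 : ℝ) 1, ∀ j, ∀ x ∈ Metric.ball (c j) (r0 (c j)), x ∈ U →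
      (Summable fun i => (s ^ i * δ i) • fderiv ℝ (F i) x) ∧
      (∀ i, ‖fderiv ℝ (F i) x‖ ≤ C j i 1) ∧
      fderiv ℝ (Fs s) x = ∑' i, (s ^ i * δ i) • fderiv ℝ (F i) x := by
    intro s hs j x hx hxU
    have hev : ∀ i, g j i =ᶠ[𝓝 x] F i := by
      intro i
      filter_upwards [Metric.isOpen_ball.mem_nhds hx] with y hy
      show χ0 (c j) y * F i y = F i y
      rw [hχ01 _ (hcU j) y hy, one_mul]
    have h1 : ∀ i, fderiv ℝ (fun x => (s ^ i * δ i) * g j i x) x =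
        (s ^ i * δ i) • fderiv ℝ (F i) x := by
      intro i
      have h2 : fderiv ℝ (fun x => (s ^ i * δ i) * g j i x) x = (s ^ i * δ i) • fderiv ℝ (g j i) x :=
        fderiv_const_mul ((hg j i).differentiable (by simp)).differentiableAt _
      rw [h2, (hev i).fderiv_eq]
    refine ⟨?_, ?_, ?_⟩
    · have h2 : Summable fun i => fderiv ℝ (fun x => (s ^ i * δ i) * g j i x) x :=
        Summable.of_norm_bounded (hsumC j 1) (fun i => hfdn s hs j i x)
      exact h2.congr fun i => (h1 i)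
    · intro i
      rw [← (hev i).fderiv_eq, ← norm_iteratedFDeriv_one]
      exact hC j i 1 x
    · have h2 : fderiv ℝ (fun y => ∑' i, (s ^ i * δ i) * g j i y) x =
          ∑' i, fderiv ℝ (fun x => (s ^ i * δ i) * g j i x) x :=
        fderiv_tsum_apply (x₀ := x) (hsumC j 1) (fun i => (hterm s j i).differentiable (by simp))
          (fun i x => hfdn s hs j i x)
          (Summable.of_norm_bounded (hsumC j 0) (fun i => hgval s hs j i x)) x
      have h3 : Fs s =ᶠ[𝓝 x] fun y => ∑' i, (s ^ i * δ i) * g j i y := by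
        filter_upwards [Metric.isOpen_ball.mem_nhds hx] with y hy
        exact hloc s j y hy
      rw [h3.fderiv_eq, h2]
      exact tsum_congr h1
  have hfdv : ∀ s ∈ Ioo (0 : ℝ) 1, ∀ x ∈ U, ∀ u : V,
      fderiv ℝ (Fs s) x u = ∑' i, (s ^ i * δ i) * fderiv ℝ (F i) x u := by
    intro s hs x hx u
    obtain ⟨j, hj⟩ := hcov x hx
    obtain ⟨h1, _, h3⟩ := hfd s hs j x hj hx
    rw [h3]
    have h4 := (ContinuousLinearMap.apply ℝ ℝ u).map_tsum h1
    simpa using h4
  -- choice of `s`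
  have hbad : ∀ n, Set.Countable {s : ℝ | s ∈ Ioo (0 : ℝ) 1 ∧
      ∑' i, (δ i * fderiv ℝ (F i) (w n) (v n)) * s ^ i = 0} := by
    intro n
    refine hps _ ?_ ⟨n, ?_⟩
    · obtain ⟨j, hj⟩ := hcov (w n) (hwU n)
      refine ⟨(∑' i, δ i * C j i 1) * ‖v n‖, fun i => ?_⟩
      have h1 := (hfd (1 / 2) (by constructor <;> norm_num) j (w n) hj (hwU n)).2.1 i
      have h2 : |fderiv ℝ (F i) (w n) (v n)| ≤ C j i 1 * ‖v n‖ := by
        refine ((fderiv ℝ (F i) (w n)).le_opNorm (v n)).trans ?_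
        exact mul_le_mul_of_nonneg_right h1 (norm_nonneg _)
      rw [abs_mul, abs_of_pos (hδ i)]
      calc δ i * |fderiv ℝ (F i) (w n) (v n)| ≤ δ i * (C j i 1 * ‖v n‖) :=
            mul_le_mul_of_nonneg_left h2 (hδ i).le
        _ = (δ i * C j i 1) * ‖v n‖ := by ring
        _ ≤ (∑' i, δ i * C j i 1) * ‖v n‖ := by
            refine mul_le_mul_of_nonneg_right ?_ (norm_nonneg _)
            exact (hsumC j 1).le_tsum i (fun m _ => mul_nonneg (hδ m).le (hC0 j m 1))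
    · rw [hvF n, mul_one]
      exact (hδ n).ne'
  have hbadU : Set.Countable (⋃ n, {s : ℝ | s ∈ Ioo (0 : ℝ) 1 ∧
      ∑' i, (δ i * fderiv ℝ (F i) (w n) (v n)) * s ^ i = 0}) := countable_iUnion hbad
  obtain ⟨s, hs, hsb⟩ := (hbadU.dense_compl ℝ).inter_open_nonempty (Ioo (0 : ℝ) 1) isOpen_Ioo
    ⟨1 / 2, by constructor <;> norm_num⟩
  have hne : ∀ n, fderiv ℝ (Fs s) (w n) (v n) ≠ 0 := by
    intro n h0
    refine hsb (mem_iUnion.2 ⟨n, hs, ?_⟩)
    rw [hfdv s hs (w n) (hwU n) (v n)] at h0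
    rw [← h0]
    exact tsum_congr fun i => by ring
  have hFsOn : ContDiffOn ℝ ∞ (Fs s) U := fun x hx => (hFsm s hs x hx).contDiffWithinAt
  refine ⟨Fs s, hFsOn, ?_, ?_⟩
  · intro x hx
    constructor
    · rw [hfdv s hs x hx]
      have : ∀ i, (s ^ i * δ i) * fderiv ℝ (F i) x (X x) = 0 := fun i => by
        rw [(hFX i x hx).1, mul_zero]
      simp only [this, tsum_zero]
    · rw [hfdv s hs x hx]
      have : ∀ i, (s ^ i * δ i) * fderiv ℝ (F i) x (X' x) = 0 := fun i => by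
        rw [(hFX i x hx).2, mul_zero]
      simp only [this, tsum_zero]
  · let Φ : V → Fin 3 → (V →L[ℝ] ℝ) := fun x => ![fderiv ℝ A x, fderiv ℝ B x, fderiv ℝ (Fs s) x]
    have hcont : ∀ f : V → ℝ, ContDiffOn ℝ ∞ f U → ContinuousOn (fderiv ℝ f) U := fun f hf =>
      hf.continuousOn_fderiv_of_isOpen hU (by simp)
    have hΦ : ContinuousOn Φ U := by
      rw [continuousOn_pi]
      intro i
      fin_cases i
      · exact hcont A hA
      · exact hcont B hB
      · exact hcont _ hFsOn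
    refine ⟨U ∩ Φ ⁻¹' {f | LinearIndependent ℝ f},
      hΦ.isOpen_inter_preimage hU isOpen_setOfPred_linearIndependent, inter_subset_left, ?_,
      fun x hx => hx.2⟩
    intro x hx
    rw [mem_closure_iff]
    intro O hO hxO
    obtain ⟨O', hO', hO'O⟩ := hS0b (O ∩ U) (hO.inter hU) ⟨x, hxO, hx⟩ inter_subset_right
    rw [hOn] at hO'
    obtain ⟨n, rfl⟩ := hO'
    refine ⟨w n, (hO'O (hwO n)).1, hwU n, ?_⟩
    exact indep_of _ _ _ _ (hwI n) (v n) (hvA n) (hvB n) (hne n)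

end

end Pool.Agent.R963.KH
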