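import Pool.Agent.R963.KH.Stm

/-!
# KH-5: rotations and time reversal permute the orbits
-/

set_option autoImplicit false
set_option maxHeartbeats 400000

open scoped ContDiff Topology NNReal
open Set Filter

namespace Pool.Agent.R963.KH

noncomputable section

/-! ### Algebra -/

theorem sy_cs (θ : ℝ) : Real.cos θ ^ 2 + Real.sin θ ^ 2 = 1 := Real.cos_sq_add_sin_sq θ

theorem sy_r2 (θ : ℝ) (w : V) : r2 (Rot θ w) = r2 w := by
  show (Real.cos θ * w 0 - Real.sin θ * w 1) ^ 2 + (Real.sin θ * w 0 + Real.cos θ * w 1) ^ 2 =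
    w 0 ^ 2 + w 1 ^ 2
  linear_combination (w 0 ^ 2 + w 1 ^ 2) * sy_cs θ

theorem sy_rho2 (θ : ℝ) (w : V) : rho2 (Rot θ w) = rho2 w := by
  have h := sy_r2 θ w
  unfold r2 at h
  unfold rho2
  rw [h]
  rfl

theorem sy_Ham (θ : ℝ) (w : V) : Ham (Rot θ w) = Ham w := by
  have h := sy_r2 θ w
  unfold r2 at h
  unfold Ham
  rw [h]
  have h2 : (Rot θ w 3 - (1 / 2) * Rot θ w 1 * Rot θ w 5) ^ 2 +
      (Rot θ w 4 + (1 / 2) * Rot θ w 0 * Rot θ w 5) ^ 2 =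
      (w 3 - (1 / 2) * w 1 * w 5) ^ 2 + (w 4 + (1 / 2) * w 0 * w 5) ^ 2 := by
    show (Real.cos θ * w 3 - Real.sin θ * w 4
        - (1 / 2) * (Real.sin θ * w 0 + Real.cos θ * w 1) * w 5) ^ 2 +
      (Real.sin θ * w 3 + Real.cos θ * w 4
        + (1 / 2) * (Real.cos θ * w 0 - Real.sin θ * w 1) * w 5) ^ 2 = _
    linear_combination ((w 3 - (1 / 2) * w 1 * w 5) ^ 2 + (w 4 + (1 / 2) * w 0 * w 5) ^ 2) *
      sy_cs θ
  rw [h2]
  rfl

theorem sy_Jf (θ : ℝ) (w : V) : Jf (Rot θ w) = Jf w := by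
  show (Real.cos θ * w 0 - Real.sin θ * w 1) * (Real.cos θ * w 3 - Real.sin θ * w 4) +
    (Real.sin θ * w 0 + Real.cos θ * w 1) * (Real.sin θ * w 3 + Real.cos θ * w 4) +
    2 * w 2 * w 5 = w 0 * w 3 + w 1 * w 4 + 2 * w 2 * w 5
  linear_combination (w 0 * w 3 + w 1 * w 4) * sy_cs θ

theorem sy_W (θ : ℝ) {w : V} (hw : w ∈ W) : Rot θ w ∈ W := by
  refine ⟨?_, by rw [sy_Ham]; exact hw.2⟩
  rintro ⟨h0, h1, h2⟩
  have h0' : Real.cos θ * w 0 - Real.sin θ * w 1 = 0 := h0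
  have h1' : Real.sin θ * w 0 + Real.cos θ * w 1 = 0 := h1
  refine hw.1 ⟨?_, ?_, h2⟩
  · linear_combination Real.cos θ * h0' + Real.sin θ * h1' - w 0 * sy_cs θ
  · linear_combination Real.cos θ * h1' - Real.sin θ * h0' - w 1 * sy_cs θ

theorem sy_X (θ : ℝ) (w : V) : XH (Rot θ w) = Rot θ (XH w) := by
  have hr := sy_r2 θ w
  have hρ := sy_rho2 θ w
  funext i
  fin_cases i
  · show Real.cos θ * w 3 - Real.sin θ * w 4
        - (1 / 2) * (Real.sin θ * w 0 + Real.cos θ * w 1) * w 5 =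
      Real.cos θ * (w 3 - (1 / 2) * w 1 * w 5) - Real.sin θ * (w 4 + (1 / 2) * w 0 * w 5)
    ring
  · show Real.sin θ * w 3 + Real.cos θ * w 4
        + (1 / 2) * (Real.cos θ * w 0 - Real.sin θ * w 1) * w 5 =
      Real.sin θ * (w 3 - (1 / 2) * w 1 * w 5) + Real.cos θ * (w 4 + (1 / 2) * w 0 * w 5)
    ring
  · show (1 / 2) * ((Real.cos θ * w 0 - Real.sin θ * w 1) * (Real.sin θ * w 3 + Real.cos θ * w 4
        + (1 / 2) * (Real.cos θ * w 0 - Real.sin θ * w 1) * w 5) -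
        (Real.sin θ * w 0 + Real.cos θ * w 1) * (Real.cos θ * w 3 - Real.sin θ * w 4
        - (1 / 2) * (Real.sin θ * w 0 + Real.cos θ * w 1) * w 5)) =
      (1 / 2) * (w 0 * (w 4 + (1 / 2) * w 0 * w 5) - w 1 * (w 3 - (1 / 2) * w 1 * w 5))
    linear_combination ((1 / 2) * (w 0 * (w 4 + (1 / 2) * w 0 * w 5) -
      w 1 * (w 3 - (1 / 2) * w 1 * w 5))) * sy_cs θ
  · show -((1 / 2) * w 5 * (Real.sin θ * w 3 + Real.cos θ * w 4
        + (1 / 2) * (Real.cos θ * w 0 - Real.sin θ * w 1) * w 5) +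
        kap * (Real.cos θ * w 0 - Real.sin θ * w 1) * r2 (Rot θ w) / rho2 (Rot θ w) ^ 3) =
      Real.cos θ * (-((1 / 2) * w 5 * (w 4 + (1 / 2) * w 0 * w 5) +
        kap * w 0 * r2 w / rho2 w ^ 3)) -
      Real.sin θ * ((1 / 2) * w 5 * (w 3 - (1 / 2) * w 1 * w 5) - kap * w 1 * r2 w / rho2 w ^ 3)
    rw [hr, hρ]
    ring
  · show (1 / 2) * w 5 * (Real.cos θ * w 3 - Real.sin θ * w 4
        - (1 / 2) * (Real.sin θ * w 0 + Real.cos θ * w 1) * w 5) -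
        kap * (Real.sin θ * w 0 + Real.cos θ * w 1) * r2 (Rot θ w) / rho2 (Rot θ w) ^ 3 =
      Real.sin θ * (-((1 / 2) * w 5 * (w 4 + (1 / 2) * w 0 * w 5) +
        kap * w 0 * r2 w / rho2 w ^ 3)) +
      Real.cos θ * ((1 / 2) * w 5 * (w 3 - (1 / 2) * w 1 * w 5) - kap * w 1 * r2 w / rho2 w ^ 3)
    rw [hr, hρ]
    ring
  · show -(8 * kap * w 2 / rho2 (Rot θ w) ^ 3) = -(8 * kap * w 2 / rho2 w ^ 3)
    rw [hρ]

theorem sy_Rho_rev (w : V) : rho2 (Rev w) = rho2 w := rfl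

theorem sy_Ham_rev (w : V) : Ham (Rev w) = Ham w := by
  show (1 / 2) * ((-w 3 - (1 / 2) * w 1 * -w 5) ^ 2 + (-w 4 + (1 / 2) * w 0 * -w 5) ^ 2)
    - 1 / (8 * Real.pi * √((w 0 ^ 2 + w 1 ^ 2) ^ 2 + 16 * w 2 ^ 2)) = Ham w
  unfold Ham
  ring

theorem sy_Jf_rev (w : V) : Jf (Rev w) = -Jf w := by
  show w 0 * -w 3 + w 1 * -w 4 + 2 * w 2 * -w 5 = -Jf w
  unfold Jf
  ring

theorem sy_W_rev {w : V} (hw : w ∈ W) : Rev w ∈ W :=
  ⟨hw.1, by rw [sy_Ham_rev]; exact hw.2⟩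

theorem sy_X_rev (w : V) : XH (Rev w) = (-1 : ℝ) • Rev (XH w) := by
  funext i
  fin_cases i
  · show -w 3 - (1 / 2) * w 1 * -w 5 = (-1 : ℝ) * (w 3 - (1 / 2) * w 1 * w 5)
    ring
  · show -w 4 + (1 / 2) * w 0 * -w 5 = (-1 : ℝ) * (w 4 + (1 / 2) * w 0 * w 5)
    ring
  · show (1 / 2) * (w 0 * (-w 4 + (1 / 2) * w 0 * -w 5) - w 1 * (-w 3 - (1 / 2) * w 1 * -w 5)) =
      (-1 : ℝ) * ((1 / 2) * (w 0 * (w 4 + (1 / 2) * w 0 * w 5) - w 1 * (w 3 - (1 / 2) * w 1 * w 5)))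
    ring
  · show -((1 / 2) * -w 5 * (-w 4 + (1 / 2) * w 0 * -w 5) + kap * w 0 * r2 w / rho2 w ^ 3) =
      (-1 : ℝ) * -(-((1 / 2) * w 5 * (w 4 + (1 / 2) * w 0 * w 5) + kap * w 0 * r2 w / rho2 w ^ 3))
    ring
  · show (1 / 2) * -w 5 * (-w 3 - (1 / 2) * w 1 * -w 5) - kap * w 1 * r2 w / rho2 w ^ 3 =
      (-1 : ℝ) * -((1 / 2) * w 5 * (w 3 - (1 / 2) * w 1 * w 5) - kap * w 1 * r2 w / rho2 w ^ 3)
    ring
  · show -(8 * kap * w 2 / rho2 w ^ 3) = (-1 : ℝ) * -(-(8 * kap * w 2 / rho2 w ^ 3))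
    ring

/-! ### The linear maps -/

def rotL (θ : ℝ) : V →ₗ[ℝ] V where
  toFun := Rot θ
  map_add' u v := by
    funext i
    fin_cases i
    · show Real.cos θ * (u 0 + v 0) - Real.sin θ * (u 1 + v 1) =
        (Real.cos θ * u 0 - Real.sin θ * u 1) + (Real.cos θ * v 0 - Real.sin θ * v 1)
      ring
    · show Real.sin θ * (u 0 + v 0) + Real.cos θ * (u 1 + v 1) =
        (Real.sin θ * u 0 + Real.cos θ * u 1) + (Real.sin θ * v 0 + Real.cos θ * v 1)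
      ring
    · rfl
    · show Real.cos θ * (u 3 + v 3) - Real.sin θ * (u 4 + v 4) =
        (Real.cos θ * u 3 - Real.sin θ * u 4) + (Real.cos θ * v 3 - Real.sin θ * v 4)
      ring
    · show Real.sin θ * (u 3 + v 3) + Real.cos θ * (u 4 + v 4) =
        (Real.sin θ * u 3 + Real.cos θ * u 4) + (Real.sin θ * v 3 + Real.cos θ * v 4)
      ring
    · rfl
  map_smul' a u := by
    funext i
    fin_cases i
    · show Real.cos θ * (a * u 0) - Real.sin θ * (a * u 1) =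
        a * (Real.cos θ * u 0 - Real.sin θ * u 1)
      ring
    · show Real.sin θ * (a * u 0) + Real.cos θ * (a * u 1) =
        a * (Real.sin θ * u 0 + Real.cos θ * u 1)
      ring
    · rfl
    · show Real.cos θ * (a * u 3) - Real.sin θ * (a * u 4) =
        a * (Real.cos θ * u 3 - Real.sin θ * u 4)
      ring
    · show Real.sin θ * (a * u 3) + Real.cos θ * (a * u 4) =
        a * (Real.sin θ * u 3 + Real.cos θ * u 4)
      ring
    · rfl

def revL : V →ₗ[ℝ] V where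
  toFun := Rev
  map_add' u v := by
    funext i
    fin_cases i
    · rfl
    · rfl
    · rfl
    · show -(u 3 + v 3) = -u 3 + -v 3
      ring
    · show -(u 4 + v 4) = -u 4 + -v 4
      ring
    · show -(u 5 + v 5) = -u 5 + -v 5
      ring
  map_smul' a u := by
    funext i
    fin_cases i
    · rfl
    · rfl
    · rfl
    · show -(a * u 3) = a * -u 3
      ring
    · show -(a * u 4) = a * -u 4
      ring
    · show -(a * u 5) = a * -u 5
      ring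

theorem rot_rot (θ : ℝ) (w : V) : Rot (-θ) (Rot θ w) = w := by
  funext i
  fin_cases i
  · show Real.cos (-θ) * (Real.cos θ * w 0 - Real.sin θ * w 1) -
      Real.sin (-θ) * (Real.sin θ * w 0 + Real.cos θ * w 1) = w 0
    rw [Real.cos_neg, Real.sin_neg]
    linear_combination w 0 * sy_cs θ
  · show Real.sin (-θ) * (Real.cos θ * w 0 - Real.sin θ * w 1) +
      Real.cos (-θ) * (Real.sin θ * w 0 + Real.cos θ * w 1) = w 1
    rw [Real.cos_neg, Real.sin_neg]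
    linear_combination w 1 * sy_cs θ
  · rfl
  · show Real.cos (-θ) * (Real.cos θ * w 3 - Real.sin θ * w 4) -
      Real.sin (-θ) * (Real.sin θ * w 3 + Real.cos θ * w 4) = w 3
    rw [Real.cos_neg, Real.sin_neg]
    linear_combination w 3 * sy_cs θ
  · show Real.sin (-θ) * (Real.cos θ * w 3 - Real.sin θ * w 4) +
      Real.cos (-θ) * (Real.sin θ * w 3 + Real.cos θ * w 4) = w 4
    rw [Real.cos_neg, Real.sin_neg]
    linear_combination w 4 * sy_cs θ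
  · rfl

theorem rev_rev (w : V) : Rev (Rev w) = w := by
  funext i
  fin_cases i
  · rfl
  · rfl
  · rfl
  · show - -w 3 = w 3
    ring
  · show - -w 4 = w 4
    ring
  · show - -w 5 = w 5
    ring

/-! ### Orbits -/

theorem orb (D : FD) (hp : S_prop) (σ : V →L[ℝ] V) (e : ℝ) (he : e * e = 1)
    (hW : ∀ w ∈ W, σ w ∈ W) (hX : ∀ w, XH (σ w) = e • σ (XH w)) (w : V) (hw : w ∈ W) :
    ∃ K : ℝ → ℝ, ∀ τ, σ (D.Ψ τ w) = D.Ψ (K τ) (σ w) := by
  obtain ⟨L, hL⟩ := D.Y_lip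
  have hpos : ∀ τ, 0 < D.f (σ (D.Ψ τ w)) := fun τ =>
    (D.f_pos _).2 (hW _ (hp D w hw τ).1).1
  have hΨc : Continuous (fun τ => D.Ψ τ w) :=
    continuous_iff_continuousAt.2 fun τ => (D.Ψ_deriv w τ).continuousAt
  let γ : ℝ → V := fun τ => σ (D.Ψ τ w)
  have hγc : Continuous γ := σ.continuous.comp hΨc
  let k : ℝ → ℝ := fun τ => e * D.f (D.Ψ τ w) / D.f (γ τ)
  have hk : Continuous k :=
    (continuous_const.mul (D.f_smooth.continuous.comp hΨc)).div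
      (D.f_smooth.continuous.comp hγc) (fun τ => (hpos τ).ne')
  let K : ℝ → ℝ := fun τ => ∫ x in (0 : ℝ)..τ, k x
  have hK : ∀ τ, HasDerivAt K (k τ) τ := fun τ => (hk.integral_hasStrictDerivAt 0 τ).hasDerivAt
  have hK0 : K 0 = 0 := intervalIntegral.integral_same
  let z : ℝ → V := fun τ => D.Ψ (K τ) (σ w)
  have hz : ∀ τ, HasDerivAt z (k τ • (D.f (z τ) • XH (z τ))) τ := fun τ =>
    (D.Ψ_deriv (σ w) (K τ)).scomp τ (hK τ)
  have hγ : ∀ τ, HasDerivAt γ (k τ • (D.f (γ τ) • XH (γ τ))) τ := by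
    intro τ
    have h := σ.hasFDerivAt.comp_hasDerivAt τ (D.Ψ_deriv w τ)
    have h2 : σ (D.f (D.Ψ τ w) • XH (D.Ψ τ w)) = k τ • (D.f (γ τ) • XH (γ τ)) := by
      have h3 : XH (γ τ) = e • σ (XH (D.Ψ τ w)) := hX _
      rw [h3, map_smul, smul_smul, smul_smul]
      congr 1
      show D.f (D.Ψ τ w) = e * D.f (D.Ψ τ w) / D.f (γ τ) * D.f (γ τ) * e
      have h4 := (hpos τ).ne'
      have h5 : D.f (γ τ) ≠ 0 := h4
      field_simp
      linear_combination (-1 : ℝ) * D.f (D.Ψ τ w) * he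
    rw [h2] at h
    exact h
  refine ⟨K, fun τ => ?_⟩
  show γ τ = z τ
  set R : ℝ := |τ| + 1 with hR
  obtain ⟨M, hM⟩ := (isCompact_Icc (a := -R) (b := R)).exists_bound_of_continuousOn hk.continuousOn
  have hM0 : 0 ≤ M := (norm_nonneg _).trans (hM 0 ⟨by have := abs_nonneg τ; linarith,
    by have := abs_nonneg τ; linarith⟩)
  have hlip : ∀ t ∈ Ioo (-R) R, LipschitzOnWith (M.toNNReal * L)
      (fun x => k t • (D.f x • XH x)) (univ : Set V) := by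
    intro t ht
    refine LipschitzOnWith.of_dist_le_mul fun x _ y _ => ?_
    have h1 := hL.dist_le_mul x y
    rw [dist_smul₀]
    have h2 : ‖k t‖ ≤ M := hM t ⟨ht.1.le, ht.2.le⟩
    have h3 : ((M.toNNReal * L : ℝ≥0) : ℝ) = M * L := by
      rw [NNReal.coe_mul, Real.coe_toNNReal M hM0]
    rw [h3, mul_assoc]
    exact mul_le_mul h2 h1 dist_nonneg hM0
  have huniq := ODE_solution_unique_of_mem_Ioo (v := fun t x => k t • (D.f x • XH x))
    (s := fun _ => (univ : Set V)) (K := M.toNNReal * L) (t₀ := 0) hlip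
    ⟨by have := abs_nonneg τ; linarith, by have := abs_nonneg τ; linarith⟩
    (fun t _ => ⟨hγ t, mem_univ _⟩) (fun t _ => ⟨hz t, mem_univ _⟩)
    (by
      show σ (D.Ψ 0 w) = D.Ψ (K 0) (σ w)
      rw [hK0, D.Ψ_zero, D.Ψ_zero])
  exact huniq ⟨by have := neg_abs_le τ; linarith, by have := le_abs_self τ; linarith⟩

theorem orb_surj (D : FD) (hp : S_prop) (σ σ' : V →L[ℝ] V) (e : ℝ) (he : e * e = 1)
    (hW : ∀ w ∈ W, σ w ∈ W) (hX : ∀ w, XH (σ w) = e • σ (XH w))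
    (hW' : ∀ w ∈ W, σ' w ∈ W) (hX' : ∀ w, XH (σ' w) = e • σ' (XH w))
    (h1 : ∀ w, σ (σ' w) = w) (h2 : ∀ w, σ' (σ w) = w) (w : V) (hw : w ∈ W) :
    ∃ K : ℝ → ℝ, Function.Surjective K ∧ ∀ τ, σ (D.Ψ τ w) = D.Ψ (K τ) (σ w) := by
  obtain ⟨K, hK⟩ := orb D hp σ e he hW hX w hw
  obtain ⟨K', hK'⟩ := orb D hp σ' e he hW' hX' (σ w) (hW w hw)
  refine ⟨K, fun s => ⟨K' s, ?_⟩, hK⟩
  have h3 : D.Ψ (K (K' s)) (σ w) = D.Ψ s (σ w) := by
    rw [← hK, ← h1 (D.Ψ s (σ w)), hK', h2]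
  have hmono : StrictMono (fun t => Tm (D.Ψ t (σ w))) := by
    refine strictMono_of_deriv_pos fun t => ?_
    have h := hp D (σ w) (hW w hw) t
    rw [h.2.2.2.1.deriv]
    exact h.2.2.2.2.2
  exact hmono.injective (by show Tm _ = Tm _; rw [h3])

theorem t_sym (_hf : S_field) (hp : S_prop) : S_sym := by
  intro D
  refine ⟨fun θ w hw => ⟨sy_W θ hw, ?_, ?_⟩, fun w hw => ⟨sy_W_rev hw, ?_, ?_⟩⟩
  · unfold Tm
    rw [sy_Jf, sy_Ham]
  · refine orb_surj D hp (rotL θ).toContinuousLinearMap (rotL (-θ)).toContinuousLinearMap 1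
      (by norm_num) (fun w hw => sy_W θ hw) (fun w => ?_) (fun w hw => sy_W (-θ) hw)
      (fun w => ?_) (fun w => ?_) (fun w => rot_rot θ w) w hw
    · rw [one_smul]
      exact sy_X θ w
    · rw [one_smul]
      exact sy_X (-θ) w
    · have h := rot_rot (-θ) w
      rw [neg_neg] at h
      exact h
  · unfold Tm
    rw [sy_Jf_rev, sy_Ham_rev, neg_div]
  · exact orb_surj D hp revL.toContinuousLinearMap revL.toContinuousLinearMap (-1)
      (by norm_num) (fun w hw => sy_W_rev hw) (fun w => sy_X_rev w) (fun w hw => sy_W_rev hw)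
      (fun w => sy_X_rev w) (fun w => rev_rev w) (fun w => rev_rev w) w hw

end

end Pool.Agent.R963.KH
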