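import Pool.Agent.R963.KH.Stm

/-! KH-8: equations of motion in collision coordinates (helper587). -/

open scoped ContDiff Topology
open Set Filter

namespace Pool.Agent.R963.KH

noncomputable section

namespace TrajAux

section curve

variable {u : ℝ → V} {τ k : ℝ}

lemma d0 (hu : HasDerivAt u (k • XH (u τ)) τ) :
    HasDerivAt (fun s => u s 0) (k * (u τ 3 - (1 / 2) * u τ 1 * u τ 5)) τ := by
  have := hasDerivAt_pi.1 hu 0
  simpa [XH] using this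

lemma d1 (hu : HasDerivAt u (k • XH (u τ)) τ) :
    HasDerivAt (fun s => u s 1) (k * (u τ 4 + (1 / 2) * u τ 0 * u τ 5)) τ := by
  have := hasDerivAt_pi.1 hu 1
  simpa [XH] using this

lemma d2 (hu : HasDerivAt u (k • XH (u τ)) τ) :
    HasDerivAt (fun s => u s 2) (k * (bb (u τ) / 2)) τ := by
  have := hasDerivAt_pi.1 hu 2
  refine this.congr_deriv ?_
  have e : (k • XH (u τ)) 2 = k * ((1 / 2) * (u τ 0 * (u τ 4 + (1 / 2) * u τ 0 * u τ 5) -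
      u τ 1 * (u τ 3 - (1 / 2) * u τ 1 * u τ 5))) := rfl
  rw [e]
  simp only [bb, r2]
  ring

lemma d3 (hu : HasDerivAt u (k • XH (u τ)) τ) :
    HasDerivAt (fun s => u s 3) (k * (-((1 / 2) * u τ 5 * (u τ 4 + (1 / 2) * u τ 0 * u τ 5) +
      kap * u τ 0 * r2 (u τ) / rho2 (u τ) ^ 3))) τ := by
  have := hasDerivAt_pi.1 hu 3
  refine this.congr_deriv ?_
  simp [XH]

lemma d4 (hu : HasDerivAt u (k • XH (u τ)) τ) :
    HasDerivAt (fun s => u s 4) (k * ((1 / 2) * u τ 5 * (u τ 3 - (1 / 2) * u τ 1 * u τ 5) -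
      kap * u τ 1 * r2 (u τ) / rho2 (u τ) ^ 3)) τ := by
  have := hasDerivAt_pi.1 hu 4
  refine this.congr_deriv ?_
  simp [XH]

lemma d5 (hu : HasDerivAt u (k • XH (u τ)) τ) :
    HasDerivAt (fun s => u s 5) (k * (-(8 * kap * u τ 2 / rho2 (u τ) ^ 3))) τ := by
  have := hasDerivAt_pi.1 hu 5
  refine this.congr_deriv ?_
  simp [XH]

lemma dr (hu : HasDerivAt u (k • XH (u τ)) τ) :
    HasDerivAt (fun s => r2 (u s)) (k * (2 * aa (u τ))) τ := by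
  have h := ((d0 hu).pow 2).add ((d1 hu).pow 2)
  refine (h.congr_deriv ?_)
  simp only [aa]
  ring

lemma rho_sq (w : V) : rho2 w ^ 2 = r2 w ^ 2 + 16 * w 2 ^ 2 := by
  unfold rho2 r2
  rw [Real.sq_sqrt (by positivity)]

lemma rho_pos (w : V) (h : 0 < r2 w) : 0 < rho2 w := by
  unfold rho2
  apply Real.sqrt_pos.2
  have : 0 < (w 0 ^ 2 + w 1 ^ 2) ^ 2 := by
    have h' : 0 < w 0 ^ 2 + w 1 ^ 2 := h
    positivity
  nlinarith [sq_nonneg (w 2)]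

lemma drho (hu : HasDerivAt u (k • XH (u τ)) τ) (hr : 0 < r2 (u τ)) :
    HasDerivAt (fun s => rho2 (u s))
      (k * (2 * (aa (u τ) * r2 (u τ) + 4 * bb (u τ) * u τ 2) / rho2 (u τ))) τ := by
  have hρ := rho_pos (u τ) hr
  have h1 : HasDerivAt (fun s => r2 (u s) ^ 2 + 16 * (u s 2) ^ 2)
      (2 * r2 (u τ) * (k * (2 * aa (u τ))) + 16 * (2 * u τ 2 * (k * (bb (u τ) / 2)))) τ := by
    have h := ((dr hu).pow 2).add (((d2 hu).pow 2).const_mul 16)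
    refine h.congr_deriv ?_
    norm_num
  have hne : r2 (u τ) ^ 2 + 16 * (u τ 2) ^ 2 ≠ 0 := by
    rw [← rho_sq]; positivity
  have h2 := h1.sqrt hne
  have he : (fun s => rho2 (u s)) = fun s => √(r2 (u s) ^ 2 + 16 * (u s 2) ^ 2) := by
    funext s; rfl
  have hs : √(r2 (u τ) ^ 2 + 16 * (u τ 2) ^ 2) = rho2 (u τ) := rfl
  rw [he]
  refine h2.congr_deriv ?_
  rw [hs]
  field_simp
  ring

lemma da (hu : HasDerivAt u (k • XH (u τ)) τ) (hr : 0 < r2 (u τ)) :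
    HasDerivAt (fun s => aa (u s)) (k * ((aa (u τ) ^ 2 + bb (u τ) ^ 2) / r2 (u τ) -
      u τ 5 * bb (u τ) - kap * r2 (u τ) ^ 2 / rho2 (u τ) ^ 3)) τ := by
  have hρ := rho_pos (u τ) hr
  have h := ((d0 hu).mul (d3 hu)).add ((d1 hu).mul (d4 hu))
  refine h.congr_deriv ?_
  have hN : (aa (u τ) ^ 2 + bb (u τ) ^ 2) / r2 (u τ) =
      (u τ 3 - (1 / 2) * u τ 1 * u τ 5) ^ 2 + (u τ 4 + (1 / 2) * u τ 0 * u τ 5) ^ 2 := by
    rw [div_eq_iff hr.ne']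
    simp only [aa, bb, r2]
    ring
  rw [hN]
  simp only [bb]
  field_simp
  simp only [r2]
  ring

lemma db (hu : HasDerivAt u (k • XH (u τ)) τ) (hr : 0 < r2 (u τ)) :
    HasDerivAt (fun s => bb (u s)) (k * (aa (u τ) * u τ 5 -
      4 * kap * u τ 2 * r2 (u τ) / rho2 (u τ) ^ 3)) τ := by
  have hρ := rho_pos (u τ) hr
  have h := (((d0 hu).mul (d4 hu)).sub ((d1 hu).mul (d3 hu))).add
    (((dr hu).const_mul (1 / 2)).mul (d5 hu))
  refine h.congr_deriv ?_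
  simp only [aa]
  field_simp
  simp only [r2]
  ring

/-- `N = a² + b²` -/
def NN (w : V) : ℝ := aa w ^ 2 + bb w ^ 2
/-- numerator of `E` -/
def A1 (w : V) : ℝ := bb w * r2 w - 4 * aa w * w 2
/-- numerator of `S` -/
def A2 (w : V) : ℝ := aa w * r2 w + 4 * bb w * w 2

lemma rNH (w : V) (hr : 0 < r2 w) :
    rho2 w * NN w = r2 w * (2 * (rho2 w * Ham w) + kap) := by
  have hρ := rho_pos w hr
  have hH : Ham w = (1 / 2) * ((w 3 - (1 / 2) * w 1 * w 5) ^ 2 + (w 4 + (1 / 2) * w 0 * w 5) ^ 2)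
      - kap / (2 * rho2 w) := by
    unfold Ham kap rho2
    congr 1
    have : (0 : ℝ) < Real.pi := Real.pi_pos
    have h2 : √((w 0 ^ 2 + w 1 ^ 2) ^ 2 + 16 * w 2 ^ 2) ≠ 0 := hρ.ne'
    field_simp
    ring
  rw [hH]
  have : rho2 w * (1 / 2 * ((w 3 - 1 / 2 * w 1 * w 5) ^ 2 + (w 4 + 1 / 2 * w 0 * w 5) ^ 2) -
      kap / (2 * rho2 w)) = rho2 w * (1 / 2 * ((w 3 - 1 / 2 * w 1 * w 5) ^ 2 +
        (w 4 + 1 / 2 * w 0 * w 5) ^ 2)) - kap / 2 := by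
    field_simp
  rw [this]
  simp only [NN, aa, bb, r2]
  ring

lemma dA1 (hu : HasDerivAt u (k • XH (u τ)) τ) (hr : 0 < r2 (u τ)) :
    HasDerivAt (fun s => A1 (u s)) (k * (u τ 5 * A2 (u τ) -
      4 * u τ 2 * NN (u τ) / r2 (u τ))) τ := by
  have hρ := rho_pos (u τ) hr
  have h := ((db hu hr).mul (dr hu)).sub (((da hu hr).const_mul 4).mul (d2 hu))
  refine h.congr_deriv ?_
  simp only [A2, NN]
  field_simp
  ring

lemma dA2 (hu : HasDerivAt u (k • XH (u τ)) τ) (hr : 0 < r2 (u τ)) :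
    HasDerivAt (fun s => A2 (u s)) (k * (3 * NN (u τ) - u τ 5 * A1 (u τ) -
      kap * r2 (u τ) / rho2 (u τ))) τ := by
  have hρ := rho_pos (u τ) hr
  have h := ((da hu hr).mul (dr hu)).add (((db hu hr).const_mul 4).mul (d2 hu))
  refine h.congr_deriv ?_
  simp only [A1, NN]
  have h2 : kap * r2 (u τ) / rho2 (u τ) =
      kap * r2 (u τ) * (r2 (u τ) ^ 2 + 16 * u τ 2 ^ 2) / rho2 (u τ) ^ 3 := by
    rw [← rho_sq]
    field_simp
  rw [h2]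
  field_simp
  ring

lemma dN (hu : HasDerivAt u (k • XH (u τ)) τ) (hr : 0 < r2 (u τ)) :
    HasDerivAt (fun s => NN (u s)) (k * (2 * aa (u τ) * NN (u τ) / r2 (u τ) -
      2 * kap * r2 (u τ) * A2 (u τ) / rho2 (u τ) ^ 3)) τ := by
  have hρ := rho_pos (u τ) hr
  have h := ((da hu hr).pow 2).add ((db hu hr).pow 2)
  refine h.congr_deriv ?_
  simp only [A2, NN]
  field_simp
  ring

lemma dn (hu : HasDerivAt u (k • XH (u τ)) τ) (hr : 0 < r2 (u τ)) (hN : 0 < NN (u τ)) :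
    HasDerivAt (fun s => √(NN (u s))) (k * (aa (u τ) * NN (u τ) / r2 (u τ) -
      kap * r2 (u τ) * A2 (u τ) / rho2 (u τ) ^ 3) / √(NN (u τ))) τ := by
  have hρ := rho_pos (u τ) hr
  have h := (dN hu hr).sqrt hN.ne'
  refine h.congr_deriv ?_
  have : √(NN (u τ)) ≠ 0 := (Real.sqrt_pos.2 hN).ne'
  field_simp

end curve

/-! ### algebra -/

lemma algE {a b z r pz ρ n κ k A1 A2 Q : ℝ} (hr : 0 < r) (hρ : 0 < ρ) (hn : 0 < n)
    (h1 : ρ ^ 2 = r ^ 2 + 16 * z ^ 2) (h2 : n ^ 2 = a ^ 2 + b ^ 2)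
    (hA1 : A1 = b * r - 4 * a * z) (hA2 : A2 = a * r + 4 * b * z)
    (hQ : Q = (b - r * pz / 2) * r + 8 * (b - r * pz / 2) * z ^ 2 / r - 2 * (a + 2 * z * pz) * z) :
    ((k * (pz * A2 - 4 * z * n ^ 2 / r)) * (ρ * n) - A1 * ((k * (2 * A2 / ρ)) * n +
      ρ * (k * (a * n ^ 2 / r - κ * r * A2 / ρ ^ 3) / n))) / (ρ * n) ^ 2 =
    -(2 * k / ρ) * (A2 / (ρ * n)) * (Q / ρ + A1 / (ρ * n) * (ρ * n ^ 2 - κ * r) / (2 * ρ * n)) := by
  have e1 : 4 * z * n ^ 2 + A1 * a = b * A2 := by rw [hA1, hA2, h2]; ring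
  have e2 : pz - b / r = (A1 - 2 * Q) / ρ ^ 2 := by
    rw [eq_div_iff (by positivity), h1, hA1, hQ]
    field_simp
    ring
  have s1 : ((k * (pz * A2 - 4 * z * n ^ 2 / r)) * (ρ * n) - A1 * ((k * (2 * A2 / ρ)) * n +
      ρ * (k * (a * n ^ 2 / r - κ * r * A2 / ρ ^ 3) / n))) / (ρ * n) ^ 2 =
      k * (pz * A2 - (4 * z * n ^ 2 + A1 * a) / r - 2 * A1 * A2 / ρ ^ 2 +
        A1 * κ * r * A2 / (ρ ^ 3 * n ^ 2)) / (ρ * n) := by
    field_simp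
    ring
  have s2 : k * (pz * A2 - (b * A2) / r - 2 * A1 * A2 / ρ ^ 2 +
        A1 * κ * r * A2 / (ρ ^ 3 * n ^ 2)) / (ρ * n) =
      k * A2 * ((pz - b / r) - 2 * A1 / ρ ^ 2 + A1 * κ * r / (ρ ^ 3 * n ^ 2)) / (ρ * n) := by
    field_simp
  rw [s1, e1, s2, e2]
  field_simp
  ring

lemma algS {a b z r pz ρ n κ k A1 A2 Q : ℝ} (hr : 0 < r) (hρ : 0 < ρ) (hn : 0 < n)
    (h1 : ρ ^ 2 = r ^ 2 + 16 * z ^ 2) (h2 : n ^ 2 = a ^ 2 + b ^ 2)
    (hA1 : A1 = b * r - 4 * a * z) (hA2 : A2 = a * r + 4 * b * z)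
    (hQ : Q = (b - r * pz / 2) * r + 8 * (b - r * pz / 2) * z ^ 2 / r - 2 * (a + 2 * z * pz) * z) :
    ((k * (3 * n ^ 2 - pz * A1 - κ * r / ρ)) * (ρ * n) - A2 * ((k * (2 * A2 / ρ)) * n +
      ρ * (k * (a * n ^ 2 / r - κ * r * A2 / ρ ^ 3) / n))) / (ρ * n) ^ 2 =
    (2 * k / ρ) * (A1 / (ρ * n)) * (Q / ρ + A1 / (ρ * n) * (ρ * n ^ 2 - κ * r) / (2 * ρ * n)) := by
  have e1 : n ^ 2 * r - a * A2 = b * A1 := by rw [hA1, hA2, h2]; ring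
  have e3 : A2 ^ 2 = ρ ^ 2 * n ^ 2 - A1 ^ 2 := by rw [hA1, hA2, h1, h2]; ring
  have e2 : pz - b / r = (A1 - 2 * Q) / ρ ^ 2 := by
    rw [eq_div_iff (by positivity), h1, hA1, hQ]
    field_simp
    ring
  have s1 : ((k * (3 * n ^ 2 - pz * A1 - κ * r / ρ)) * (ρ * n) - A2 * ((k * (2 * A2 / ρ)) * n +
      ρ * (k * (a * n ^ 2 / r - κ * r * A2 / ρ ^ 3) / n))) / (ρ * n) ^ 2 =
      k * (2 * n ^ 2 + (n ^ 2 * r - a * A2) / r - pz * A1 - κ * r / ρ - 2 * A2 ^ 2 / ρ ^ 2 +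
        κ * r * A2 ^ 2 / (ρ ^ 3 * n ^ 2)) / (ρ * n) := by
    field_simp
    ring
  have s2 : k * (2 * n ^ 2 + (b * A1) / r - pz * A1 - κ * r / ρ - 2 * (ρ ^ 2 * n ^ 2 - A1 ^ 2) / ρ ^ 2
        + κ * r * (ρ ^ 2 * n ^ 2 - A1 ^ 2) / (ρ ^ 3 * n ^ 2)) / (ρ * n) =
      -(k * A1 * ((pz - b / r) - 2 * A1 / ρ ^ 2 + A1 * κ * r / (ρ ^ 3 * n ^ 2)) / (ρ * n)) := by
    field_simp
    ring
  rw [s1, e1, e3, s2, e2]
  field_simp
  ring

lemma sqrt1 (w : V) (hr : 0 < r2 w) : √(1 + tt w ^ 2) = rho2 w / r2 w := by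
  have hρ := rho_pos w hr
  have : 1 + tt w ^ 2 = (rho2 w / r2 w) ^ 2 := by
    rw [div_pow, rho_sq, tt]
    field_simp
    ring
  rw [this, Real.sqrt_sq (by positivity)]

lemma sqrt2 (w : V) (hr : 0 < r2 w) :
    √(√(1 + tt w ^ 2)) * √(2 * (rho2 w * Ham w) + kap) = rho2 w / r2 w * √(NN w) := by
  have hρ := rho_pos w hr
  have h := rNH w hr
  have hN : 0 ≤ NN w := by unfold NN; positivity
  have h2 : 2 * (rho2 w * Ham w) + kap = rho2 w / r2 w * NN w := by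
    field_simp
    linarith
  rw [sqrt1 w hr, h2, ← Real.sqrt_mul (by positivity)]
  have h3 : rho2 w / r2 w * (rho2 w / r2 w * NN w) = (rho2 w / r2 w) ^ 2 * NN w := by ring
  rw [h3, Real.sqrt_mul (by positivity), Real.sqrt_sq (by positivity)]

lemma Jpt (w : V) (hr : 0 < r2 w) : Jf w + pth w * tt w = A2 w / r2 w := by
  rw [tt, A2]
  field_simp
  simp only [Jf, pth, aa, bb]
  ring

lemma cc_eq (w : V) (hr : 0 < r2 w) : cc (tt w) (Jf w) (pth w) = A2 w / rho2 w := by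
  have hρ := rho_pos w hr
  unfold cc
  rw [Jpt w hr, sqrt1 w hr]
  field_simp

lemma NN_pos (w : V) (hr : 0 < r2 w) (h : 0 < 2 * (rho2 w * Ham w) + kap) : 0 < NN w := by
  have hρ := rho_pos w hr
  have h1 := rNH w hr
  have h2 : 0 < rho2 w * NN w := by rw [h1]; positivity
  exact (pos_iff_pos_of_mul_pos h2).1 hρ

lemma EE_eq (w : V) : EE w = A1 w / (rho2 w * √(NN w)) := rfl
lemma SS_eq (w : V) : SS w = A2 w / (rho2 w * √(NN w)) := rfl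

lemma Ab_eq (w : V) (hr : 0 < r2 w) (hN : 0 < NN w) :
    Ab kap (tt w) (EE w) (Jf w) (pth w) (rho2 w * Ham w) =
    ((bb w - r2 w * w 5 / 2) * r2 w + 8 * (bb w - r2 w * w 5 / 2) * w 2 ^ 2 / r2 w -
      2 * (aa w + 2 * w 2 * w 5) * w 2) / rho2 w +
    A1 w / (rho2 w * √(NN w)) * (rho2 w * √(NN w) ^ 2 - kap * r2 w) / (2 * rho2 w * √(NN w)) := by
  have hρ := rho_pos w hr
  have hn : 0 < √(NN w) := Real.sqrt_pos.2 hN
  unfold Ab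
  rw [sqrt2 w hr, sqrt1 w hr, EE_eq, Real.sq_sqrt hN.le, rNH w hr]
  have hp : pth w = bb w - r2 w * w 5 / 2 := by simp only [pth, bb]; ring
  have hJ : Jf w = aa w + 2 * w 2 * w 5 := by simp only [Jf, aa]
  rw [hp, hJ, tt]
  field_simp
  ring

lemma con1_ (w : V) (hr : 0 < r2 w) (hN : 0 < NN w) : EE w ^ 2 + SS w ^ 2 = 1 := by
  have hρ := rho_pos w hr
  have hn : 0 < √(NN w) := Real.sqrt_pos.2 hN
  rw [EE_eq, SS_eq, div_pow, div_pow, ← add_div, div_eq_one_iff_eq (by positivity), mul_pow,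
    Real.sq_sqrt hN.le, rho_sq]
  simp only [A1, A2, NN]
  ring

lemma con2_ (w : V) (hr : 0 < r2 w) (hN : 0 < NN w) :
    SS w * √(2 * (rho2 w * Ham w) + kap) * √(√(1 + tt w ^ 2)) = Jf w + pth w * tt w := by
  have hρ := rho_pos w hr
  have hn : 0 < √(NN w) := Real.sqrt_pos.2 hN
  rw [mul_assoc, mul_comm (√(2 * (rho2 w * Ham w) + kap)), sqrt2 w hr, Jpt w hr, SS_eq]
  field_simp

end TrajAux

open TrajAux

theorem t_traj (hf : S_field) (hp : S_prop) : S_traj := by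
  intro D w hw hpw τ
  obtain ⟨hW, hH, hP, hT, hJ, hk⟩ := hp D w hw τ
  have hu : HasDerivAt (fun τ => D.Ψ τ w) (D.f (D.Ψ τ w) • XH (D.Ψ τ w)) τ := D.Ψ_deriv w τ
  have hr : 0 < r2 (D.Ψ τ w) := by
    rcases (by unfold r2; positivity : 0 ≤ r2 (D.Ψ τ w)).lt_or_eq with h | h
    · exact h
    · exfalso
      apply hpw
      rw [← hP]
      have h0 : (D.Ψ τ w) 0 = 0 := by
        unfold r2 at h
        nlinarith [sq_nonneg ((D.Ψ τ w) 0), sq_nonneg ((D.Ψ τ w) 1)]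
      have h1 : (D.Ψ τ w) 1 = 0 := by
        unfold r2 at h
        nlinarith [sq_nonneg ((D.Ψ τ w) 0), sq_nonneg ((D.Ψ τ w) 1)]
      simp [pth, h0, h1]
  have hρ := rho_pos _ hr
  refine ⟨hk, hρ, ?_, hJ, hT, ?_, ?_, ?_, ?_⟩
  · refine (drho hu hr).congr_deriv ?_
    rw [← hP, cc_eq _ hr]
    simp only [A2]
    ring
  · intro hc
    rw [← hH] at hc ⊢
    rw [← hP]
    have hN := NN_pos _ hr hc
    have hn : 0 < √(NN (D.Ψ τ w)) := Real.sqrt_pos.2 hN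
    have h := (dA1 hu hr).div ((drho hu hr).mul (dn hu hr hN)) (mul_pos hρ hn).ne'
    refine h.congr_deriv ?_
    show _ = -(2 * D.f (D.Ψ τ w) / rho2 (D.Ψ τ w)) * SS (D.Ψ τ w) *
      Ab kap (tt (D.Ψ τ w)) (EE (D.Ψ τ w)) (Jf (D.Ψ τ w)) (pth (D.Ψ τ w))
        (rho2 (D.Ψ τ w) * Ham (D.Ψ τ w))
    rw [Ab_eq _ hr hN, SS_eq]
    have key := algE (a := aa (D.Ψ τ w)) (b := bb (D.Ψ τ w)) (z := D.Ψ τ w 2) (r := r2 (D.Ψ τ w))
      (pz := D.Ψ τ w 5) (ρ := rho2 (D.Ψ τ w)) (n := √(NN (D.Ψ τ w))) (κ := kap)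
      (k := D.f (D.Ψ τ w)) (A1 := A1 (D.Ψ τ w)) (A2 := A2 (D.Ψ τ w)) hr hρ hn (rho_sq _)
      (by rw [Real.sq_sqrt hN.le]; rfl) rfl rfl rfl
    rw [← key, Real.sq_sqrt hN.le]
    rfl
  · intro hc
    rw [← hH] at hc ⊢
    rw [← hP]
    have hN := NN_pos _ hr hc
    have hn : 0 < √(NN (D.Ψ τ w)) := Real.sqrt_pos.2 hN
    have h := (dA2 hu hr).div ((drho hu hr).mul (dn hu hr hN)) (mul_pos hρ hn).ne'
    refine h.congr_deriv ?_
    show _ = (2 * D.f (D.Ψ τ w) / rho2 (D.Ψ τ w)) * EE (D.Ψ τ w) *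
      Ab kap (tt (D.Ψ τ w)) (EE (D.Ψ τ w)) (Jf (D.Ψ τ w)) (pth (D.Ψ τ w))
        (rho2 (D.Ψ τ w) * Ham (D.Ψ τ w))
    rw [Ab_eq _ hr hN, EE_eq]
    have key := algS (a := aa (D.Ψ τ w)) (b := bb (D.Ψ τ w)) (z := D.Ψ τ w 2) (r := r2 (D.Ψ τ w))
      (pz := D.Ψ τ w 5) (ρ := rho2 (D.Ψ τ w)) (n := √(NN (D.Ψ τ w))) (κ := kap)
      (k := D.f (D.Ψ τ w)) (A1 := A1 (D.Ψ τ w)) (A2 := A2 (D.Ψ τ w)) hr hρ hn (rho_sq _)
      (by rw [Real.sq_sqrt hN.le]; rfl) rfl rfl rfl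
    rw [← key, Real.sq_sqrt hN.le]
    rfl
  · intro hc
    rw [← hH] at hc
    exact con1_ _ hr (NN_pos _ hr hc)
  · intro hc
    rw [← hH] at hc ⊢
    rw [← hP]
    exact con2_ _ hr (NN_pos _ hr hc)

end

end Pool.Agent.R963.KH
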