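import Pool.Agent.R963.KH.Stm

/-!
KH-10a: trapping near collision (by helper466).
-/

open scoped ContDiff Topology
open Set Filter

set_option maxHeartbeats 400000

namespace Pool.Agent.R963.KH

theorem trap_core {κ J₀ p₀ p H η δ ε₀ r₀ L : ℝ} {g : ℝ → ℝ} {k ρ J T t E S : ℝ → ℝ}
    (hκ : 0 < κ) (hg : ContDiff ℝ 1 g) (hδ : 0 < δ)
    (hL : ∀ x y : ℝ, |x| ≤ 1 → |y| ≤ 1 → |g x + η * x * y| ≤ L)
    (hr1 : r₀ ≤ ε₀) (hr2 : r₀ ≤ κ / 4) (hp : |p - p₀| < ε₀)
    (hly : ∀ t E S J p R : ℝ, |J - J₀| < ε₀ → |p - p₀| < ε₀ → |R| < ε₀ → E ^ 2 + S ^ 2 = 1 →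
      0 < 2 * R + κ → S * √(2 * R + κ) * √(√(1 + t ^ 2)) = J + p * t →
      δ ≤ -(cc t J p - deriv g E * S * Ab κ t E J p R + η * (E ^ 2 - S ^ 2) * Ab κ t E J p R))
    (htr : ∀ τ, 0 ≤ τ → TrajAt κ p H k ρ J T t E S τ) (s : ℝ) (hs : 0 ≤ s)
    (h0' : |ρ 0 * H| < r₀)
    (hgood : ∀ u, 0 < u → u < s → |J u - J₀| < ε₀ ∧ |ρ u * H| < r₀) :
    T s - T 0 ≤ Real.exp L / (2 * δ * Real.exp (-L)) * ρ 0 ∧
      ρ s ≤ Real.exp L / Real.exp (-L) * ρ 0 ∧ 0 ≤ T s - T 0 ∧
      J s - J 0 = 2 * H * (T s - T 0) := by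
  -- `|ρ u H| ≤ r₀` on `[0, s]`
  have hle : ∀ u, 0 ≤ u → u ≤ s → |ρ u * H| ≤ r₀ := by
    intro u hu0 hus
    rcases hu0.eq_or_lt with rfl | hu0
    · exact h0'.le
    rcases hus.lt_or_eq with hus | rfl
    · exact (hgood u hu0 hus).2.le
    · have hc : ContinuousAt (fun v => |ρ v * H|) u := by
        have := (htr u hu0.le).dρ.continuousAt
        exact (this.mul continuousAt_const).abs
      refine le_of_tendsto (hc.tendsto.mono_left (nhdsWithin_le_nhds (s := Iio u))) ?_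
      filter_upwards [Ioo_mem_nhdsLT hu0] with v hv
      exact (hgood v hv.1 hv.2).2.le
  have hpos : ∀ u, 0 ≤ u → u ≤ s → 0 < 2 * (ρ u * H) + κ := by
    intro u hu0 hus
    have := abs_le.1 (hle u hu0 hus)
    linarith [this.1]
  have h0s : (0:ℝ) ∈ Icc 0 s := ⟨le_refl _, hs⟩
  have hss : s ∈ Icc 0 s := ⟨hs, le_refl _⟩
  -- T increasing
  have hTd : ∀ u ∈ Icc 0 s, HasDerivAt T (k u) u := fun u hu => (htr u hu.1).dT
  have hTmono : 0 ≤ T s - T 0 := by
    have : MonotoneOn T (Icc 0 s) := by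
      apply monotoneOn_of_deriv_nonneg (convex_Icc 0 s)
      · exact fun u hu => (hTd u hu).continuousAt.continuousWithinAt
      · intro u hu
        rw [interior_Icc] at hu
        exact (hTd u ⟨hu.1.le, hu.2.le⟩).differentiableAt.differentiableWithinAt
      · intro u hu
        rw [interior_Icc] at hu
        rw [(hTd u ⟨hu.1.le, hu.2.le⟩).deriv]
        exact (htr u hu.1.le).k_pos.le
    have := this h0s hss hs
    linarith
  -- J - 2 H T constant
  have hJd : ∀ u ∈ Icc 0 s, HasDerivAt (fun v => J v - 2 * H * T v) 0 u := by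
    intro u hu
    have h1 := (htr u hu.1).dJ
    have h2 := (htr u hu.1).dT
    have h3 := h1.sub (h2.const_mul (2 * H))
    have e : 2 * H * k u - 2 * H * k u = 0 := by ring
    rw [e] at h3
    exact h3
  have hJc : ContinuousOn (fun v => J v - 2 * H * T v) (Icc 0 s) :=
    fun u hu => (hJd u hu).continuousAt.continuousWithinAt
  have hJdiff : DifferentiableOn ℝ (fun v => J v - 2 * H * T v) (interior (Icc 0 s)) := by
    intro u hu
    rw [interior_Icc] at hu
    exact (hJd u ⟨hu.1.le, hu.2.le⟩).differentiableAt.differentiableWithinAt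
  have hJ1 : J 0 - 2 * H * T 0 ≤ J s - 2 * H * T s := by
    have : MonotoneOn (fun v => J v - 2 * H * T v) (Icc 0 s) := by
      apply monotoneOn_of_deriv_nonneg (convex_Icc 0 s) hJc hJdiff
      intro u hu
      rw [interior_Icc] at hu
      rw [(hJd u ⟨hu.1.le, hu.2.le⟩).deriv]
    exact this h0s hss hs
  have hJ2 : J s - 2 * H * T s ≤ J 0 - 2 * H * T 0 := by
    have : AntitoneOn (fun v => J v - 2 * H * T v) (Icc 0 s) := by
      apply antitoneOn_of_deriv_nonpos (convex_Icc 0 s) hJc hJdiff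
      intro u hu
      rw [interior_Icc] at hu
      rw [(hJd u ⟨hu.1.le, hu.2.le⟩).deriv]
    exact this h0s hss hs
  have hJ : J s - J 0 = 2 * H * (T s - T 0) := by linarith
  -- bounds of E, S
  have hE1 : ∀ u ∈ Icc 0 s, |E u| ≤ 1 ∧ |S u| ≤ 1 := by
    intro u hu
    have h1 := (htr u hu.1).con1 (hpos u hu.1 hu.2)
    constructor
    · apply abs_le_one_iff_mul_self_le_one.2
      nlinarith [sq_nonneg (S u)]
    · apply abs_le_one_iff_mul_self_le_one.2
      nlinarith [sq_nonneg (E u)]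
  have hexp : ∀ u ∈ Icc 0 s, Real.exp (-L) ≤ Real.exp (g (E u) + η * E u * S u) ∧
      Real.exp (g (E u) + η * E u * S u) ≤ Real.exp L := by
    intro u hu
    have h1 := abs_le.1 (hL (E u) (S u) (hE1 u hu).1 (hE1 u hu).2)
    exact ⟨Real.exp_le_exp.2 h1.1, Real.exp_le_exp.2 h1.2⟩
  -- the derivative of Q
  have hQd : ∀ u ∈ Icc 0 s, HasDerivAt
      (fun v => ρ v * Real.exp (g (E v) + η * E v * S v) + 2 * δ * Real.exp (-L) * T v)
      (Real.exp (g (E u) + η * E u * S u) * (2 * k u) *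
        (cc (t u) (J u) p - deriv g (E u) * S u * Ab κ (t u) (E u) (J u) p (ρ u * H)
          + η * (E u ^ 2 - S u ^ 2) * Ab κ (t u) (E u) (J u) p (ρ u * H))
        + 2 * δ * Real.exp (-L) * k u) u := by
    intro u hu
    have X := htr u hu.1
    have hp0 := hpos u hu.1 hu.2
    have hE := X.dE hp0
    have hS := X.dS hp0
    have hgE : HasDerivAt g (deriv g (E u)) (E u) :=
      ((hg.differentiable (by norm_num)) (E u)).hasDerivAt
    have h1 := hgE.comp u hE
    have h2 := (hE.const_mul η).mul hS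
    have h3 := (h1.add h2).exp
    have h4 := (X.dρ.mul h3).add (X.dT.const_mul (2 * δ * Real.exp (-L)))
    refine h4.congr_deriv ?_
    have hρ : ρ u ≠ 0 := X.ρ_pos.ne'
    simp only [Function.comp, Pi.add_apply, Pi.mul_apply]
    field_simp
    ring
  have hQ : ρ s * Real.exp (g (E s) + η * E s * S s) + 2 * δ * Real.exp (-L) * T s ≤
      ρ 0 * Real.exp (g (E 0) + η * E 0 * S 0) + 2 * δ * Real.exp (-L) * T 0 := by
    have : AntitoneOn
        (fun v => ρ v * Real.exp (g (E v) + η * E v * S v) + 2 * δ * Real.exp (-L) * T v)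
        (Icc 0 s) := by
      apply antitoneOn_of_deriv_nonpos (convex_Icc 0 s)
      · exact fun u hu => (hQd u hu).continuousAt.continuousWithinAt
      · intro u hu
        rw [interior_Icc] at hu
        exact (hQd u ⟨hu.1.le, hu.2.le⟩).differentiableAt.differentiableWithinAt
      · intro u hu
        rw [interior_Icc] at hu
        have hu' : u ∈ Icc 0 s := ⟨hu.1.le, hu.2.le⟩
        rw [(hQd u hu').deriv]
        have X := htr u hu'.1
        have hp0 := hpos u hu'.1 hu'.2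
        obtain ⟨g1, g2⟩ := hgood u hu.1 hu.2
        have hb := hly (t u) (E u) (S u) (J u) p (ρ u * H) g1 hp (lt_of_lt_of_le g2 hr1)
          (X.con1 hp0) hp0 (X.con2 hp0)
        have hk := X.k_pos
        have he := (hexp u hu').1
        generalize cc (t u) (J u) p - deriv g (E u) * S u * Ab κ (t u) (E u) (J u) p (ρ u * H)
          + η * (E u ^ 2 - S u ^ 2) * Ab κ (t u) (E u) (J u) p (ρ u * H) = Z at hb ⊢
        generalize Real.exp (g (E u) + η * E u * S u) = e1 at he ⊢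
        have hm : 0 < Real.exp (-L) := Real.exp_pos _
        generalize Real.exp (-L) = m at he hm ⊢
        have hZ : Z ≤ -δ := by linarith
        have he1 : 0 < e1 := by linarith
        have a1 : e1 * (2 * k u) * Z ≤ e1 * (2 * k u) * (-δ) :=
          mul_le_mul_of_nonneg_left hZ (by positivity)
        have a2 : m * (2 * k u * δ) ≤ e1 * (2 * k u * δ) :=
          mul_le_mul_of_nonneg_right he (by positivity)
        nlinarith
    exact this h0s hss hs
  have hm : 0 < Real.exp (-L) := Real.exp_pos _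
  have hM : 0 < Real.exp L := Real.exp_pos _
  have ρs := (htr s hs).ρ_pos
  have ρ0 := (htr 0 le_rfl).ρ_pos
  have e0 := (hexp 0 h0s).2
  have es := (hexp s hss).1
  have q0 : ρ 0 * Real.exp (g (E 0) + η * E 0 * S 0) ≤ ρ 0 * Real.exp L :=
    mul_le_mul_of_nonneg_left e0 ρ0.le
  have qs : ρ s * Real.exp (-L) ≤ ρ s * Real.exp (g (E s) + η * E s * S s) :=
    mul_le_mul_of_nonneg_left es ρs.le
  have qs0 : 0 < ρ s * Real.exp (-L) := mul_pos ρs hm
  have hdm : 0 < 2 * δ * Real.exp (-L) := by positivity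
  have hTT : 0 ≤ 2 * δ * Real.exp (-L) * (T s - T 0) := mul_nonneg hdm.le hTmono
  refine ⟨?_, ?_, hTmono, hJ⟩
  · rw [div_mul_eq_mul_div, le_div_iff₀ hdm]
    nlinarith
  · rw [div_mul_eq_mul_div, le_div_iff₀ hm]
    nlinarith

theorem t_trap (h : S_ly) : S_trap := by
  intro κ J₀ p₀ H₀ hκ hJ₀ hp₀
  obtain ⟨g, η, δ, ε₀, hg, hδ, hε₀, hly⟩ := h κ J₀ p₀ hκ hJ₀.ne hp₀
  simp only [if_neg (not_lt.2 hJ₀.le), neg_mul, one_mul] at hly
  obtain ⟨L0, hL0⟩ : ∃ L0, ∀ x ∈ Icc (-1:ℝ) 1, ‖g x‖ ≤ L0 :=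
    isCompact_Icc.exists_bound_of_continuousOn hg.continuous.continuousOn
  have hL0n : 0 ≤ L0 := le_trans (norm_nonneg _) (hL0 0 ⟨by norm_num, by norm_num⟩)
  obtain ⟨L, hLdef⟩ : ∃ L, L = L0 + |η| := ⟨_, rfl⟩
  have hLn : 0 ≤ L := by rw [hLdef]; positivity
  have hL : ∀ x y : ℝ, |x| ≤ 1 → |y| ≤ 1 → |g x + η * x * y| ≤ L := by
    intro x y hx hy
    have h1 := hL0 x (abs_le.1 hx)
    rw [Real.norm_eq_abs] at h1
    have h2 : |η * x * y| ≤ |η| := by
      rw [abs_mul, abs_mul]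
      have : |x| * |y| ≤ 1 := mul_le_one₀ hx (abs_nonneg _) hy
      calc |η| * |x| * |y| = |η| * (|x| * |y|) := by ring
        _ ≤ |η| * 1 := mul_le_mul_of_nonneg_left this (abs_nonneg _)
        _ = |η| := mul_one _
    rw [hLdef]
    exact (abs_add_le _ _).trans (add_le_add h1 h2)
  obtain ⟨m, hmdef⟩ : ∃ m, m = Real.exp (-L) := ⟨_, rfl⟩
  obtain ⟨M, hMdef⟩ : ∃ M, M = Real.exp L := ⟨_, rfl⟩
  have hm : 0 < m := by rw [hmdef]; exact Real.exp_pos _
  have hM : 0 < M := by rw [hMdef]; exact Real.exp_pos _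
  have hmM : m ≤ M := by
    rw [hmdef, hMdef]
    exact Real.exp_le_exp.2 (by linarith)
  have hMm : 1 ≤ M / m := by rwa [le_div_iff₀ hm, one_mul]
  obtain ⟨r₀, hr₀def⟩ : ∃ r₀, r₀ = min ε₀ (κ / 4) := ⟨_, rfl⟩
  have hr1 : r₀ ≤ ε₀ := by rw [hr₀def]; exact min_le_left _ _
  have hr2 : r₀ ≤ κ / 4 := by rw [hr₀def]; exact min_le_right _ _
  have hr0 : 0 < r₀ := by rw [hr₀def]; exact lt_min hε₀ (by linarith)
  obtain ⟨C, hCdef⟩ : ∃ C, C = M / (2 * δ * m) := ⟨_, rfl⟩
  have hC : 0 < C := by rw [hCdef]; positivity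
  obtain ⟨h1, hh1⟩ : ∃ h1, h1 = |H₀| + 1 := ⟨_, rfl⟩
  have hh1p : 1 ≤ h1 := by rw [hh1]; linarith [abs_nonneg H₀]
  obtain ⟨K, hK⟩ : ∃ K, K = 1 + 2 * h1 * C + M / m * h1 := ⟨_, rfl⟩
  have hK1 : 1 ≤ K := by
    have : 0 ≤ 2 * h1 * C + M / m * h1 := by positivity
    rw [hK]; linarith
  obtain ⟨ε, hεdef⟩ : ∃ ε, ε = min 1 (r₀ / K) := ⟨_, rfl⟩
  have hε : 0 < ε := by rw [hεdef]; exact lt_min one_pos (by positivity)
  have hε1 : ε ≤ 1 := by rw [hεdef]; exact min_le_left _ _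
  have hεK : ε * K ≤ r₀ := by
    have : ε ≤ r₀ / K := by rw [hεdef]; exact min_le_right _ _
    rwa [le_div_iff₀ (by linarith)] at this
  have hεr : ε ≤ r₀ := by nlinarith
  refine ⟨ε, C, hε, hC, ?_⟩
  intro p H k ρ J T t E S hp hH hJ hρ htr τ hτ
  have hHabs : |H| ≤ h1 := by
    have : |H| ≤ |H - H₀| + |H₀| := by
      have := abs_add_le (H - H₀) H₀
      simpa using this
    rw [hh1]; linarith
  have ρ0 := (htr 0 le_rfl).ρ_pos
  have core := fun s hs => trap_core hκ hg hδ hL hr1 hr2 (lt_of_lt_of_le hp (hεr.trans hr1)) hly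
    htr s hs
  rw [← hmdef, ← hMdef, ← hCdef] at core
  have e1 : M / m * h1 * ρ 0 < r₀ := by
    have a1 : M / m * h1 * ρ 0 < M / m * h1 * ε := mul_lt_mul_of_pos_left hρ (by positivity)
    have a2 : M / m * h1 * ε ≤ K * ε := by
      apply mul_le_mul_of_nonneg_right _ hε.le
      have : 0 ≤ 1 + 2 * h1 * C := by positivity
      rw [hK]; linarith
    nlinarith
  have e2 : ε + 2 * h1 * C * ρ 0 ≤ r₀ := by
    have a1 : 2 * h1 * C * ρ 0 ≤ 2 * h1 * C * ε := mul_le_mul_of_nonneg_left hρ.le (by positivity)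
    have a2 : (1 + 2 * h1 * C) * ε ≤ K * ε := by
      apply mul_le_mul_of_nonneg_right _ hε.le
      have : 0 ≤ M / m * h1 := by positivity
      rw [hK]; linarith
    nlinarith
  have h0' : |ρ 0 * H| < r₀ := by
    rw [abs_mul, abs_of_pos ρ0]
    have a1 : ρ 0 * |H| ≤ ρ 0 * h1 := mul_le_mul_of_nonneg_left hHabs ρ0.le
    have a2 : ρ 0 * h1 ≤ M / m * h1 * ρ 0 := by
      have : 1 * (h1 * ρ 0) ≤ M / m * (h1 * ρ 0) := mul_le_mul_of_nonneg_right hMm (by positivity)
      nlinarith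
    linarith
  -- everything is trapped
  have good : ∀ u, 0 ≤ u → |J u - J₀| < ε₀ ∧ |ρ u * H| < r₀ := by
    by_contra hcon
    push Not at hcon
    obtain ⟨u0, hu0, hbad⟩ := hcon
    let A : Set ℝ := {u | 0 ≤ u ∧ (ε₀ ≤ |J u - J₀| ∨ r₀ ≤ |ρ u * H|)}
    have hA : u0 ∈ A := by
      refine ⟨hu0, ?_⟩
      by_cases hc : |J u0 - J₀| < ε₀
      · exact Or.inr (hbad hc)
      · exact Or.inl (not_lt.1 hc)
    have hbdd : BddBelow A := ⟨0, fun u hu => hu.1⟩
    have hA0 : A.Nonempty := ⟨u0, hA⟩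
    obtain ⟨s, hsdef⟩ : ∃ s, s = sInf A := ⟨_, rfl⟩
    have hs0 : 0 ≤ s := by rw [hsdef]; exact le_csInf hA0 (fun u hu => hu.1)
    have hgood : ∀ u, 0 < u → u < s → |J u - J₀| < ε₀ ∧ |ρ u * H| < r₀ := by
      intro u hu hus
      have hnot : u ∉ A := by
        intro hcon
        have := csInf_le hbdd hcon
        rw [← hsdef] at this
        linarith
      constructor
      · by_contra hc
        exact hnot ⟨hu.le, Or.inl (not_lt.1 hc)⟩
      · by_contra hc
        exact hnot ⟨hu.le, Or.inr (not_lt.1 hc)⟩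
    obtain ⟨b1, b2, b3, b4⟩ := core s hs0 h0' hgood
    have hρs := (htr s hs0).ρ_pos
    have c1 : |J s - J₀| < ε₀ := by
      have : |J s - J₀| ≤ |J 0 - J₀| + |J s - J 0| := by
        have := abs_add_le (J 0 - J₀) (J s - J 0)
        have e : J 0 - J₀ + (J s - J 0) = J s - J₀ := by ring
        rwa [e] at this
      have hJJ : |J s - J 0| ≤ 2 * h1 * C * ρ 0 := by
        rw [b4, abs_mul, abs_mul, abs_of_nonneg b3, abs_two]
        calc 2 * |H| * (T s - T 0) ≤ 2 * h1 * (C * ρ 0) := by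
              apply mul_le_mul _ b1 b3 (by positivity)
              linarith
          _ = 2 * h1 * C * ρ 0 := by ring
      linarith
    have c2 : |ρ s * H| < r₀ := by
      rw [abs_mul, abs_of_pos hρs]
      have : ρ s * |H| ≤ M / m * ρ 0 * h1 :=
        mul_le_mul b2 hHabs (abs_nonneg _) (by positivity)
      have e : M / m * ρ 0 * h1 = M / m * h1 * ρ 0 := by ring
      linarith
    -- points of A near s
    have hJc : ContinuousAt (fun v => |J v - J₀|) s :=
      (((htr s hs0).dJ.continuousAt).sub continuousAt_const).abs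
    have hρc : ContinuousAt (fun v => |ρ v * H|) s :=
      (((htr s hs0).dρ.continuousAt).mul continuousAt_const).abs
    have ev : ∀ᶠ v in 𝓝 s, |J v - J₀| < ε₀ ∧ |ρ v * H| < r₀ :=
      (hJc.tendsto.eventually (gt_mem_nhds c1)).and (hρc.tendsto.eventually (gt_mem_nhds c2))
    rw [Metric.eventually_nhds_iff] at ev
    obtain ⟨e, he, hev⟩ := ev
    obtain ⟨v, hvA, hvs⟩ := exists_lt_of_csInf_lt hA0 (by linarith [hsdef] : sInf A < s + e)
    have hv2 : s ≤ v := by rw [hsdef]; exact csInf_le hbdd hvA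
    have := hev (y := v) (by rw [Real.dist_eq, abs_of_nonneg (by linarith)]; linarith)
    rcases hvA.2 with hc | hc
    · linarith [this.1]
    · linarith [this.2]
  have fin := (core τ hτ h0' (fun u hu _ => good u hu.le)).1
  linarith

end Pool.Agent.R963.KH
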